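import Mathlib
import Pool.Agent.Helper967.ModelDef
import Pool.Agent.Helper967.TRDefs
set_option autoImplicit false

/-! Definability in a single ring, and undecidability of rings in which the naturals are definable. -/

namespace Pool.Agent.H358R3.Df

open FirstOrder FirstOrder.Language
open Pool.Agent.Helper967.ArithDef Pool.Agent.Helper967.ModelDef
open Pool.Agent.Helper967.TR (code termCode code_injective DecidableTheory TrueIn)

/-- the structure -/
noncomputable local instance strO {R : Type} [CommRing R] : Language.ring.Structure R :=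
  (FirstOrder.Ring.compatibleRingOfRing R).toStructure

/-- the one-element family -/
abbrev par (R : Type) : ∀ _ : Unit, Empty → R := fun _ e => e.elim

/-- variables -/
abbrev tv (n : ℕ) : Language.ring.Term (Empty ⊕ ℕ) := Term.var (Sum.inr n)
/-- sum of terms -/
abbrev tA {α : Type} (s t : Language.ring.Term α) : Language.ring.Term α := Term.func (ringFunc.add : Language.ring.Functions 2) ![s, t]
/-- product of terms -/
abbrev tM {α : Type} (s t : Language.ring.Term α) : Language.ring.Term α := Term.func (ringFunc.mul : Language.ring.Functions 2) ![s, t]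
/-- negation -/
abbrev tN {α : Type} (s : Language.ring.Term α) : Language.ring.Term α := Term.func (ringFunc.neg : Language.ring.Functions 1) ![s]
/-- the term `0` -/
abbrev t0 {α : Type} : Language.ring.Term α := Term.func (ringFunc.zero : Language.ring.Functions 0) ![]
/-- the term `1` -/
abbrev t1 {α : Type} : Language.ring.Term α := Term.func (ringFunc.one : Language.ring.Functions 0) ![]

/-- Definability (without parameters) of a predicate on sequences in a ring. -/
abbrev D (O : Type) [CommRing O] (R : (ℕ → O) → Prop) : Prop :=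
  DM (M := fun _ : Unit => O) Language.ring (par O) (fun _ v => R v)

section

variable {O : Type} [CommRing O]

theorem dm_sub {R : O → (ℕ → O) → Prop}
    (hR : D O (fun v => R (v 0) (fun n => v (n + 1))))
    (t : Language.ring.Term (Empty ⊕ ℕ)) :
    D O (fun v => R (t.realize (Sum.elim (par O ()) v)) v) := by
  refine DM.iff (R := fun i v => ∃ a, a = t.realize (Sum.elim (par O i) v) ∧ R a v) (fun i v => by simp) ?_
  refine DM.ex (S := fun i a v => a = t.realize (Sum.elim (par O i) v) ∧ R a v) (DM.and ?_ hR)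
  refine DM.iff ?_ (DM.term (tv 0) (t.relabel (Sum.map id (fun n => n + 1))))
  intro i v
  rw [Term.realize_relabel]
  have : Sum.elim (par O i) v ∘ Sum.map id (fun n => n + 1) = Sum.elim (par O i) (fun n => v (n+1)) := by
    funext s; rcases s with e | n
    · exact e.elim
    · rfl
  rw [this]
  rfl

/-- substitution of a term in a unary predicate -/
theorem app1 {R : O → Prop} (hR : D O (fun v => R (v 0))) (t : Language.ring.Term (Empty ⊕ ℕ)) :
    D O (fun v => R (t.realize (Sum.elim (par O ()) v))) :=
  dm_sub (R := fun a _ => R a) hR t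

theorem d_unit : D O (fun v => IsUnit (v 0)) := by
  refine DM.iff (R := fun _ v => ∃ a, v 0 * a = 1) (fun i v => ?_) (DM.ex (DM.term (tM (tv 1) (tv 0)) t1))
  exact ⟨fun ⟨a, ha⟩ => IsUnit.of_mul_eq_one a ha, fun h => h.exists_right_inv⟩

/-- the standard copy of the naturals -/
abbrev nu (R : Type) [CommRing R] : ∀ _ : Unit, ℕ → R := fun _ n => (n : R)

theorem interp_nat [CharZero O] (h : D O (fun v => ∃ n : ℕ, v 0 = n)) :
    Interp (L := Language.ring) (M := fun _ : Unit => O) (par O) (nu O) where
  rng := h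
  add := ⟨fun _ v => v 0 + v 1 = v 2, DM.term (tA (tv 0) (tv 1)) (tv 2), fun _ w => by
    simp only [nu]
    rw [← Nat.cast_add]
    exact Nat.cast_inj⟩
  mul := ⟨fun _ v => v 0 * v 1 = v 2, DM.term (tM (tv 0) (tv 1)) (tv 2), fun _ w => by
    simp only [nu]
    rw [← Nat.cast_mul]
    exact Nat.cast_inj⟩

/-- from the integers to the naturals -/
theorem d_nat_of_int (h : D O (fun v => ∃ n : ℤ, v 0 = n)) :
    D O (fun v => ∃ n : ℕ, v 0 = n) := by
  refine DM.iff (R := fun _ v => ∃ a b c d : O, (∃ n : ℤ, a = n) ∧ (∃ n : ℤ, b = n) ∧ (∃ n : ℤ, c = n) ∧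
    (∃ n : ℤ, d = n) ∧ v 0 = (a * a + b * b) + (c * c + d * d)) (fun i v => ?_) ?_
  · constructor
    · rintro ⟨_, _, _, _, ⟨a, rfl⟩, ⟨b, rfl⟩, ⟨c, rfl⟩, ⟨d, rfl⟩, hv⟩
      refine ⟨((a * a + b * b) + (c * c + d * d)).toNat, ?_⟩
      have h1 : 0 ≤ (a * a + b * b) + (c * c + d * d) := by nlinarith [mul_self_nonneg a, mul_self_nonneg b, mul_self_nonneg c, mul_self_nonneg d]
      have h2 : ((((a * a + b * b) + (c * c + d * d)).toNat : ℤ) : O) = (((a * a + b * b) + (c * c + d * d) : ℤ) : O) := by
        rw [Int.toNat_of_nonneg h1]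
      rw [Int.cast_natCast] at h2
      rw [h2, hv]
      push_cast
      rfl
    · rintro ⟨n, hn⟩
      obtain ⟨a, b, c, d, habcd⟩ := Nat.sum_four_squares n
      refine ⟨a, b, c, d, ⟨a, by simp⟩, ⟨b, by simp⟩, ⟨c, by simp⟩, ⟨d, by simp⟩, ?_⟩
      rw [hn, ← habcd]
      push_cast
      ring
  · have H : ∀ k : ℕ, D O (fun v => ∃ n : ℤ, v k = n) := fun k => app1 (R := fun a => ∃ n : ℤ, a = (n : O)) h (tv k)
    refine DM.ex (DM.ex (DM.ex (DM.ex ?_)))
    exact DM.and (H 3) (DM.and (H 2) (DM.and (H 1) (DM.and (H 0)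
      (DM.term (tv 4) (tA (tA (tM (tv 3) (tv 3)) (tM (tv 2) (tv 2))) (tA (tM (tv 1) (tv 1)) (tM (tv 0) (tv 0))))))))

/-- Definability implies definability in the sense of Mathlib. -/
theorem definable_of_D {R : O → Prop} (h : D O (fun v => R (v 0))) :
    Set.Definable₁ (∅ : Set O) Language.ring {x : O | R x} := by
  obtain ⟨φ, hφ⟩ := h
  let g : Empty ⊕ ℕ → Fin 1 := fun s => match s with
    | .inl e => e.elim
    | .inr _ => 0
  have key : (∅ : Set O).Definable Language.ring {x : Fin 1 → O | R (x 0)} := by
    rw [Set.empty_definable_iff]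
    refine ⟨φ.relabel g, ?_⟩
    ext x
    rw [Set.mem_ofPred_eq, Set.mem_ofPred_eq, Formula.realize_relabel]
    have h1 : x ∘ g = Sum.elim (par O ()) (fun _ => x 0) := by
      funext s
      rcases s with e | k
      · exact e.elim
      · rfl
    rw [h1]
    exact (hφ () (fun _ => x 0)).symm
  exact key

end

/-! ### Undecidability -/

/-- numerals -/
def num : ℕ → Language.ring.Term (Empty ⊕ Fin 1)
  | 0 => t0
  | n + 1 => tA (num n) t1

theorem realize_num {R : Type} [CommRing R] (n : ℕ) (v : Empty ⊕ Fin 1 → R) : (num n).realize v = (n : R) := by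
  induction n with
  | zero => exact Nat.cast_zero.symm
  | succ n ih =>
    have : (num (n + 1)).realize v = (num n).realize v + 1 := rfl
    rw [this, ih]
    push_cast
    rfl

theorem primrec_num : Primrec (fun n => termCode (num n)) := by
  have : (fun n => termCode (num n)) = (fun n => Nat.rec (Nat.pair 1 0)
      (fun _ c => Nat.pair 4 (Nat.pair c (Nat.pair 2 0))) n) := by
    funext n
    induction n with
    | zero => rfl
    | succ n ih =>
      show Nat.pair 4 (Nat.pair (termCode (num n)) (Nat.pair 2 0)) = _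
      rw [ih]
  rw [this]
  refine Primrec.nat_rec₁ _ ?_
  exact Primrec₂.natPair.comp (Primrec.const 4)
    (Primrec₂.natPair.comp Primrec.snd (Primrec.const _))

/-- The sentence `∀ x, x = n → Ψ x`. -/
def sig (Ψ : Language.ring.BoundedFormula Empty 1) (n : ℕ) : Language.ring.Sentence :=
  ((BoundedFormula.equal (Term.var (Sum.inr 0)) (num n)).imp Ψ).all

theorem code_sig (Ψ : Language.ring.BoundedFormula Empty 1) (n : ℕ) : code (sig Ψ n) =
    Nat.pair 3 (Nat.pair 2 (Nat.pair (Nat.pair 1 (Nat.pair (Nat.pair 0 0) (termCode (num n))))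
      (code Ψ))) := rfl

theorem primrec_sig (Ψ : Language.ring.BoundedFormula Empty 1) : Primrec (fun n => code (sig Ψ n)) := by
  simp only [code_sig]
  refine Primrec₂.natPair.comp (Primrec.const _) (Primrec₂.natPair.comp (Primrec.const _)
    (Primrec₂.natPair.comp (Primrec₂.natPair.comp (Primrec.const _)
      (Primrec₂.natPair.comp (Primrec.const _) primrec_num)) (Primrec.const _)))

theorem exists_formula {O : Type} [CommRing O] [CharZero O] (h : D O (fun v => ∃ n : ℕ, v 0 = n)) :
    ∃ Ψ : Language.ring.BoundedFormula Empty 1, ∀ n : ℕ, O ⊨ sig Ψ n ↔ Halt n := by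
  obtain ⟨ψ, hψ⟩ := (DN.closed (interp_nat h)).halt
  let g : Empty ⊕ ℕ → Empty ⊕ Fin 1 := fun s => match s with
    | .inl e => e.elim
    | .inr _ => .inr 0
  refine ⟨BoundedFormula.relabel (n := 1) g ψ, fun n => ?_⟩
  unfold sig Sentence.Realize Formula.Realize
  rw [BoundedFormula.realize_all]
  simp only [BoundedFormula.realize_imp]
  refine Iff.trans ?_ (hψ () (fun _ => n))
  have key : ∀ (v0 : Empty → O) (x0 : Fin 0 → O) (a : O),
      (BoundedFormula.relabel (n := 1) g ψ : Language.ring.BoundedFormula Empty 1).Realize v0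
        (Fin.snoc x0 a : Fin 1 → O) ↔ ψ.Realize (Sum.elim (par O ()) (fun _ => a)) := by
    intro v0 x0 a
    rw [BoundedFormula.realize_relabel]
    have h1 : (Sum.elim v0 ((Fin.snoc x0 a : Fin 1 → O) ∘ Fin.castAdd 0) ∘ g) =
        Sum.elim (par O ()) (fun _ => a) := by
      funext s
      rcases s with e | k
      · exact e.elim
      · rfl
    rw [h1]
    unfold Formula.Realize
    exact iff_of_eq (congrArg (BoundedFormula.Realize ψ _) (Subsingleton.elim _ _))
  constructor
  · intro hh
    refine (key _ _ _).1 (hh (n : O) ?_)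
    show _ = _
    rw [realize_num]
    rfl
  · intro hh a ha
    refine (key _ _ _).2 ?_
    have h1 : a = (n : O) := Eq.trans (b := _) ha (realize_num n _)
    rw [h1]
    exact hh

/-- A ring of characteristic zero in which the naturals are definable has an undecidable theory. -/
theorem undecidable {O : Type} [CommRing O] [CharZero O] (h : D O (fun v => ∃ n : ℕ, v 0 = n)) :
    ¬ DecidableTheory O := by
  intro hc
  obtain ⟨Ψ, hΨ⟩ := exists_formula h
  apply halt_not_computable
  unfold DecidableTheory at hc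
  obtain ⟨f, hf, hfe⟩ := ComputablePred.computable_iff.1 hc
  refine ComputablePred.computable_iff.2 ⟨fun n => f (code (sig Ψ n)),
    hf.comp (primrec_sig Ψ).to_comp, ?_⟩
  funext n
  have h1 := congrFun hfe (code (sig Ψ n))
  refine Eq.trans ?_ h1
  apply propext
  rw [← hΨ n]
  constructor
  · intro hh
    exact ⟨sig Ψ n, rfl, hh⟩
  · rintro ⟨ψ, hψ, hh⟩
    rw [← code_injective _ _ hψ]
    exact hh

end Pool.Agent.H358R3.Df
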