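import Mathlib

/-!
Definitions for the equality problem (uniform word problem) in varieties of associative algebras,
and elementary lemmas on them.
-/

namespace Pool.Agent.H358R3.EqP

/-- A nonempty word `x_a x_{l_1} x_{l_2} ⋯` in the variables `x_0, x_1, …`, given by its first
letter and the list of the other letters. -/
abbrev Word := ℕ × List ℕ

/-- The value of a word at an assignment. -/
def wval {A : Type*} [Mul A] (v : ℕ → A) (w : Word) : A :=
  w.2.foldl (fun a i => a * v i) (v w.1)

/-- Noncommutative polynomials without constant term: finite lists of terms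
`coefficient times nonempty word`. -/
abbrev NPoly (K : Type*) := List (K × Word)

/-- The value of a polynomial with coefficients in `F` at an assignment. -/
def pval {F A : Type*} [NonUnitalNonAssocSemiring A] [SMul F A] (v : ℕ → A) (p : NPoly F) : A :=
  (p.map fun t => t.1 • wval v t.2).sum

/-- The rational number `± a / (b + 1)` given by `(sign, a, b)`, as an element of `F`. -/
def cval (F : Type*) [Field F] (c : Bool × ℕ × ℕ) : F :=
  (if c.1 then 1 else -1) * ((c.2.1 : F) / ((c.2.2 : F) + 1))

/-- A polynomial with rational coefficients as a polynomial with coefficients in `F`. -/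
def toF (F : Type*) [Field F] (p : NPoly (Bool × ℕ × ℕ)) : NPoly F :=
  p.map fun t => (cval F t.1, t.2)

/-- A quasi-identity `u_1 = 0 ∧ ⋯ ∧ u_k = 0 → u = 0`: the list of the `u_i`, and `u`. All are
noncommutative polynomials with rational coefficients and without constant term. -/
abbrev QuasiId := List (NPoly (Bool × ℕ × ℕ)) × NPoly (Bool × ℕ × ℕ)

/-- The quasi-identity `q` holds in the `F`-algebra `A`. -/
def Holds (F : Type*) [Field F] (A : Type*) [NonUnitalRing A] [Module F A] (q : QuasiId) : Prop :=
  ∀ v : ℕ → A, (∀ p ∈ q.1, pval v (toF F p) = 0) → pval v (toF F q.2) = 0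

/-- The algebra `A` satisfies every polynomial identity of the matrix algebra `M_n(F)`, that is,
`A` lies in the variety `M(n)`. -/
def InM (F : Type*) [Field F] (n : ℕ) (A : Type*) [NonUnitalRing A] [Module F A] : Prop :=
  ∀ p : NPoly F, (∀ v : ℕ → Matrix (Fin n) (Fin n) F, pval v p = 0) → ∀ v : ℕ → A, pval v p = 0

/-- Product of a nonempty list. -/
def nprod {A : Type*} [Mul A] [Zero A] : List A → A
  | [] => 0
  | a :: l => l.foldl (· * ·) a

/-- The algebra `A` satisfies the standard identity `s_n = 0`, that is, `A` lies in the variety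
`S(n)`. -/
def InS (n : ℕ) (A : Type*) [NonUnitalRing A] : Prop :=
  ∀ y : Fin n → A,
    ∑ σ : Equiv.Perm (Fin n), Equiv.Perm.sign σ • nprod (List.ofFn fun i => y (σ i)) = 0

/-! ### lemmas -/

theorem wval_monoid {B : Type*} [Monoid B] (v : ℕ → B) (w : Word) :
    wval v w = v w.1 * (w.2.map v).prod := by
  unfold wval
  rw [List.prod_eq_foldr, List.foldr_map]
  obtain ⟨a, l⟩ := w
  simp only
  generalize v a = b
  induction l generalizing b with
  | nil => simp
  | cons c l ih =>
    rw [List.foldl_cons, ih, List.foldr_cons, mul_assoc]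

theorem nprod_monoid {B : Type*} [Ring B] {l : List B} (h : l ≠ []) : nprod l = l.prod := by
  cases l with
  | nil => exact absurd rfl h
  | cons a l =>
    rw [List.prod_cons]
    change l.foldl (· * ·) a = a * l.prod
    clear h
    induction l generalizing a with
    | nil => simp
    | cons c l ih => rw [List.foldl_cons, ih, List.prod_cons, mul_assoc]

section map

variable {F : Type*} [Field F] {A B : Type*} [NonUnitalRing A] [Module F A] [NonUnitalRing B]
  [Module F B]

theorem map_wval (φ : A →ₙₐ[F] B) (v : ℕ → A) (w : Word) :
    φ (wval v w) = wval (fun i => φ (v i)) w := by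
  obtain ⟨a, l⟩ := w
  unfold wval
  simp only
  generalize v a = b
  have : ∀ b' : B, φ b = b' → φ (l.foldl (fun a i => a * v i) b)
      = l.foldl (fun a i => a * φ (v i)) b' := by
    induction l generalizing b with
    | nil => intro b' h; simpa using h
    | cons c l ih =>
      intro b' h
      rw [List.foldl_cons, List.foldl_cons]
      exact ih _ _ (by rw [map_mul, h])
  generalize hb : φ b = b'
  exact this b' hb

theorem map_pval (φ : A →ₙₐ[F] B) (v : ℕ → A) (p : NPoly F) :
    φ (pval v p) = pval (fun i => φ (v i)) p := by
  unfold pval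
  rw [map_list_sum, List.map_map]
  congr 1
  refine List.map_congr_left fun t _ => ?_
  simp [map_smul, map_wval]

end map

/-- the word of a list -/
def w (l : List ℕ) : Word := (l.headD 0, l.tail)

/-- `l - l'` -/
def bin (l l' : List ℕ) : NPoly (Bool × ℕ × ℕ) := [((true, 1, 0), w l), ((false, 1, 0), w l')]

/-- `l` -/
def mon (l : List ℕ) : NPoly (Bool × ℕ × ℕ) := [((true, 1, 0), w l)]

theorem wval_w {B : Type*} [Monoid B] (v : ℕ → B) {l : List ℕ} (h : l ≠ []) :
    wval v (w l) = (l.map v).prod := by
  rw [wval_monoid]
  cases l with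
  | nil => exact absurd rfl h
  | cons a l => simp [w]

section
variable {F : Type*} [Field F] {A B : Type*} [NonUnitalRing A] [Module F A] [Ring B] [Algebra F B]

theorem pval_bin (v : ℕ → B) {l l' : List ℕ} (h : l ≠ []) (h' : l' ≠ []) :
    pval v (toF F (bin l l')) = (l.map v).prod - (l'.map v).prod := by
  simp only [pval, toF, bin, cval, List.map_cons, List.map_nil, List.sum_cons, List.sum_nil,
    wval_w v h, wval_w v h']
  simp [sub_eq_add_neg]

theorem pval_mon (v : ℕ → B) {l : List ℕ} (h : l ≠ []) :
    pval v (toF F (mon l)) = (l.map v).prod := by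
  simp only [pval, toF, mon, cval, List.map_cons, List.map_nil, List.sum_cons, List.sum_nil,
    wval_w v h]
  simp

end

end Pool.Agent.H358R3.EqP
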