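import Mathlib
import Pool.Agent.H358R3.EqDefs
import Pool.Agent.Helper707.Rel

/-!
The relations attached to a generalised Collatz map, and the derivation of the word of a halting
number; also: the identities of `M_n(F)`, `n ≥ 3`, hold in `3 × 3` matrices over commutative
algebras.
-/

namespace Pool.Agent.H358R3.EqP

open Pool.Agent.Helper707.Rel

theorem derive {B : Type*} [Ring B] (Y : Sys) (s x z u T : B) (Tb : ℕ → B)
    (hm : 0 < Y.m)
    (h1 : x ^ Y.m * T = T * z) (h2 : ∀ b < Y.m, x ^ (Y.a b) * Tb b = Tb b * z)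
    (h3 : ∀ b < Y.m, Tb b * u = T * u)
    (h4 : ∀ b < Y.m, Y.H b = true → s * x ^ b * T = 0)
    (h5 : ∀ b < Y.m, Y.H b = false → s * x ^ b * T = s * x ^ (Y.e b) * Tb b) (N : ℕ)
    (hN : Y.Halts N) : s * x ^ N * T * u = 0 := by
  have h1' : ∀ k, x ^ (Y.m * k) * T = T * z ^ k := by
    intro k
    induction k with
    | zero => simp
    | succ k ih =>
      rw [Nat.mul_succ, add_comm, pow_add, mul_assoc, ih, ← mul_assoc, h1, mul_assoc, ← pow_succ']
  have h2' : ∀ b < Y.m, ∀ k, x ^ (Y.a b * k) * Tb b = Tb b * z ^ k := by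
    intro b hb k
    induction k with
    | zero => simp
    | succ k ih =>
      rw [Nat.mul_succ, add_comm, pow_add, mul_assoc, ih, ← mul_assoc, h2 b hb, mul_assoc,
        ← pow_succ']
  have key : ∀ N, s * x ^ N * T * u = s * x ^ (N % Y.m) * T * (z ^ (N / Y.m) * u) := by
    intro N
    conv_lhs => rw [← Nat.mod_add_div N Y.m, pow_add]
    rw [← mul_assoc s, mul_assoc _ (x ^ (Y.m * (N / Y.m))) T, h1']
    simp only [mul_assoc]
  induction hN with
  | halt N h =>
    rw [key, h4 _ (Nat.mod_lt _ hm) h, zero_mul]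
  | step N h _ ih =>
    rw [key, h5 _ (Nat.mod_lt _ hm) h]
    have hb := Nat.mod_lt N hm
    calc s * x ^ Y.e (N % Y.m) * Tb (N % Y.m) * (z ^ (N / Y.m) * u)
        = s * x ^ Y.e (N % Y.m) * (Tb (N % Y.m) * z ^ (N / Y.m)) * u := by
          simp only [mul_assoc]
      _ = s * x ^ Y.e (N % Y.m) * (x ^ (Y.a (N % Y.m) * (N / Y.m)) * Tb (N % Y.m)) * u := by
          rw [h2' _ hb]
      _ = s * (x ^ Y.e (N % Y.m) * x ^ (Y.a (N % Y.m) * (N / Y.m))) * (Tb (N % Y.m) * u) := by
          simp only [mul_assoc]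
      _ = s * x ^ (Y.next N) * (T * u) := by
          rw [h3 _ hb, ← pow_add, add_comm]; rfl
      _ = s * x ^ (Y.next N) * T * u := by simp only [mul_assoc]
      _ = 0 := ih

/-! letters: `0 = s`, `1 = x`, `2 = z`, `3 = u`, `4 = T`, `5 + b = T_b` -/

/-- the relations for the residue `b` -/
def relb (Y : Sys) (b : ℕ) : List (NPoly (Bool × ℕ × ℕ)) :=
  [bin (List.replicate (Y.a b) 1 ++ [5 + b]) [5 + b, 2],
   bin [5 + b, 3] [4, 3],
   if Y.H b then mon (0 :: (List.replicate b 1 ++ [4]))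
    else bin (0 :: (List.replicate b 1 ++ [4])) (0 :: (List.replicate (Y.e b) 1 ++ [5 + b]))]

/-- the relations -/
def rels (Y : Sys) : List (NPoly (Bool × ℕ × ℕ)) :=
  bin (List.replicate Y.m 1 ++ [4]) [4, 2] :: (List.range Y.m).flatMap (relb Y)

/-- the target word `s x^N T u` -/
def target (N : ℕ) : NPoly (Bool × ℕ × ℕ) := mon (0 :: (List.replicate N 1 ++ [4, 3]))

section
variable {F : Type*} [Field F]

/-- the relations in a unital algebra -/
theorem rels_iff {B : Type*} [Ring B] [Algebra F B] (Y : Sys) (v : ℕ → B) :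
    (∀ p ∈ rels Y, pval v (toF F p) = 0) ↔
      (v 1 ^ Y.m * v 4 = v 4 * v 2 ∧ ∀ b < Y.m, v 1 ^ (Y.a b) * v (5 + b) = v (5 + b) * v 2 ∧
        v (5 + b) * v 3 = v 4 * v 3 ∧ (Y.H b = true → v 0 * v 1 ^ b * v 4 = 0) ∧
        (Y.H b = false → v 0 * v 1 ^ b * v 4 = v 0 * v 1 ^ (Y.e b) * v (5 + b))) := by
  have key : ∀ b, (∀ p ∈ relb Y b, pval v (toF F p) = 0) ↔
      (v 1 ^ (Y.a b) * v (5 + b) = v (5 + b) * v 2 ∧
        v (5 + b) * v 3 = v 4 * v 3 ∧ (Y.H b = true → v 0 * v 1 ^ b * v 4 = 0) ∧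
        (Y.H b = false → v 0 * v 1 ^ b * v 4 = v 0 * v 1 ^ (Y.e b) * v (5 + b))) := by
    intro b
    unfold relb
    rw [List.forall_mem_cons, List.forall_mem_cons, List.forall_mem_cons]
    rw [pval_bin v (by simp) (by simp), pval_bin v (by simp) (by simp), sub_eq_zero, sub_eq_zero]
    cases hH : Y.H b
    · simp only [Bool.false_eq_true, if_false]
      rw [pval_bin v (by simp) (by simp), sub_eq_zero]
      simp [mul_assoc]
    · simp only [if_true]
      rw [pval_mon v (by simp)]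
      simp [mul_assoc]
  unfold rels
  rw [List.forall_mem_cons, pval_bin v (by simp) (by simp), sub_eq_zero]
  constructor
  · rintro ⟨h1, h2⟩
    refine ⟨by simpa using h1, fun b hb => (key b).1 fun p hp => h2 p ?_⟩
    rw [List.mem_flatMap]
    exact ⟨b, List.mem_range.2 hb, hp⟩
  · rintro ⟨h1, h2⟩
    refine ⟨by simpa using h1, fun p hp => ?_⟩
    rw [List.mem_flatMap] at hp
    obtain ⟨b, hb, hp⟩ := hp
    exact (key b).2 (h2 b (List.mem_range.1 hb)) p hp

theorem target_val {B : Type*} [Ring B] [Algebra F B] (N : ℕ) (v : ℕ → B) :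
    pval v (toF F (target N)) = v 0 * v 1 ^ N * v 4 * v 3 := by
  unfold target
  rw [pval_mon v (by simp)]
  simp [mul_assoc]

/-- the quasi-identity of a halting number holds in every algebra -/
theorem holds_of_halts {Y : Sys} (hm : 0 < Y.m) {N : ℕ} (hN : Y.Halts N) (A : Type*)
    [NonUnitalRing A] [Module F A] [IsScalarTower F A A] [SMulCommClass F A A] :
    Holds F A (rels Y, target N) := by
  intro v hv
  have hinj := Unitization.inr_injective (R := F) (A := A)
  have hmap : ∀ p : NPoly F, Unitization.inrNonUnitalAlgHom F A (pval v p)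
      = pval (fun i => Unitization.inrNonUnitalAlgHom F A (v i)) p := fun p => map_pval _ v p
  have h1 : ∀ p ∈ rels Y,
      pval (fun i => Unitization.inrNonUnitalAlgHom F A (v i)) (toF F p) = 0 := by
    intro p hp
    rw [← hmap, hv p hp, map_zero]
  rw [rels_iff] at h1
  apply hinj
  have h2 := hmap (toF F (target N))
  change Unitization.inrNonUnitalAlgHom F A (pval v (toF F (target N)))
    = Unitization.inrNonUnitalAlgHom F A 0
  rw [h2, target_val, map_zero]
  refine derive Y _ _ (Unitization.inrNonUnitalAlgHom F A (v 2)) _ _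
    (fun b => Unitization.inrNonUnitalAlgHom F A (v (5 + b))) hm h1.1
    (fun b hb => (h1.2 b hb).1) (fun b hb => (h1.2 b hb).2.1)
    (fun b hb => (h1.2 b hb).2.2.1) (fun b hb => (h1.2 b hb).2.2.2) N hN

end

section ident
variable {F : Type*} [Field F]

/-- a polynomial identity of `M_n(F)` holds in `M_n(C)` for each commutative algebra `C` -/
theorem ident_comm [Infinite F] {n : ℕ} {p : NPoly F}
    (hp : ∀ v : ℕ → Matrix (Fin n) (Fin n) F, pval v p = 0)
    {C : Type*} [CommRing C] [Algebra F C] (A : ℕ → Matrix (Fin n) (Fin n) C) : pval A p = 0 := by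
  let Gm : ℕ → Matrix (Fin n) (Fin n) (MvPolynomial (ℕ × Fin n × Fin n) F) :=
    fun i => Matrix.of fun a b => MvPolynomial.X (i, a, b)
  have hQ : pval Gm p = 0 := by
    ext1 a b
    apply MvPolynomial.funext
    intro v
    have h1 := map_pval (((MvPolynomial.aeval v : MvPolynomial (ℕ × Fin n × Fin n) F →ₐ[F]
      F).mapMatrix : Matrix (Fin n) (Fin n) _ →ₐ[F] Matrix (Fin n) (Fin n) F) :
      Matrix (Fin n) (Fin n) _ →ₙₐ[F] Matrix (Fin n) (Fin n) F) Gm p
    rw [hp] at h1
    have h2 := congrFun (congrFun h1 a) b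
    rw [Matrix.zero_apply] at h2 ⊢
    rw [map_zero, ← h2]
    rfl
  have h3 := map_pval (((MvPolynomial.aeval (fun t : ℕ × Fin n × Fin n =>
    A t.1 t.2.1 t.2.2) : MvPolynomial (ℕ × Fin n × Fin n) F →ₐ[F] C).mapMatrix :
      Matrix (Fin n) (Fin n) _ →ₐ[F] Matrix (Fin n) (Fin n) C) :
      Matrix (Fin n) (Fin n) _ →ₙₐ[F] Matrix (Fin n) (Fin n) C) Gm p
  rw [hQ, map_zero] at h3
  rw [h3]
  congr 1
  funext i
  ext a b
  change A i a b = MvPolynomial.aeval (fun t : ℕ × Fin n × Fin n => A t.1 t.2.1 t.2.2)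
    (MvPolynomial.X (i, a, b) : MvPolynomial (ℕ × Fin n × Fin n) F)
  simp

/-- the corner embedding -/
def corner (F : Type*) [Field F] (C : Type*) [CommRing C] [Algebra F C] (k m : ℕ) :
    Matrix (Fin k) (Fin k) C →ₙₐ[F] Matrix (Fin k ⊕ Fin m) (Fin k ⊕ Fin m) C where
  toFun M := Matrix.fromBlocks M 0 0 0
  map_smul' r M := by
    simp [Matrix.fromBlocks_smul]
  map_zero' := by simp
  map_add' M N := by simp [Matrix.fromBlocks_add]
  map_mul' M N := by simp [Matrix.fromBlocks_multiply]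

/-- a polynomial identity of `M_n(F)` holds in `M_k(C)` for `k ≤ n` -/
theorem ident_le [Infinite F] {k n : ℕ} (hk : k ≤ n) {p : NPoly F}
    (hp : ∀ v : ℕ → Matrix (Fin n) (Fin n) F, pval v p = 0)
    {C : Type*} [CommRing C] [Algebra F C] (A : ℕ → Matrix (Fin k) (Fin k) C) : pval A p = 0 := by
  obtain ⟨m, rfl⟩ := Nat.exists_eq_add_of_le hk
  have h1 := map_pval (corner F C k m) A p
  have h2 := map_pval ((Matrix.reindexAlgEquiv F C (finSumFinEquiv (m := k) (n := m)) :
    Matrix (Fin k ⊕ Fin m) (Fin k ⊕ Fin m) C ≃ₐ[F] Matrix (Fin (k + m)) (Fin (k + m)) C) :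
    Matrix (Fin k ⊕ Fin m) (Fin k ⊕ Fin m) C →ₙₐ[F] Matrix (Fin (k + m)) (Fin (k + m)) C)
    (fun i => corner F C k m (A i)) p
  rw [ident_comm hp] at h2
  have h3 : pval (fun i => corner F C k m (A i)) p = 0 := by
    apply (Matrix.reindexAlgEquiv F C (finSumFinEquiv (m := k) (n := m))).injective
    rw [map_zero]
    exact h2
  rw [h3] at h1
  have h4 := congrArg Matrix.toBlocks₁₁ h1
  change Matrix.toBlocks₁₁ (Matrix.fromBlocks (pval A p) 0 0 0) = _ at h4
  rw [Matrix.toBlocks_fromBlocks₁₁] at h4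
  rw [h4]
  rfl

end ident

end Pool.Agent.H358R3.EqP
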