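import Mathlib
import Pool.Agent.H358R3.EqDerive
import Pool.Agent.H358R3.EqTri

/-!
The model: for a number which does not halt, an algebra satisfying the identities of `M_n(F)`,
`n ≥ 3`, and the standard identities `s_n`, `n ≥ 6`, in which the quasi-identity fails.
-/

universe u

namespace Pool.Agent.H358R3.EqP

open Polynomial Pool.Agent.Helper707.Rel

section model

variable (F : Type u) [Field F] (Y : Sys)

/-- coefficient ring -/
abbrev R0 (F : Type u) [Field F] (m : ℕ) := Fin (m + 1) → F[X]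

/-- exponents -/
def cexp (j : Fin (Y.m + 1)) : ℕ := if (j : ℕ) = 0 then Y.m else Y.a (j - 1)

noncomputable def Xv : R0 F Y.m := fun _ => X

noncomputable def Zv : R0 F Y.m := fun j => X ^ cexp Y j

noncomputable def ev (i : ℕ) : R0 F Y.m := fun j => if (j : ℕ) = i then 1 else 0

noncomputable def L4 : ℕ → Matrix (Fin 4) (Fin 4) (R0 F Y.m)
  | 0 => Matrix.single 0 1 1
  | 1 => Matrix.single 1 1 (Xv F Y)
  | 2 => Matrix.single 2 2 (Zv F Y)
  | 3 => Matrix.single 2 3 1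
  | k + 4 => Matrix.single 1 2 (ev F Y k)

noncomputable def L3 : ℕ → Matrix (Fin 3) (Fin 3) (R0 F Y.m)[X]
  | 0 => Matrix.single 0 1 1
  | 1 => Matrix.single 1 1 (C (Xv F Y))
  | 2 => Matrix.single 2 2 (C (Zv F Y))
  | 3 => Matrix.single 2 0 X
  | k + 4 => Matrix.single 1 2 (C (ev F Y k))

noncomputable def r4 : FreeAlgebra F ℕ →ₐ[F] Matrix (Fin 4) (Fin 4) (R0 F Y.m) :=
  FreeAlgebra.lift F (L4 F Y)

noncomputable def r3 : FreeAlgebra F ℕ →ₐ[F] Matrix (Fin 3) (Fin 3) (R0 F Y.m)[X] :=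
  FreeAlgebra.lift F (L3 F Y)

variable {F Y}

/-- the pattern -/
structure Pt (M : Matrix (Fin 3) (Fin 3) (R0 F Y.m)[X]) (N : Matrix (Fin 4) (Fin 4) (R0 F Y.m)) :
    Prop where
  a10 : (M 1 0).coeff 0 = 0
  a20 : (M 2 0).coeff 0 = 0
  a21 : (M 2 1).coeff 0 = 0
  a00 : (M 0 0).coeff 0 = N 0 0
  b00 : (M 0 0).coeff 1 = N 0 3
  b10 : (M 1 0).coeff 1 = N 1 3
  b20 : (M 2 0).coeff 1 = N 2 3
  a01 : (M 0 1).coeff 0 = N 0 1
  a02 : (M 0 2).coeff 0 = N 0 2
  a11 : (M 1 1).coeff 0 = N 1 1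
  a12 : (M 1 2).coeff 0 = N 1 2
  a22 : (M 2 2).coeff 0 = N 2 2
  e33 : N 3 3 = N 0 0
  l10 : N 1 0 = 0
  l20 : N 2 0 = 0
  l21 : N 2 1 = 0
  l30 : N 3 0 = 0
  l31 : N 3 1 = 0
  l32 : N 3 2 = 0
  s00 : ∃ α : F, N 0 0 = algebraMap F _ α
  d01 : ∃ f : F[X], N 0 1 = algebraMap F[X] _ f
  d11 : ∃ f : F[X], N 1 1 = algebraMap F[X] _ f
  g22 : ∃ g : F[X], N 2 2 = aeval (Zv F Y) g
  g23 : ∃ g : F[X], N 2 3 = aeval (Zv F Y) g

theorem algMap_eq (α : F) : algebraMap F (R0 F Y.m) α = algebraMap F[X] (R0 F Y.m) (C α) := rfl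

theorem algMap_eq' (α : F) : algebraMap F (R0 F Y.m) α = aeval (Zv F Y) (C α) := by
  rw [aeval_C]

theorem Pt.mul {M M' : Matrix (Fin 3) (Fin 3) (R0 F Y.m)[X]}
    {N N' : Matrix (Fin 4) (Fin 4) (R0 F Y.m)} (h : Pt (Y := Y) M N) (h' : Pt (Y := Y) M' N') :
    Pt (Y := Y) (M * M') (N * N') := by
  have e3 : ∀ i j, (M * M') i j = M i 0 * M' 0 j + M i 1 * M' 1 j + M i 2 * M' 2 j := by
    intro i j
    rw [Matrix.mul_apply, Fin.sum_univ_three]
  have e4 : ∀ i j, (N * N') i j = N i 0 * N' 0 j + N i 1 * N' 1 j + N i 2 * N' 2 j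
      + N i 3 * N' 3 j := by
    intro i j
    rw [Matrix.mul_apply, Fin.sum_univ_four]
  obtain ⟨α, hα⟩ := h.s00
  obtain ⟨α', hα'⟩ := h'.s00
  obtain ⟨f, hf⟩ := h.d01
  obtain ⟨f', hf'⟩ := h'.d01
  obtain ⟨f1, hf1⟩ := h.d11
  obtain ⟨f1', hf1'⟩ := h'.d11
  obtain ⟨g, hg⟩ := h.g22
  obtain ⟨g', hg'⟩ := h'.g22
  obtain ⟨g1, hg1⟩ := h.g23
  obtain ⟨g1', hg1'⟩ := h'.g23
  constructor
  · simp [e3, mul_coeff_zero, h.a10, h'.a10, h'.a20]
  · simp [e3, mul_coeff_zero, h.a20, h.a21, h'.a20]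
  · simp [e3, mul_coeff_zero, h.a20, h.a21, h'.a21]
  · simp [e3, e4, mul_coeff_zero, h.a00, h'.a00, h'.a10, h'.a20, h'.l10, h'.l20, h'.l30]
  · simp only [e3, e4, coeff_add, mul_coeff_one, h.a00, h.b00, h'.a00, h'.b00, h'.a10, h'.b10,
      h'.a20, h'.b20, h.a01, h.a02, h'.e33, mul_zero, add_zero]
    ring
  · simp only [e3, e4, coeff_add, mul_coeff_one, h.a10, h.b10, h'.a00, h'.b00, h'.a10, h'.b10,
      h'.a20, h'.b20, h.a11, h.a12, h'.e33, h.l10, mul_zero, add_zero, zero_mul]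
    ring
  · simp only [e3, e4, coeff_add, mul_coeff_one, h.a20, h.b20, h'.a00, h'.b00, h'.a10, h'.b10,
      h'.a20, h'.b20, h.a21, h.a22, h'.e33, h.l20, h.l21, mul_zero, add_zero, zero_mul]
    ring
  · simp [e3, e4, mul_coeff_zero, h.a00, h'.a01, h.a01, h'.a11, h'.a21, h'.l21, h'.l31]
  · simp [e3, e4, mul_coeff_zero, h.a00, h'.a02, h.a01, h'.a12, h.a02, h'.a22, h'.l32]
  · simp [e3, e4, mul_coeff_zero, h.a10, h.l10, h.a11, h'.a11, h'.a21, h'.l21, h'.l31]
  · simp [e3, e4, mul_coeff_zero, h.a10, h.l10, h.a11, h'.a12, h.a12, h'.a22, h'.l32]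
  · simp [e3, e4, mul_coeff_zero, h.a20, h.l20, h.a21, h.l21, h.a22, h'.a22, h'.l32]
  · simp [e4, h.l30, h.l31, h.l32, h.e33, h'.e33, h'.l10, h'.l20, h'.l30]
  · simp [e4, h.l10, h'.l10, h'.l20, h'.l30]
  · simp [e4, h.l20, h.l21, h'.l20, h'.l30]
  · simp [e4, h.l20, h.l21, h'.l21, h'.l31]
  · simp [e4, h.l30, h.l31, h.l32, h'.l30]
  · simp [e4, h.l30, h.l31, h.l32, h'.l31]
  · simp [e4, h.l30, h.l31, h.l32, h'.l32]
  · exact ⟨α * α', by simp [e4, h'.l10, h'.l20, h'.l30, hα, hα']⟩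
  · refine ⟨C α * f' + f * f1', ?_⟩
    rw [e4, h'.l21, h'.l31, hα, hf, hf', hf1', algMap_eq]
    simp
  · refine ⟨f1 * f1', ?_⟩
    rw [e4, h.l10, h'.l21, h'.l31, hf1, hf1']
    simp
  · refine ⟨g * g', ?_⟩
    rw [e4, h.l20, h.l21, h'.l32, hg, hg']
    simp
  · refine ⟨g * g1' + g1 * C α', ?_⟩
    rw [e4, h.l20, h.l21, h'.e33, hα', hg, hg1, hg1', algMap_eq']
    simp

theorem Pt.add {M M' : Matrix (Fin 3) (Fin 3) (R0 F Y.m)[X]}
    {N N' : Matrix (Fin 4) (Fin 4) (R0 F Y.m)} (h : Pt (Y := Y) M N) (h' : Pt (Y := Y) M' N') :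
    Pt (Y := Y) (M + M') (N + N') := by
  obtain ⟨α, hα⟩ := h.s00
  obtain ⟨α', hα'⟩ := h'.s00
  obtain ⟨f, hf⟩ := h.d01
  obtain ⟨f', hf'⟩ := h'.d01
  obtain ⟨f1, hf1⟩ := h.d11
  obtain ⟨f1', hf1'⟩ := h'.d11
  obtain ⟨g, hg⟩ := h.g22
  obtain ⟨g', hg'⟩ := h'.g22
  obtain ⟨g1, hg1⟩ := h.g23
  obtain ⟨g1', hg1'⟩ := h'.g23
  constructor
  · simp [h.a10, h'.a10]
  · simp [h.a20, h'.a20]
  · simp [h.a21, h'.a21]
  · simp [h.a00, h'.a00]
  · simp [h.b00, h'.b00]
  · simp [h.b10, h'.b10]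
  · simp [h.b20, h'.b20]
  · simp [h.a01, h'.a01]
  · simp [h.a02, h'.a02]
  · simp [h.a11, h'.a11]
  · simp [h.a12, h'.a12]
  · simp [h.a22, h'.a22]
  · simp [h.e33, h'.e33]
  · simp [h.l10, h'.l10]
  · simp [h.l20, h'.l20]
  · simp [h.l21, h'.l21]
  · simp [h.l30, h'.l30]
  · simp [h.l31, h'.l31]
  · simp [h.l32, h'.l32]
  · exact ⟨α + α', by simp [hα, hα']⟩
  · exact ⟨f + f', by simp [hf, hf']⟩
  · exact ⟨f1 + f1', by simp [hf1, hf1']⟩
  · exact ⟨g + g', by simp [hg, hg']⟩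
  · exact ⟨g1 + g1', by simp [hg1, hg1']⟩

theorem Pt.algMap (r : F) : Pt (Y := Y) (algebraMap F (Matrix (Fin 3) (Fin 3) (R0 F Y.m)[X]) r)
    (algebraMap F (Matrix (Fin 4) (Fin 4) (R0 F Y.m)) r) := by
  have e3 : ∀ i j, (algebraMap F (Matrix (Fin 3) (Fin 3) (R0 F Y.m)[X]) r) i j
      = if i = j then C (algebraMap F (R0 F Y.m) r) else 0 := by
    intro i j
    rw [Matrix.algebraMap_matrix_apply]
    rfl
  have e4 : ∀ i j, (algebraMap F (Matrix (Fin 4) (Fin 4) (R0 F Y.m)) r) i j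
      = if i = j then algebraMap F (R0 F Y.m) r else 0 := by
    intro i j
    rw [Matrix.algebraMap_matrix_apply]
  refine ⟨?_, ?_, ?_, ?_, ?_, ?_, ?_, ?_, ?_, ?_, ?_, ?_, ?_, ?_, ?_, ?_, ?_, ?_, ?_,
    ⟨r, by simp [e4]⟩, ⟨0, by simp [e4]⟩, ⟨C r, ?_⟩, ⟨C r, ?_⟩, ⟨0, by simp [e4]⟩⟩
  all_goals try (simp [e3, e4]; done)
  · rw [e4, if_pos rfl]; rfl

theorem Pt.letter (k : ℕ) : Pt (Y := Y) (L3 F Y k) (L4 F Y k) := by
  match k with
  | 0 =>
    constructor
    all_goals try (simp [L3, L4])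
    · exact ⟨0, by simp⟩
    · exact ⟨1, by simp⟩
    · exact ⟨0, by simp⟩
    · exact ⟨0, by simp⟩
    · exact ⟨0, by simp⟩
  | 1 =>
    constructor
    all_goals try (simp [L3, L4])
    · exact ⟨0, by simp⟩
    · exact ⟨0, by simp⟩
    · exact ⟨X, rfl⟩
    · exact ⟨0, by simp⟩
    · exact ⟨0, by simp⟩
  | 2 =>
    constructor
    all_goals try (simp [L3, L4])
    · exact ⟨0, by simp⟩
    · exact ⟨0, by simp⟩
    · exact ⟨0, by simp⟩
    · exact ⟨X, by simp⟩
    · exact ⟨0, by simp⟩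
  | 3 =>
    constructor
    all_goals try (simp [L3, L4])
    · exact ⟨0, by simp⟩
    · exact ⟨0, by simp⟩
    · exact ⟨0, by simp⟩
    · exact ⟨0, by simp⟩
    · exact ⟨1, by simp⟩
  | k + 4 =>
    constructor
    all_goals try (simp [L3, L4])
    · exact ⟨0, by simp⟩
    · exact ⟨0, by simp⟩
    · exact ⟨0, by simp⟩
    · exact ⟨0, by simp⟩
    · exact ⟨0, by simp⟩

theorem pt_all (f : FreeAlgebra F ℕ) : Pt (Y := Y) (r3 F Y f) (r4 F Y f) := by
  induction f using FreeAlgebra.induction with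
  | grade0 r => rw [AlgHom.commutes, AlgHom.commutes]; exact Pt.algMap r
  | grade1 k =>
    unfold r3 r4
    rw [FreeAlgebra.lift_ι_apply, FreeAlgebra.lift_ι_apply]
    exact Pt.letter k
  | mul a b ha hb => rw [map_mul, map_mul]; exact ha.mul hb
  | add a b ha hb => rw [map_add, map_add]; exact ha.add hb

theorem tri_all (f : FreeAlgebra F ℕ) : EqTri.Tri (r4 F Y f) := by
  have h := pt_all (Y := Y) f
  refine ⟨?_, h.e33.symm⟩
  intro i j hij
  fin_cases i <;> fin_cases j <;> simp at hij ⊢ <;>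
    first
    | exact h.l10
    | exact h.l20
    | exact h.l21
    | exact h.l30
    | exact h.l31
    | exact h.l32


/-! ### the functional -/

/-- the functional `X^i ↦ χ i` -/
noncomputable def lam (χ : ℕ → F) : F[X] →ₗ[F] F :=
  Polynomial.lsum fun i => χ i • (LinearMap.id : F →ₗ[F] F)

theorem lam_monomial (χ : ℕ → F) (i : ℕ) (a : F) : lam χ (monomial i a) = χ i * a := by
  unfold lam
  rw [Polynomial.lsum_apply, Polynomial.sum_monomial_index] <;> simp

theorem lam_C_mul_X (χ : ℕ → F) (i : ℕ) (a : F) : lam χ (C a * X ^ i) = χ i * a := by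
  rw [C_mul_X_pow_eq_monomial, lam_monomial]

/-- sum of the functional over all coordinates -/
noncomputable def Lam (χ : ℕ → F) : R0 F Y.m →ₗ[F] F :=
  ∑ j, (lam χ).comp (LinearMap.proj j)

theorem Lam_apply (χ : ℕ → F) (r : R0 F Y.m) : Lam (Y := Y) χ r = ∑ j, lam χ (r j) := by
  simp [Lam, LinearMap.sum_apply]

theorem Lam_ev (χ : ℕ → F) (p : R0 F Y.m) (k : Fin (Y.m + 1)) :
    Lam (Y := Y) χ (p * ev F Y k) = lam χ (p k) := by
  rw [Lam_apply, Finset.sum_eq_single k]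
  · simp [ev]
  · intro j _ hj
    have : (j : ℕ) ≠ k := fun h => hj (Fin.ext h)
    simp [ev, this]
  · simp

/-- the functional on the free algebra -/
noncomputable def Lm (χ : ℕ → F) (f : FreeAlgebra F ℕ) : F := Lam (Y := Y) χ (r4 F Y f 0 3)

theorem Lm_add (χ : ℕ → F) (f g : FreeAlgebra F ℕ) :
    Lm (Y := Y) χ (f + g) = Lm (Y := Y) χ f + Lm (Y := Y) χ g := by
  unfold Lm
  rw [map_add, Matrix.add_apply, map_add]

theorem Lm_zero (χ : ℕ → F) : Lm (Y := Y) χ 0 = 0 := by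
  unfold Lm
  rw [map_zero, Matrix.zero_apply, map_zero]

variable (F Y) in
/-- the syntactic ideal -/
noncomputable def J (χ : ℕ → F) : Ideal (FreeAlgebra F ℕ) where
  carrier := {f | ∀ g h, Lm (Y := Y) χ (g * f * h) = 0}
  add_mem' {a b} ha hb g h := by
    rw [mul_add, add_mul, Lm_add, ha, hb, add_zero]
  zero_mem' g h := by
    rw [mul_zero, zero_mul, Lm_zero]
  smul_mem' c {a} ha g h := by
    rw [smul_eq_mul, ← mul_assoc]
    exact ha _ _

instance (χ : ℕ → F) : (J F Y χ).IsTwoSided :=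
  ⟨fun {a} b ha g h => by
    have := ha g (b * h)
    rwa [← mul_assoc, mul_assoc g a b] at this⟩

theorem mem_J {χ : ℕ → F} {f : FreeAlgebra F ℕ} :
    f ∈ J F Y χ ↔ ∀ g h, Lm (Y := Y) χ (g * f * h) = 0 := Iff.rfl

/-- elements vanishing under the first representation -/
theorem mem_J_of_r3 {χ : ℕ → F} {f : FreeAlgebra F ℕ} (h : r3 F Y f = 0) : f ∈ J F Y χ := by
  intro g k
  have h1 := (pt_all (Y := Y) (g * f * k)).b00
  unfold Lm
  rw [← h1, map_mul, map_mul, h]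
  simp

/-- elements vanishing under the second representation -/
theorem mem_J_of_r4 {χ : ℕ → F} {f : FreeAlgebra F ℕ} (h : r4 F Y f = 0) : f ∈ J F Y χ := by
  intro g k
  unfold Lm
  rw [map_mul, map_mul, h]
  simp

theorem sg_sub {R : Type*} [CommRing R] (i j : Fin 4) (a b : R) :
    Matrix.single i j a - Matrix.single i j b = Matrix.single i j (a - b) := by
  rw [sub_eq_add_neg, sub_eq_add_neg, Matrix.single_add]
  congr 1
  ext p q
  simp only [Matrix.neg_apply, Matrix.single_apply]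
  split_ifs <;> simp

theorem sandwich {R : Type*} [CommRing R] (G H : Matrix (Fin 4) (Fin 4) R) (i j : Fin 4) (D : R)
    (a b : Fin 4) : (G * Matrix.single i j D * H) a b = G a i * D * H j b := by
  rw [Matrix.mul_apply, Finset.sum_eq_single j]
  · rw [Matrix.mul_apply, Finset.sum_eq_single i]
    · simp
    · intro k _ hk
      simp [hk.symm]
    · simp
  · intro k _ hk
    rw [Matrix.mul_apply]
    simp [hk.symm]
  · simp

/-- the letters -/
noncomputable abbrev l (k : ℕ) : FreeAlgebra F ℕ := FreeAlgebra.ι F k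

theorem r4_l (k : ℕ) : r4 F Y (l k) = L4 F Y k := by
  unfold r4 l
  rw [FreeAlgebra.lift_ι_apply]

theorem r4_xpow (i : ℕ) (D : R0 F Y.m) :
    L4 F Y 1 ^ i * Matrix.single 1 2 D = Matrix.single 1 2 (Xv F Y ^ i * D) := by
  induction i with
  | zero => simp
  | succ i ih =>
    rw [pow_succ', mul_assoc, ih]
    simp only [L4]
    rw [Matrix.single_mul_single_same, pow_succ', mul_assoc]

theorem r4_xT (i k : ℕ) :
    r4 F Y (l 1 ^ i * l (k + 4)) = Matrix.single 1 2 (Xv F Y ^ i * ev F Y k) := by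
  rw [map_mul, map_pow, r4_l, r4_l]
  exact r4_xpow i (ev F Y k)

theorem r4_sxT (i k : ℕ) :
    r4 F Y (l 0 * l 1 ^ i * l (k + 4)) = Matrix.single 0 2 (Xv F Y ^ i * ev F Y k) := by
  rw [mul_assoc, map_mul, r4_xT, r4_l]
  simp only [L4]
  rw [Matrix.single_mul_single_same, one_mul]

theorem r4_Tz (k : ℕ) :
    r4 F Y (l (k + 4) * l 2) = Matrix.single 1 2 (ev F Y k * Zv F Y) := by
  rw [map_mul, r4_l, r4_l]
  simp only [L4]
  rw [Matrix.single_mul_single_same]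

theorem r4_Tu (k : ℕ) :
    r4 F Y (l (k + 4) * l 3) = Matrix.single 1 3 (ev F Y k) := by
  rw [map_mul, r4_l, r4_l]
  simp only [L4]
  rw [Matrix.single_mul_single_same, mul_one]

theorem xz (k : Fin (Y.m + 1)) : Xv F Y ^ cexp Y k * ev F Y k = ev F Y k * Zv F Y := by
  funext j
  by_cases h : (j : ℕ) = k
  · have : j = k := Fin.ext h
    subst this
    simp [Xv, Zv, ev]
  · simp [Xv, Zv, ev, h]

/-- first kind of relations -/
theorem rel_xz (χ : ℕ → F) (k : Fin (Y.m + 1)) :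
    l 1 ^ cexp Y k * l (k + 4) - l (k + 4) * l 2 ∈ J F Y χ := by
  apply mem_J_of_r4
  rw [map_sub, r4_xT, r4_Tz, xz, sub_self]

/-- second kind of relations -/
theorem rel_u (χ : ℕ → F) (k : Fin (Y.m + 1)) :
    l (k + 4) * l 3 - l 4 * l 3 ∈ J F Y χ := by
  intro g h
  have hg := pt_all (Y := Y) g
  have hh := pt_all (Y := Y) h
  obtain ⟨f, hf⟩ := hg.d01
  obtain ⟨α, hα⟩ := hh.s00
  have h0 := r4_Tu (F := F) (Y := Y) 0
  rw [zero_add] at h0
  unfold Lm
  rw [map_mul, map_mul, map_sub, r4_Tu, h0, sg_sub, sandwich, hf, hh.e33, hα]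
  have e : algebraMap F[X] (R0 F Y.m) f * (ev F Y k - ev F Y 0) * algebraMap F (R0 F Y.m) α
      = (algebraMap F[X] (R0 F Y.m) f * algebraMap F (R0 F Y.m) α) * ev F Y k
        - (algebraMap F[X] (R0 F Y.m) f * algebraMap F (R0 F Y.m) α)
          * ev F Y ((0 : Fin (Y.m + 1)) : ℕ) := by
    rw [Fin.val_zero]; ring
  rw [e, map_sub, Lam_ev, Lam_ev]
  simp

theorem aeval_Zv (g : F[X]) (k : Fin (Y.m + 1)) :
    (aeval (Zv F Y) g) k = aeval ((X : F[X]) ^ cexp Y k) g := by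
  have h := Polynomial.aeval_algHom_apply (Pi.evalAlgHom F (fun _ : Fin (Y.m + 1) => F[X]) k)
    (Zv F Y) g
  exact h.symm

theorem third_val (χ : ℕ → F) (i : ℕ) (k : Fin (Y.m + 1)) (α : F) (g : F[X]) :
    Lam (Y := Y) χ (algebraMap F (R0 F Y.m) α * (Xv F Y ^ i * ev F Y k) * aeval (Zv F Y) g)
      = lam χ (C α * X ^ i * aeval ((X : F[X]) ^ cexp Y k) g) := by
  have e : algebraMap F (R0 F Y.m) α * (Xv F Y ^ i * ev F Y k) * aeval (Zv F Y) g
      = (algebraMap F (R0 F Y.m) α * Xv F Y ^ i * aeval (Zv F Y) g) * ev F Y k := by ring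
  rw [e, Lam_ev]
  congr 1
  rw [← aeval_Zv]
  rfl

theorem third_zero (χ : ℕ → F) (i i' c c' : ℕ) (h : ∀ k, χ (i + c * k) = χ (i' + c' * k))
    (α : F) (g : F[X]) : lam χ (C α * X ^ i * aeval ((X : F[X]) ^ c) g)
      = lam χ (C α * X ^ i' * aeval ((X : F[X]) ^ c') g) := by
  induction g using Polynomial.induction_on' with
  | add p q hp hq => rw [map_add, map_add, mul_add, mul_add, map_add, map_add, hp, hq]
  | monomial k a =>
    rw [aeval_monomial, aeval_monomial]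
    have e : ∀ i c : ℕ, (C α * X ^ i * (algebraMap F F[X] a * ((X : F[X]) ^ c) ^ k))
        = C (α * a) * X ^ (i + c * k) := by
      intro i c
      rw [← pow_mul, pow_add, C_mul]
      change C α * X ^ i * (C a * _) = _
      ring
    rw [e, e, lam_C_mul_X, lam_C_mul_X, h]

theorem third_null (χ : ℕ → F) (i c : ℕ) (h : ∀ k, χ (i + c * k) = 0)
    (α : F) (g : F[X]) : lam χ (C α * X ^ i * aeval ((X : F[X]) ^ c) g) = 0 := by
  induction g using Polynomial.induction_on' with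
  | add p q hp hq => rw [map_add, mul_add, map_add, hp, hq, add_zero]
  | monomial k a =>
    rw [aeval_monomial]
    have e : (C α * X ^ i * (algebraMap F F[X] a * ((X : F[X]) ^ c) ^ k))
        = C (α * a) * X ^ (i + c * k) := by
      rw [← pow_mul, pow_add, C_mul]
      change C α * X ^ i * (C a * _) = _
      ring
    rw [e, lam_C_mul_X, h, zero_mul]

/-- third kind of relations -/
theorem rel_s (χ : ℕ → F) (i i' : ℕ) (k k' : Fin (Y.m + 1))
    (hχ : ∀ n, χ (i + cexp Y k * n) = χ (i' + cexp Y k' * n)) :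
    l 0 * l 1 ^ i * l (k + 4) - l 0 * l 1 ^ i' * l (k' + 4) ∈ J F Y χ := by
  intro g h
  have hg := pt_all (Y := Y) g
  have hh := pt_all (Y := Y) h
  obtain ⟨α, hα⟩ := hg.s00
  obtain ⟨p, hp⟩ := hh.g23
  unfold Lm
  rw [map_mul, map_mul, map_sub, r4_sxT, r4_sxT, sg_sub, sandwich, hα, hp, mul_sub,
    sub_mul, map_sub, third_val, third_val, third_zero χ i i' _ _ hχ, sub_self]

theorem rel_s0 (χ : ℕ → F) (i : ℕ) (k : Fin (Y.m + 1))
    (hχ : ∀ n, χ (i + cexp Y k * n) = 0) :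
    l 0 * l 1 ^ i * l (k + 4) ∈ J F Y χ := by
  intro g h
  have hg := pt_all (Y := Y) g
  have hh := pt_all (Y := Y) h
  obtain ⟨α, hα⟩ := hg.s00
  obtain ⟨p, hp⟩ := hh.g23
  unfold Lm
  rw [map_mul, map_mul, r4_sxT, sandwich, hα, hp, third_val, third_null χ i _ hχ]

theorem not_mem (χ : ℕ → F) (N : ℕ) (h : χ N ≠ 0) :
    l 0 * l 1 ^ N * l 4 * l 3 ∉ J F Y χ := by
  intro hm
  have h1 := hm 1 1
  rw [one_mul, mul_one] at h1
  have h0 := r4_sxT (F := F) (Y := Y) N 0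
  rw [zero_add] at h0
  unfold Lm at h1
  rw [map_mul, h0, r4_l] at h1
  simp only [L4] at h1
  rw [Matrix.single_mul_single_same, mul_one, Matrix.single_apply_same] at h1
  have h2 := Lam_ev (Y := Y) χ (Xv F Y ^ N) 0
  rw [Fin.val_zero] at h2
  rw [h2] at h1
  have h3 : (Xv F Y ^ N) 0 = C (1 : F) * X ^ N := by simp [Xv]
  rw [h3, lam_C_mul_X, mul_one] at h1
  exact h h1

/-- the quasi-identity of a number which does not halt fails in a suitable algebra -/
theorem exists_model [Infinite F] (hm : 0 < Y.m) (N : ℕ) (hN : ¬ Y.Halts N) :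
    ∃ (A : Type u) (_ : Ring A) (_ : Algebra F A), (∀ n, 3 ≤ n → InM F n A) ∧
      (∀ n, 6 ≤ n → InS n A) ∧ ¬ Holds F A (rels Y, target N) := by
  classical
  set χ : ℕ → F := fun n => if Y.Halts n then 0 else 1 with hχ
  have hχ0 : ∀ n b, Y.H b = true → b < Y.m → χ (b + Y.m * n) = 0 := by
    intro n b hb hbm
    have : Y.Halts (b + Y.m * n) := by
      apply Sys.Halts.halt
      rw [Nat.add_mul_mod_self_left, Nat.mod_eq_of_lt hbm]
      exact hb
    simp [hχ, this]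
  have hχ1 : ∀ n b, Y.H b = false → b < Y.m → χ (b + Y.m * n) = χ (Y.e b + Y.a b * n) := by
    intro n b hb hbm
    have hmod : (b + Y.m * n) % Y.m = b := by
      rw [Nat.add_mul_mod_self_left, Nat.mod_eq_of_lt hbm]
    have hdiv : (b + Y.m * n) / Y.m = n := by
      rw [Nat.add_mul_div_left _ _ hm, Nat.div_eq_of_lt hbm, zero_add]
    have hnext : Y.next (b + Y.m * n) = Y.e b + Y.a b * n := by
      unfold Sys.next
      rw [hmod, hdiv, add_comm]
    have : Y.Halts (b + Y.m * n) ↔ Y.Halts (Y.e b + Y.a b * n) := by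
      rw [← hnext]
      constructor
      · intro h
        cases h with
        | halt _ h1 => rw [hmod, hb] at h1; exact absurd h1 (by simp)
        | step _ _ h2 => exact h2
      · intro h
        exact Sys.Halts.step _ (by rw [hmod]; exact hb) h
    simp [hχ, this]
  have hχN : χ N ≠ 0 := by simp [hχ, hN]
  refine ⟨FreeAlgebra F ℕ ⧸ J F Y χ, inferInstance, inferInstance, ?_, ?_, ?_⟩
  · intro n hn p hp v
    have hs : ∀ i, ∃ f : FreeAlgebra F ℕ, Ideal.Quotient.mkₐ F (J F Y χ) f = v i := fun i =>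
      Ideal.Quotient.mkₐ_surjective F (J F Y χ) (v i)
    choose f hf using hs
    have h1 := map_pval ((Ideal.Quotient.mkₐ F (J F Y χ) :
      FreeAlgebra F ℕ →ₐ[F] FreeAlgebra F ℕ ⧸ J F Y χ) :
      FreeAlgebra F ℕ →ₙₐ[F] FreeAlgebra F ℕ ⧸ J F Y χ) f p
    have h2 : v = fun i => ((Ideal.Quotient.mkₐ F (J F Y χ) :
      FreeAlgebra F ℕ →ₐ[F] FreeAlgebra F ℕ ⧸ J F Y χ) :
      FreeAlgebra F ℕ →ₙₐ[F] FreeAlgebra F ℕ ⧸ J F Y χ) (f i) := by
      funext i; exact (hf i).symm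
    rw [h2, ← h1]
    have h3 : pval f p ∈ J F Y χ := by
      apply mem_J_of_r3
      have h4 := map_pval ((r3 F Y : FreeAlgebra F ℕ →ₐ[F] _) :
        FreeAlgebra F ℕ →ₙₐ[F] Matrix (Fin 3) (Fin 3) (R0 F Y.m)[X]) f p
      rw [ident_le hn hp] at h4
      exact h4
    exact Ideal.Quotient.eq_zero_iff_mem.2 h3
  · intro n hn y
    have hs : ∀ i, ∃ f : FreeAlgebra F ℕ, Ideal.Quotient.mk (J F Y χ) f = y i := fun i =>
      Ideal.Quotient.mk_surjective (y i)
    choose f hf using hs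
    have h1 : ∑ σ : Equiv.Perm (Fin n), Equiv.Perm.sign σ • nprod (List.ofFn fun i => y (σ i))
        = Pool.Agent.H682R2.StdNil.std y := by
      unfold Pool.Agent.H682R2.StdNil.std
      refine Finset.sum_congr rfl fun σ _ => ?_
      rw [nprod_monoid]
      intro h
      have := congrArg List.length h
      rw [List.length_ofFn, List.length_nil] at this
      omega
    rw [h1]
    have h2 : y = fun i => Ideal.Quotient.mk (J F Y χ) (f i) := by
      funext i; exact (hf i).symm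
    rw [h2, ← Pool.Agent.H682R2.StdNil.std_map]
    apply Ideal.Quotient.eq_zero_iff_mem.2
    apply mem_J_of_r4
    have h3 := Pool.Agent.H682R2.StdNil.std_map
      ((r4 F Y : FreeAlgebra F ℕ →ₐ[F] _) : FreeAlgebra F ℕ →+* Matrix (Fin 4) (Fin 4) (R0 F Y.m)) f
    exact h3.trans (EqTri.std_tri hn _ fun i => tri_all (f i))
  · intro hH
    have h1 := hH (fun i => Ideal.Quotient.mk (J F Y χ) (l i)) ?_
    · rw [target_val, ← map_pow, ← map_mul, ← map_mul, ← map_mul] at h1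
      exact not_mem χ N hχN (Ideal.Quotient.eq_zero_iff_mem.1 h1)
    · rw [rels_iff]
      have hb1 : ∀ b, b < Y.m → ∃ k : Fin (Y.m + 1), (k : ℕ) = b + 1 ∧ cexp Y k = Y.a b := by
        intro b hb
        refine ⟨⟨b + 1, by omega⟩, rfl, ?_⟩
        simp [cexp]
      have hc0 : cexp Y 0 = Y.m := by simp [cexp]
      refine ⟨?_, fun b hb => ⟨?_, ?_, fun hHb => ?_, fun hHb => ?_⟩⟩
      · have h2 := rel_xz (F := F) (Y := Y) χ 0
        rw [hc0, Fin.val_zero, zero_add] at h2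
        rw [← map_pow, ← map_mul, ← map_mul]
        exact Ideal.Quotient.eq.2 h2
      · obtain ⟨k, hk, hck⟩ := hb1 b hb
        have h2 := rel_xz (F := F) (Y := Y) χ k
        rw [hck, hk, show b + 1 + 4 = 5 + b by omega] at h2
        rw [← map_pow, ← map_mul, ← map_mul]
        exact Ideal.Quotient.eq.2 h2
      · obtain ⟨k, hk, hck⟩ := hb1 b hb
        have h2 := rel_u (F := F) (Y := Y) χ k
        rw [hk, show b + 1 + 4 = 5 + b by omega] at h2
        rw [← map_mul, ← map_mul]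
        exact Ideal.Quotient.eq.2 h2
      · have h2 := rel_s0 (F := F) (Y := Y) χ b 0 (by
          rw [hc0]
          exact fun n => hχ0 n b hHb hb)
        rw [Fin.val_zero, zero_add] at h2
        rw [← map_pow, ← map_mul, ← map_mul]
        exact Ideal.Quotient.eq_zero_iff_mem.2 h2
      · obtain ⟨k, hk, hck⟩ := hb1 b hb
        have h2 := rel_s (F := F) (Y := Y) χ b (Y.e b) 0 k (by
          rw [hc0, hck]
          exact fun n => hχ1 n b hHb hb)
        rw [Fin.val_zero, zero_add, hk, show b + 1 + 4 = 5 + b by omega] at h2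
        rw [← map_pow, ← map_pow, ← map_mul, ← map_mul, ← map_mul, ← map_mul]
        exact Ideal.Quotient.eq.2 h2

end model

end Pool.Agent.H358R3.EqP
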