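import Mathlib
import Pool.Agent.Helper707.Num
import Pool.Agent.H358R3.EqModel

/-!
Undecidability from the encoding of generalised Collatz maps.
-/

universe u

namespace Pool.Agent.H358R3.EqP

open Pool.Agent.Helper707.Rel

theorem primrec_target (S p : ℕ) : Primrec fun x : ℕ => target (S * p ^ x) := by
  have hpow : Primrec₂ ((· ^ ·) : ℕ → ℕ → ℕ) := Primrec₂.unpaired'.1 Nat.Primrec.pow
  have h1 : Primrec fun x : ℕ => S * p ^ x :=
    Primrec.nat_mul.comp (Primrec.const S) (hpow.comp (Primrec.const p) Primrec.id)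
  have h2 : Primrec fun x : ℕ => (List.range (S * p ^ x)).map fun _ => (1 : ℕ) :=
    Primrec.list_map (Primrec.list_range.comp h1) (Primrec.const 1).to₂
  have h3 : Primrec fun x : ℕ => ((List.range (S * p ^ x)).map fun _ => (1 : ℕ)) ++ [4, 3] :=
    Primrec.list_append.comp h2 (Primrec.const [4, 3])
  have h4 : Primrec fun x : ℕ => ([(((true, 1, 0) : Bool × ℕ × ℕ),
      ((0, ((List.range (S * p ^ x)).map fun _ => (1 : ℕ)) ++ [4, 3]) : Word))] :
      NPoly (Bool × ℕ × ℕ)) :=
    Primrec.list_cons.comp (Primrec.pair (Primrec.const _) (Primrec.pair (Primrec.const 0) h3))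
      (Primrec.const [])
  refine h4.of_eq fun x => ?_
  unfold target mon w
  simp [List.map_const']

/-- undecidability of a set of quasi-identities which follows the halting of the maps -/
theorem undecidable (P : QuasiId → Prop)
    (h1 : ∀ (Y : Sys) (N : ℕ), 0 < Y.m → (P (rels Y, target N) ↔ Y.Halts N)) :
    ¬ ComputablePred P ∧ ∃ R : List (NPoly (Bool × ℕ × ℕ)),
      ¬ ComputablePred fun g : NPoly (Bool × ℕ × ℕ) => P (R, g) := by
  obtain ⟨Y, S, p, hm, hund⟩ := Pool.Agent.Helper707.Num.exists_undecidable_sys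
  have key : ¬ ComputablePred fun g : NPoly (Bool × ℕ × ℕ) => P (rels Y, g) := by
    intro hc
    obtain ⟨f, hf, hfe⟩ := ComputablePred.computable_iff.1 hc
    apply hund
    rw [ComputablePred.computable_iff]
    refine ⟨fun x => f (target (S * p ^ x)), hf.comp (primrec_target S p).to_comp, ?_⟩
    funext x
    have h2 := congrFun hfe (target (S * p ^ x))
    rw [← h2]
    exact propext (h1 Y _ hm).symm
  refine ⟨fun hc => key ?_, rels Y, key⟩
  obtain ⟨f, hf, hfe⟩ := ComputablePred.computable_iff.1 hc
  rw [ComputablePred.computable_iff]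
  refine ⟨fun g => f (rels Y, g), hf.comp (Computable.pair (Computable.const _) Computable.id), ?_⟩
  funext g
  exact congrFun hfe (rels Y, g)

end Pool.Agent.H358R3.EqP
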