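import Pool.Agent.H358R3.PlacDefs
set_option autoImplicit false

/-! Elementary facts on the plactic monoid. -/

namespace Pool.Agent.H358R3.Plac

variable {A : Type} [LinearOrder A]

theorem lift_gen {M : Type} [Monoid M] (f : A → M)
    (h : ∀ a b : FreeMonoid A, Knuth A a b → FreeMonoid.lift f a = FreeMonoid.lift f b) (a : A) :
    PresentedMonoid.lift f h (gen a) = f a := rfl

/-- length -/
def len : PL A →* Multiplicative ℕ :=
  PresentedMonoid.lift (fun _ => Multiplicative.ofAdd 1) (by
    intro a b h
    cases h <;> simp)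

/-- number of occurrences of `x` -/
def cntH (x : A) : PL A →* Multiplicative ℕ :=
  PresentedMonoid.lift (fun a => Multiplicative.ofAdd (if a = x then 1 else 0)) (by
    intro a b h
    cases h <;> simp [mul_comm, mul_left_comm])

/-- number of occurrences of `x` -/
def cnt (x : A) (T : PL A) : ℕ := (cntH x T).toAdd

theorem cnt_mul (x : A) (T U : PL A) : cnt x (T * U) = cnt x T + cnt x U := by
  simp [cnt]

theorem cnt_one (x : A) : cnt x (1 : PL A) = 0 := by
  simp [cnt]

theorem cnt_gen (x a : A) : cnt x (gen a) = if a = x then 1 else 0 := rfl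

theorem cnt_pow (x : A) (T : PL A) (n : ℕ) : cnt x (T ^ n) = n * cnt x T := by
  induction n with
  | zero => simp [cnt_one]
  | succ n ih => rw [pow_succ, cnt_mul, ih]; ring

/-- length -/
def ln (T : PL A) : ℕ := (len T).toAdd

theorem ln_mul (T U : PL A) : ln (T * U) = ln T + ln U := by
  simp [ln]

theorem ln_gen (a : A) : ln (gen a) = 1 := rfl

/-- induction on elements -/
theorem pl_ind {P : PL A → Prop} (h1 : P 1) (h2 : ∀ (a : A) (T : PL A), P T → P (gen a * T)) (T : PL A) :
    P T := by
  induction T using PresentedMonoid.inductionOn with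
  | h w =>
    induction w using FreeMonoid.inductionOn' with
    | one => exact h1
    | of_mul a w ih => exact h2 a _ ih

theorem pl_cases (T : PL A) : T = 1 ∨ ∃ (a : A) (U : PL A), T = gen a * U := by
  induction T using pl_ind with
  | h1 => exact Or.inl rfl
  | h2 a T _ => exact Or.inr ⟨a, T, rfl⟩

theorem ln_eq_zero (T : PL A) : ln T = 0 ↔ T = 1 := by
  constructor
  · intro h
    rcases pl_cases T with h1 | ⟨a, U, rfl⟩
    · exact h1
    · rw [ln_mul, ln_gen] at h
      omega
  · rintro rfl
    simp [ln]

/-- The generators are the irreducible elements. -/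
theorem gen_iff (T : PL A) : (∃ a : A, T = gen a) ↔ (T ≠ 1 ∧ ∀ U V : PL A, T = U * V → U = 1 ∨ V = 1) := by
  constructor
  · rintro ⟨a, rfl⟩
    refine ⟨?_, ?_⟩
    · intro h
      have := (ln_eq_zero (gen a)).2 h
      rw [ln_gen] at this
      omega
    · intro U V h
      have := congrArg ln h
      rw [ln_gen, ln_mul] at this
      rw [← ln_eq_zero, ← ln_eq_zero]
      omega
  · rintro ⟨h1, h2⟩
    rcases pl_cases T with h | ⟨a, U, rfl⟩
    · exact absurd h h1
    · rcases h2 _ _ rfl with h | h
      · have := (ln_eq_zero (gen a)).2 h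
        rw [ln_gen] at this
        omega
      · exact ⟨a, by rw [h, mul_one]⟩

theorem cnt_pos (x : A) (T : PL A) : (∃ U V : PL A, T = U * gen x * V) ↔ 0 < cnt x T := by
  constructor
  · rintro ⟨U, V, rfl⟩
    rw [cnt_mul, cnt_mul, cnt_gen, if_pos rfl]
    omega
  · induction T using pl_ind with
    | h1 => intro h; rw [cnt_one] at h; omega
    | h2 a T ih =>
      intro h
      by_cases hax : a = x
      · subst hax
        exact ⟨1, T, by simp⟩
      · rw [cnt_mul, cnt_gen, if_neg hax, zero_add] at h
        obtain ⟨U, V, rfl⟩ := ih h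
        exact ⟨gen a * U, V, by simp [mul_assoc]⟩

theorem cnt_zero_iff (x : A) (T : PL A) : (¬ ∃ U V : PL A, T = U * gen x * V) ↔ cnt x T = 0 := by
  rw [cnt_pos]
  omega

/-- The powers of a generator. -/
theorem pow_iff (x : A) (T : PL A) : (∃ n : ℕ, T = gen x ^ n) ↔ ∀ y : A, 0 < cnt y T → y = x := by
  constructor
  · rintro ⟨n, rfl⟩ y hy
    by_contra hne
    rw [cnt_pow, cnt_gen, if_neg (Ne.symm hne)] at hy
    omega
  · induction T using pl_ind with
    | h1 => intro _; exact ⟨0, by simp⟩
    | h2 a T ih =>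
      intro h
      obtain ⟨n, hn⟩ := ih (fun y hy => h y (by rw [cnt_mul]; omega))
      have ha : a = x := h a (by rw [cnt_mul, cnt_gen, if_pos rfl]; omega)
      exact ⟨n + 1, by rw [hn, ha, pow_succ']⟩

theorem gen_pow_inj (x : A) {m n : ℕ} (h : gen x ^ m = gen x ^ n) : m = n := by
  have := congrArg (cnt x) h
  rw [cnt_pow, cnt_pow, cnt_gen, if_pos rfl] at this
  omega

theorem gen_inj {x y : A} (h : gen x = gen y) : x = y := by
  by_contra hne
  have := congrArg (cnt x) h
  rw [cnt_gen, cnt_gen, if_pos rfl, if_neg (Ne.symm hne)] at this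
  omega

/-! ### The first row -/

/-- `f a` is the number of entries `≤ a` in the first row; `step x f` is the new function after the
insertion of `x` -/
def step (x : A) (f : A → ℕ) : A → ℕ := fun a => if a < x then f a else max (f a) (f x + 1)

theorem step_mono (x : A) {f : A → ℕ} (hf : Monotone f) : Monotone (step x f) := by
  intro a b hab
  unfold step
  have h1 := hf hab
  split_ifs with h2 h3 h3
  · exact h1
  · exact h1.trans (le_max_left _ _)
  · exact absurd (hab.trans_lt h3) h2
  · exact max_le_max h1 le_rfl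

/-- insertion, on monotone functions -/
def stp (x : A) (f : {f : A → ℕ // Monotone f}) : {f : A → ℕ // Monotone f} :=
  ⟨step x f.1, step_mono x f.2⟩

theorem knuth_step1 (x y z : A) (h1 : x ≤ y) (h2 : y < z) (f : A → ℕ) (hf : Monotone f) :
    step y (step z (step x f)) = step y (step x (step z f)) := by
  funext a
  have e1 := hf h1
  have e2 := hf h2.le
  have hxz : x < z := lt_of_le_of_lt h1 h2
  rcases lt_or_ge a x with hax | hax
  · have hay : a < y := lt_of_lt_of_le hax h1
    have haz : a < z := hay.trans h2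
    simp [step, hax, hay, haz]
  rcases lt_or_ge a y with hay | hay
  · have haz : a < z := hay.trans h2
    simp [step, not_lt.2 hax, hay, haz, hxz]
  rcases lt_or_ge a z with haz | haz
  · simp [step, not_lt.2 hax, not_lt.2 hay, haz, hxz, h2, not_lt.2 h1]
  · have e3 := hf hax
    simp only [step, not_lt.2 hax, not_lt.2 hay, not_lt.2 haz, hxz, h2, not_lt.2 h1, not_lt.2 hxz.le, if_false, if_true]
    omega

theorem knuth_step2 (x y z : A) (h1 : x < y) (h2 : y ≤ z) (f : A → ℕ) (hf : Monotone f) :
    step z (step x (step y f)) = step x (step z (step y f)) := by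
  funext a
  have e1 := hf h1.le
  have e2 := hf h2
  have hxz : x < z := lt_of_lt_of_le h1 h2
  rcases lt_or_ge a x with hax | hax
  · have hay : a < y := hax.trans h1
    have haz : a < z := lt_of_lt_of_le hay h2
    simp [step, hax, hay, haz]
  rcases lt_or_ge a y with hay | hay
  · have haz : a < z := lt_of_lt_of_le hay h2
    simp [step, not_lt.2 hax, hay, haz, hxz]
  rcases lt_or_ge a z with haz | haz
  · simp [step, not_lt.2 hax, not_lt.2 hay, haz, hxz, h1]
  · simp only [step, not_lt.2 hax, not_lt.2 hay, not_lt.2 haz, hxz, h1, not_lt.2 h2, not_lt.2 hxz.le, if_false, if_true]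
    omega

theorem row_rel (a b : FreeMonoid A) (h : Knuth A a b) :
    FreeMonoid.lift (fun a => (MulOpposite.op (stp a) : (Function.End {f : A → ℕ // Monotone f})ᵐᵒᵖ)) a =
      FreeMonoid.lift (fun a => (MulOpposite.op (stp a) : (Function.End {f : A → ℕ // Monotone f})ᵐᵒᵖ)) b := by
  cases h with
  | xzy x y z h1 h2 =>
    simp only [map_mul, FreeMonoid.lift_eval_of]
    apply MulOpposite.unop_injective
    simp only [MulOpposite.unop_mul, MulOpposite.unop_op]
    funext f
    exact Subtype.ext (knuth_step1 x y z h1 h2 f.1 f.2)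
  | yxz x y z h1 h2 =>
    simp only [map_mul, FreeMonoid.lift_eval_of]
    apply MulOpposite.unop_injective
    simp only [MulOpposite.unop_mul, MulOpposite.unop_op]
    funext f
    exact Subtype.ext (knuth_step2 x y z h1 h2 f.1 f.2)

/-- the action on first rows -/
def rowH : PL A →* (Function.End {f : A → ℕ // Monotone f})ᵐᵒᵖ :=
  PresentedMonoid.lift _ row_rel

/-- the first row of `T` inserted after the row `f` -/
def row (T : PL A) (f : {f : A → ℕ // Monotone f}) : {f : A → ℕ // Monotone f} := (rowH T).unop f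

theorem row_mul (T U : PL A) (f : {f : A → ℕ // Monotone f}) : row (T * U) f = row U (row T f) := by
  simp only [row, map_mul, MulOpposite.unop_mul]
  rfl

theorem row_gen (x : A) (f : {f : A → ℕ // Monotone f}) : row (gen x) f = stp x f := rfl

theorem row_one (f : {f : A → ℕ // Monotone f}) : row (1 : PL A) f = f := by
  simp only [row, map_one, MulOpposite.unop_one]
  rfl

/-! ### Two letters `a < b` -/

/-- the numbers of entries `≤ a` and `≤ b` in the first row -/
def pr (a b : A) (f : {f : A → ℕ // Monotone f}) : ℕ × ℕ := (f.1 a, f.1 b)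

theorem pr_a {a b : A} (h : a < b) (f : {f : A → ℕ // Monotone f}) :
    pr a b (row (gen a) f) = ((pr a b f).1 + 1, max (pr a b f).2 ((pr a b f).1 + 1)) := by
  rw [row_gen]
  simp only [pr, stp, step, lt_irrefl, if_false, not_lt.2 h.le]
  rw [max_eq_right (Nat.le_succ _)]

theorem pr_b {a b : A} (h : a < b) (f : {f : A → ℕ // Monotone f}) :
    pr a b (row (gen b) f) = ((pr a b f).1, (pr a b f).2 + 1) := by
  rw [row_gen]
  simp only [pr, stp, step, lt_irrefl, if_false, h, if_true]
  rw [max_eq_right (Nat.le_succ _)]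

theorem pr_le {a b : A} (h : a < b) (f : {f : A → ℕ // Monotone f}) : (pr a b f).1 ≤ (pr a b f).2 :=
  f.2 h.le

theorem pr_apow {a b : A} (h : a < b) (n : ℕ) (f : {f : A → ℕ // Monotone f}) :
    pr a b (row (gen a ^ n) f) = ((pr a b f).1 + n, max (pr a b f).2 ((pr a b f).1 + n)) := by
  induction n with
  | zero =>
    rw [pow_zero, row_one]
    have := pr_le h f
    ext
    · simp
    · simp only [add_zero]; omega
  | succ n ih =>
    rw [pow_succ, row_mul, pr_a h, ih]
    ext
    · simp only; omega
    · simp only; omega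

theorem pr_bpow {a b : A} (h : a < b) (n : ℕ) (f : {f : A → ℕ // Monotone f}) :
    pr a b (row (gen b ^ n) f) = ((pr a b f).1, (pr a b f).2 + n) := by
  induction n with
  | zero => rw [pow_zero, row_one]; rfl
  | succ n ih =>
    rw [pow_succ, row_mul, pr_b h, ih]
    rfl

/-- the empty row -/
def zr : {f : A → ℕ // Monotone f} := ⟨fun _ => 0, fun _ _ _ => le_rfl⟩

theorem pr_zr (a b : A) : pr a b zr = (0, 0) := rfl

theorem com_le {a b : A} (h : a < b) {i j : ℕ}
    (hc : gen a * (gen b ^ i * gen a ^ j) = (gen b ^ i * gen a ^ j) * gen a) : i ≤ j := by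
  have := congrArg (fun T => (pr a b (row T zr)).2) hc
  simp only [row_mul, pr_a h, pr_apow h, pr_bpow h, pr_zr] at this
  omega

theorem com_ge {a b : A} (h : a < b) {i j : ℕ}
    (hc : gen b * (gen b ^ i * gen a ^ j) = (gen b ^ i * gen a ^ j) * gen b) : j ≤ i := by
  have := congrArg (fun T => (pr a b (row T zr)).2) hc
  simp only [row_mul, pr_b h, pr_apow h, pr_bpow h, pr_zr] at this
  omega

theorem com_a {a b : A} (h : a < b) {i j : ℕ}
    (hc : gen a * (gen a ^ j * gen b ^ i) = (gen a ^ j * gen b ^ i) * gen a) : i = 0 := by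
  have := congrArg (fun T => (pr a b (row T zr)).2) hc
  simp only [row_mul, pr_a h, pr_apow h, pr_bpow h, pr_zr] at this
  omega

theorem com_b {a b : A} (h : a < b) {i j : ℕ}
    (hc : gen b * (gen a ^ j * gen b ^ i) = (gen a ^ j * gen b ^ i) * gen b) : j = 0 := by
  have := congrArg (fun T => (pr a b (row T zr)).2) hc
  simp only [row_mul, pr_b h, pr_apow h, pr_bpow h, pr_zr] at this
  omega

/-- the column `b a` commutes with `a` -/
theorem ba_a {a b : A} (h : a < b) : gen a * (gen b * gen a) = (gen b * gen a) * gen a := by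
  have h1 : (PresentedMonoid.mk (Knuth A)) (FreeMonoid.of a * FreeMonoid.of b * FreeMonoid.of a) =
      (PresentedMonoid.mk (Knuth A)) (FreeMonoid.of b * FreeMonoid.of a * FreeMonoid.of a) :=
    Quotient.sound (ConGen.Rel.of _ _ (Knuth.xzy a a b le_rfl h))
  simp only [map_mul] at h1
  rw [← mul_assoc]
  exact h1

/-- the column `b a` commutes with `b` -/
theorem ba_b {a b : A} (h : a < b) : gen b * (gen b * gen a) = (gen b * gen a) * gen b := by
  have h1 : (PresentedMonoid.mk (Knuth A)) (FreeMonoid.of b * FreeMonoid.of a * FreeMonoid.of b) =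
      (PresentedMonoid.mk (Knuth A)) (FreeMonoid.of b * FreeMonoid.of b * FreeMonoid.of a) :=
    Quotient.sound (ConGen.Rel.of _ _ (Knuth.yxz a b b h le_rfl))
  simp only [map_mul] at h1
  rw [← mul_assoc]
  exact h1.symm

theorem bi_ai {a b : A} (h : a < b) (i : ℕ) : gen b ^ i * gen a ^ i = (gen b * gen a) ^ i := by
  have h1 : Commute (gen b) (gen b * gen a) := ba_b h
  have h2 : Commute (gen a) (gen b * gen a) := ba_a h
  induction i with
  | zero => simp
  | succ i ih =>
    rw [pow_succ, pow_succ', pow_succ, ← ih]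
    have h3 : Commute (gen b * gen a) (gen a ^ i) := (h2.pow_left i).symm
    calc gen b ^ i * gen b * (gen a * gen a ^ i) = gen b ^ i * ((gen b * gen a) * gen a ^ i) := by
          simp only [mul_assoc]
      _ = gen b ^ i * (gen a ^ i * (gen b * gen a)) := by rw [h3.eq]
      _ = _ := by simp only [mul_assoc]

theorem com_of_eq_a {a b : A} (h : a < b) (i : ℕ) :
    gen a * (gen b ^ i * gen a ^ i) = (gen b ^ i * gen a ^ i) * gen a := by
  rw [bi_ai h]
  have h2 : Commute (gen a) (gen b * gen a) := ba_a h
  exact (h2.pow_right i).eq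

theorem com_of_eq_b {a b : A} (h : a < b) (i : ℕ) :
    gen b * (gen b ^ i * gen a ^ i) = (gen b ^ i * gen a ^ i) * gen b := by
  rw [bi_ai h]
  have h2 : Commute (gen b) (gen b * gen a) := ba_b h
  exact (h2.pow_right i).eq

/-- `t` commutes with `x` and `y` -/
def Ctr (x y t : PL A) : Prop := x * t = t * x ∧ y * t = t * y

/-- Comparison of exponents of powers of two different letters. -/
theorem eq_iff {x o : A} (hne : x ≠ o) (i j : ℕ) :
    (Ctr (gen x) (gen o) (gen x ^ i * gen o ^ j) ∨ Ctr (gen x) (gen o) (gen o ^ j * gen x ^ i)) ↔ i = j := by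
  rcases lt_or_gt_of_ne hne with h | h
  · constructor
    · rintro (⟨h1, h2⟩ | ⟨h1, h2⟩)
      · rw [com_a h h1, com_b h h2]
      · exact le_antisymm (com_ge h h2) (com_le h h1)
    · rintro rfl
      exact Or.inr ⟨com_of_eq_a h i, com_of_eq_b h i⟩
  · constructor
    · rintro (⟨h1, h2⟩ | ⟨h1, h2⟩)
      · exact le_antisymm (com_le h h2) (com_ge h h1)
      · rw [com_a h h2, com_b h h1]
    · rintro rfl
      exact Or.inl ⟨com_of_eq_b h i, com_of_eq_a h i⟩

end Pool.Agent.H358R3.Plac
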