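import Pool.Agent.H358R3.Plac1
import Pool.Agent.Helper967.ModelDef
set_option autoImplicit false

/-! Multiplication of exponents is definable in the plactic monoid. -/

namespace Pool.Agent.H358R3.Plac

open FirstOrder FirstOrder.Language
open Pool.Agent.Helper967.ArithDef Pool.Agent.Helper967.ModelDef

variable {A : Type} [LinearOrder A]

/-- `T` is a generator -/
def IsGen (T : PL A) : Prop := ∃ a : A, T = gen a

/-- `X` divides `T` -/
def Has (T X : PL A) : Prop := ∃ U V : PL A, T = U * X * V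

/-- `W` is a power of the generator `X` -/
def PowOf (X W : PL A) : Prop := ∀ Y, IsGen Y → Has W Y → Y = X

/-- the power `W` of `X` and the power `E` of `O` have the same exponent -/
def EqE (O X W E : PL A) : Prop := (X = O ∧ W = E) ∨ (X ≠ O ∧ (Ctr X O (W * E) ∨ Ctr X O (E * W)))

/-- `E = O ^ j`, and `T = U X ^ j V` where `X` does not occur in `U` and `V` -/
def MulP (O T X E : PL A) : Prop :=
  PowOf O E ∧ ∃ U W V : PL A, T = U * W * V ∧ ¬ Has U X ∧ ¬ Has V X ∧ PowOf X W ∧ EqE O X W E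

theorem has_gen (T : PL A) (x : A) : Has T (gen x) ↔ 0 < cnt x T := cnt_pos x T

theorem powOf_gen (x : A) (W : PL A) : PowOf (gen x) W ↔ ∃ n : ℕ, W = gen x ^ n := by
  rw [pow_iff]
  constructor
  · intro h y hy
    exact gen_inj (h (gen y) ⟨y, rfl⟩ ((has_gen W y).2 hy))
  · rintro h _ ⟨y, rfl⟩ hy
    rw [h y ((has_gen W y).1 hy)]

theorem eqE_gen (o x : A) (i j : ℕ) : EqE (gen o) (gen x) (gen x ^ i) (gen o ^ j) ↔ i = j := by
  by_cases hxo : x = o
  · subst hxo
    unfold EqE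
    constructor
    · rintro (⟨-, h⟩ | ⟨h, -⟩)
      · exact gen_pow_inj x h
      · exact absurd rfl h
    · rintro rfl
      exact Or.inl ⟨rfl, rfl⟩
  · have hne : gen x ≠ gen o := fun h => hxo (gen_inj h)
    unfold EqE
    rw [eq_iff hxo]
    constructor
    · rintro (⟨h, -⟩ | ⟨-, h⟩)
      · exact absurd h hne
      · exact h
    · intro h
      exact Or.inr ⟨hne, h⟩

theorem mulP_gen (o x : A) (T : PL A) (j : ℕ) : MulP (gen o) T (gen x) (gen o ^ j) ↔
    ∃ U V : PL A, T = U * gen x ^ j * V ∧ cnt x U = 0 ∧ cnt x V = 0 := by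
  unfold MulP
  constructor
  · rintro ⟨-, U, W, V, rfl, h1, h2, h3, h4⟩
    obtain ⟨n, rfl⟩ := (powOf_gen x W).1 h3
    rw [eqE_gen] at h4
    subst h4
    rw [has_gen] at h1 h2
    exact ⟨U, V, rfl, by omega, by omega⟩
  · rintro ⟨U, V, rfl, h1, h2⟩
    refine ⟨(powOf_gen o _).2 ⟨j, rfl⟩, U, gen x ^ j, V, rfl, ?_, ?_, (powOf_gen x _).2 ⟨j, rfl⟩, (eqE_gen o x j j).2 rfl⟩
    · rw [has_gen]; omega
    · rw [has_gen]; omega

theorem mulP_cnt {o x : A} {T : PL A} {j : ℕ} (h : MulP (gen o) T (gen x) (gen o ^ j)) : cnt x T = j := by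
  obtain ⟨U, V, rfl, h1, h2⟩ := (mulP_gen o x T j).1 h
  rw [cnt_mul, cnt_mul, cnt_pow, cnt_gen, if_pos rfl]
  omega

theorem mulP_E {o : A} {T X E : PL A} (h : MulP (gen o) T X E) : ∃ j : ℕ, E = gen o ^ j :=
  (powOf_gen o E).1 h.1

/-- multiplication of exponents -/
def MUL (O E1 E2 E3 : PL A) : Prop :=
  ∃ D T U : PL A, (∀ X, IsGen X → Has D X →
    ((MulP O T X 1 ∧ MulP O U X 1) ∨ ∃ Y, IsGen Y ∧ Has D Y ∧ ∃ E F,
      MulP O T Y E ∧ MulP O T X (E * O) ∧ MulP O U Y F ∧ MulP O U X (F * E2))) ∧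
    ∃ X, IsGen X ∧ Has D X ∧ MulP O T X E1 ∧ MulP O U X E3

/-- products of powers of the letters `x 0, …, x n` -/
def Q (x : ℕ → A) (a : ℕ → ℕ) : ℕ → PL A
  | 0 => gen (x 0) ^ a 0
  | n + 1 => Q x a n * gen (x (n + 1)) ^ a (n + 1)

theorem cnt_Q_zero (x : ℕ → A) (a : ℕ → ℕ) (y : A) (n : ℕ) (h : ∀ i ≤ n, x i ≠ y) : cnt y (Q x a n) = 0 := by
  induction n with
  | zero => rw [Q, cnt_pow, cnt_gen, if_neg (h 0 le_rfl), mul_zero]
  | succ n ih =>
    rw [Q, cnt_mul, cnt_pow, cnt_gen, if_neg (h (n + 1) le_rfl), mul_zero, ih (fun i hi => h i (by omega)), add_zero]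

theorem Q_split (x : ℕ → A) (hx : Function.Injective x) (a : ℕ → ℕ) (n i : ℕ) (hi : i ≤ n) :
    ∃ U V : PL A, Q x a n = U * gen (x i) ^ a i * V ∧ cnt (x i) U = 0 ∧ cnt (x i) V = 0 := by
  induction n with
  | zero =>
    obtain rfl : i = 0 := by omega
    exact ⟨1, 1, by simp [Q], cnt_one _, cnt_one _⟩
  | succ n ih =>
    rcases Nat.lt_or_ge n i with h | h
    · obtain rfl : i = n + 1 := by omega
      refine ⟨Q x a n, 1, by simp [Q], cnt_Q_zero x a _ n (fun j hj hij => ?_), cnt_one _⟩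
      have := hx hij
      omega
    · obtain ⟨U, V, h1, h2, h3⟩ := ih h
      refine ⟨U, V * gen (x (n + 1)) ^ a (n + 1), by rw [Q, h1]; simp only [mul_assoc], h2, ?_⟩
      have hne : x (n + 1) ≠ x i := by
        intro hij
        have := hx hij
        omega
      rw [cnt_mul, h3, cnt_pow, cnt_gen, if_neg hne, mul_zero, add_zero]

theorem mulP_Q (o : A) (x : ℕ → A) (hx : Function.Injective x) (a : ℕ → ℕ) (n i : ℕ) (hi : i ≤ n) :
    MulP (gen o) (Q x a n) (gen (x i)) (gen o ^ a i) :=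
  (mulP_gen _ _ _ _).2 (Q_split x hx a n i hi)

theorem MUL_iff [Infinite A] (o : A) (m k l : ℕ) :
    MUL (gen o) (gen o ^ m) (gen o ^ k) (gen o ^ l) ↔ m * k = l := by
  constructor
  · rintro ⟨D, T, U, h1, X, ⟨x, rfl⟩, hX, h2, h3⟩
    have key : ∀ (i : ℕ) (y : A), Has D (gen y) → cnt y T = i → cnt y U = i * k := by
      intro i
      induction i with
      | zero =>
        intro y hy hy0
        rcases h1 (gen y) ⟨y, rfl⟩ hy with ⟨-, h⟩ | ⟨_, ⟨z, rfl⟩, -, E, F, h4, h5, -, -⟩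
        · rw [← pow_zero (gen o)] at h
          rw [mulP_cnt h, zero_mul]
        · obtain ⟨j, rfl⟩ := mulP_E h4
          rw [← pow_succ] at h5
          have := mulP_cnt h5
          omega
      | succ i ih =>
        intro y hy hy0
        rcases h1 (gen y) ⟨y, rfl⟩ hy with ⟨h, -⟩ | ⟨_, ⟨z, rfl⟩, hz, E, F, h4, h5, h6, h7⟩
        · rw [← pow_zero (gen o)] at h
          have := mulP_cnt h
          omega
        · obtain ⟨j, rfl⟩ := mulP_E h4
          obtain ⟨j', rfl⟩ := mulP_E h6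
          rw [← pow_succ] at h5
          rw [← pow_add] at h7
          have e4 := mulP_cnt h4
          have e5 := mulP_cnt h5
          have e6 := mulP_cnt h6
          have e7 := mulP_cnt h7
          have e8 := ih z hz (by omega)
          rw [e7, ← e6, e8]
          ring
    have := key m x hX (mulP_cnt h2)
    rw [← this, mulP_cnt h3]
  · rintro rfl
    let x : ℕ → A := Infinite.natEmbedding A
    have hx : Function.Injective x := (Infinite.natEmbedding A).injective
    refine ⟨Q x (fun _ => 1) m, Q x (fun i => i) m, Q x (fun i => i * k) m, ?_, ?_⟩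
    · rintro _ ⟨y, rfl⟩ hy
      rw [has_gen] at hy
      obtain ⟨i, hi, rfl⟩ : ∃ i ≤ m, x i = y := by
        by_contra hcon
        push Not at hcon
        rw [cnt_Q_zero x _ y m hcon] at hy
        omega
      rcases Nat.eq_zero_or_pos i with rfl | hpos
      · left
        have e1 := mulP_Q o x hx (fun i => i) m 0 hi
        have e2 := mulP_Q o x hx (fun i => i * k) m 0 hi
        simp only [zero_mul, pow_zero] at e1 e2
        exact ⟨e1, e2⟩
      · right
        obtain ⟨j, rfl⟩ : ∃ j, i = j + 1 := ⟨i - 1, by omega⟩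
        refine ⟨gen (x j), ⟨x j, rfl⟩, ?_, gen o ^ j, gen o ^ (j * k), ?_, ?_, ?_, ?_⟩
        · obtain ⟨U, V, h, -, -⟩ := Q_split x hx (fun _ => 1) m j (by omega)
          rw [pow_one] at h
          exact ⟨U, V, h⟩
        · exact mulP_Q o x hx (fun i => i) m j (by omega)
        · rw [← pow_succ]
          exact mulP_Q o x hx (fun i => i) m (j + 1) hi
        · exact mulP_Q o x hx (fun i => i * k) m j (by omega)
        · rw [← pow_add]
          have := mulP_Q o x hx (fun i => i * k) m (j + 1) hi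
          simpa only [add_mul, one_mul] using this
    · refine ⟨gen (x m), ⟨x m, rfl⟩, ?_, ?_, ?_⟩
      · obtain ⟨U, V, h, -, -⟩ := Q_split x hx (fun _ => 1) m m le_rfl
        rw [pow_one] at h
        exact ⟨U, V, h⟩
      · exact mulP_Q o x hx (fun i => i) m m le_rfl
      · exact mulP_Q o x hx (fun i => i * k) m m le_rfl

/-! ### Definability -/

section

variable {C : Type} {g : C → A}

/-- the structure -/
@[reducible] def fam (A : Type) [LinearOrder A] : A → Type := fun _ => PL A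

/-- the parameter -/
def par (A : Type) [LinearOrder A] : ∀ _ : A, Unit → PL A := fun o _ => gen o

/-- variables -/
abbrev tv (C : Type) (n : ℕ) : (LC C).Term (Unit ⊕ ℕ) := Term.var (Sum.inr n)
/-- the parameter -/
abbrev tO (C : Type) : (LC C).Term (Unit ⊕ ℕ) := Term.var (Sum.inl ())
/-- product of terms -/
abbrev tM {C : Type} {α : Type} (s t : (LC C).Term α) : (LC C).Term α :=
  Term.func (PFun.mul : (LC C).Functions 2) ![s, t]
/-- the identity -/
abbrev t1 {C : Type} {α : Type} : (LC C).Term α := Term.func (PFun.one : (LC C).Functions 0) ![]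

/-- the structures -/
@[reducible] def strf (g : C → A) : ∀ i : A, (LC C).Structure (fam A i) := fun _ => str g

/-- definability with the parameter `o`, uniformly in `o` -/
def DP (g : C → A) (R : A → (ℕ → PL A) → Prop) : Prop :=
  @DM (LC C) A (fam A) (strf g) Unit (par A) R

namespace DP

theorem iff {R S : A → (ℕ → PL A) → Prop} (h : ∀ i v, R i v ↔ S i v) (hR : DP g R) : DP g S :=
  @DM.iff (LC C) A (fam A) (strf g) Unit (par A) R S h hR

theorem and {R S : A → (ℕ → PL A) → Prop} (hR : DP g R) (hS : DP g S) : DP g (fun i v => R i v ∧ S i v) :=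
  @DM.and (LC C) A (fam A) (strf g) Unit (par A) R S hR hS

theorem or {R S : A → (ℕ → PL A) → Prop} (hR : DP g R) (hS : DP g S) : DP g (fun i v => R i v ∨ S i v) :=
  @DM.or (LC C) A (fam A) (strf g) Unit (par A) R S hR hS

theorem imp {R S : A → (ℕ → PL A) → Prop} (hR : DP g R) (hS : DP g S) : DP g (fun i v => R i v → S i v) :=
  @DM.imp (LC C) A (fam A) (strf g) Unit (par A) R S hR hS

theorem not {R : A → (ℕ → PL A) → Prop} (hR : DP g R) : DP g (fun i v => ¬ R i v) :=
  @DM.not (LC C) A (fam A) (strf g) Unit (par A) R hR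

theorem all {S : A → PL A → (ℕ → PL A) → Prop} (hR : DP g (fun i v => S i (v 0) (fun n => v (n + 1)))) :
    DP g (fun i v => ∀ a, S i a v) :=
  @DM.all (LC C) A (fam A) (strf g) Unit (par A) S hR

theorem ex {S : A → PL A → (ℕ → PL A) → Prop} (hR : DP g (fun i v => S i (v 0) (fun n => v (n + 1)))) :
    DP g (fun i v => ∃ a, S i a v) :=
  @DM.ex (LC C) A (fam A) (strf g) Unit (par A) S hR

theorem ren {R : A → (ℕ → PL A) → Prop} (ρ : ℕ → ℕ) (hR : DP g R) : DP g (fun i v => R i (fun n => v (ρ n))) :=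
  @DM.ren (LC C) A (fam A) (strf g) Unit (par A) R ρ hR

/-- value of a term -/
def val (g : C → A) (t : (LC C).Term (Unit ⊕ ℕ)) (i : A) (v : ℕ → PL A) : PL A :=
  @Term.realize (LC C) (PL A) (str g) _ (Sum.elim (par A i) v) t

theorem term (t₁ t₂ : (LC C).Term (Unit ⊕ ℕ)) : DP g (fun i v => val g t₁ i v = val g t₂ i v) :=
  @DM.term (LC C) A (fam A) (strf g) Unit (par A) t₁ t₂

/-- renaming in a binary predicate -/
theorem r2 {R : A → PL A → PL A → Prop} (h : DP g (fun i v => R i (v 0) (v 1))) (a b : ℕ) :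
    DP g (fun i v => R i (v a) (v b)) :=
  ren (fun n => match n with
    | 0 => a
    | _ => b) h

/-- renaming in a unary predicate -/
theorem r1 {R : A → PL A → Prop} (h : DP g (fun i v => R i (v 0))) (a : ℕ) :
    DP g (fun i v => R i (v a)) :=
  ren (fun _ => a) h

/-- renaming in a ternary predicate -/
theorem r3 {R : A → PL A → PL A → PL A → Prop} (h : DP g (fun i v => R i (v 0) (v 1) (v 2))) (a b c : ℕ) :
    DP g (fun i v => R i (v a) (v b) (v c)) :=
  ren (fun n => match n with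
    | 0 => a
    | 1 => b
    | _ => c) h

theorem isGen : DP g (fun _ v => IsGen (v 0)) := by
  refine iff (R := fun _ v => (¬ v 0 = 1) ∧ ∀ U V : PL A, v 0 = U * V → (U = 1 ∨ V = 1))
    (fun i v => (gen_iff (v 0)).symm) ?_
  exact and (not (term (tv C 0) t1)) (all (all (imp (term (tv C 2) (tM (tv C 1) (tv C 0)))
    (or (term (tv C 1) t1) (term (tv C 0) t1)))))

theorem has : DP g (fun _ v => Has (v 0) (v 1)) := by
  refine iff (R := fun _ v => ∃ U V : PL A, v 0 = U * v 1 * V) (fun i v => Iff.rfl) ?_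
  exact ex (ex (term (tv C 2) (tM (tM (tv C 1) (tv C 3)) (tv C 0))))

theorem powOf : DP g (fun _ v => PowOf (v 0) (v 1)) := by
  refine iff (R := fun _ v => ∀ Y : PL A, IsGen Y → Has (v 1) Y → Y = v 0) (fun i v => Iff.rfl) ?_
  exact all (imp (r1 (R := fun _ x => IsGen x) isGen 0) (imp (r2 (R := fun _ x y => Has x y) has 2 0)
    (term (tv C 0) (tv C 1))))

theorem powO : DP g (fun i v => PowOf (gen i) (v 0)) := by
  refine iff (R := fun i v => ∀ Y : PL A, IsGen Y → Has (v 0) Y → Y = gen i) (fun i v => Iff.rfl) ?_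
  exact all (imp (r1 (R := fun _ x => IsGen x) isGen 0) (imp (r2 (R := fun _ x y => Has x y) has 1 0)
    (term (tv C 0) (tO C))))

theorem eqE : DP g (fun i v => EqE (gen i) (v 0) (v 1) (v 2)) := by
  refine iff (R := fun i v => (v 0 = gen i ∧ v 1 = v 2) ∨ ((¬ v 0 = gen i) ∧
    ((v 0 * (v 1 * v 2) = (v 1 * v 2) * v 0 ∧ gen i * (v 1 * v 2) = (v 1 * v 2) * gen i) ∨
     (v 0 * (v 2 * v 1) = (v 2 * v 1) * v 0 ∧ gen i * (v 2 * v 1) = (v 2 * v 1) * gen i))))
    (fun i v => Iff.rfl) ?_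
  exact or (and (term (tv C 0) (tO C)) (term (tv C 1) (tv C 2)))
    (and (not (term (tv C 0) (tO C)))
      (or (and (term (tM (tv C 0) (tM (tv C 1) (tv C 2))) (tM (tM (tv C 1) (tv C 2)) (tv C 0)))
               (term (tM (tO C) (tM (tv C 1) (tv C 2))) (tM (tM (tv C 1) (tv C 2)) (tO C))))
          (and (term (tM (tv C 0) (tM (tv C 2) (tv C 1))) (tM (tM (tv C 2) (tv C 1)) (tv C 0)))
               (term (tM (tO C) (tM (tv C 2) (tv C 1))) (tM (tM (tv C 2) (tv C 1)) (tO C))))))

theorem mulP : DP g (fun i v => MulP (gen i) (v 0) (v 1) (v 2)) := by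
  refine iff (R := fun i v => PowOf (gen i) (v 2) ∧ ∃ U W V : PL A, v 0 = U * W * V ∧ (¬ Has U (v 1)) ∧
    (¬ Has V (v 1)) ∧ PowOf (v 1) W ∧ EqE (gen i) (v 1) W (v 2)) (fun i v => Iff.rfl) ?_
  refine and (r1 (R := fun i x => PowOf (gen i) x) powO 2) (ex (ex (ex (and (term (tv C 3) (tM (tM (tv C 2) (tv C 1)) (tv C 0)))
    (and (not (r2 (R := fun _ x y => Has x y) has 2 4)) (and (not (r2 (R := fun _ x y => Has x y) has 0 4))
      (and (r2 (R := fun _ x y => PowOf x y) powOf 4 1)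
        (r3 (R := fun i x y z => EqE (gen i) x y z) eqE 4 1 5))))))))

theorem mulPk (a b c : ℕ) : DP g (fun i v => MulP (gen i) (v a) (v b) (v c)) :=
  r3 (R := fun i x y z => MulP (gen i) x y z) mulP a b c

theorem mul : DP g (fun i v => MUL (gen i) (v 0) (v 1) (v 2)) := by
  refine iff (R := fun i v => ∃ D T U : PL A, (∀ X, IsGen X → Has D X →
    ((∃ N : PL A, N = 1 ∧ MulP (gen i) T X N ∧ MulP (gen i) U X N) ∨ ∃ Y, IsGen Y ∧ Has D Y ∧ ∃ E F,
      MulP (gen i) T Y E ∧ (∃ G : PL A, G = E * gen i ∧ MulP (gen i) T X G) ∧ MulP (gen i) U Y F ∧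
      (∃ G : PL A, G = F * v 1 ∧ MulP (gen i) U X G))) ∧
    ∃ X, IsGen X ∧ Has D X ∧ MulP (gen i) T X (v 0) ∧ MulP (gen i) U X (v 2)) (fun i v => ?_) ?_
  · unfold MUL
    simp only [exists_eq_left]
  · refine ex (ex (ex (and ?_ ?_)))
    · refine all (imp (r1 (R := fun _ x => IsGen x) isGen 0) (imp (r2 (R := fun _ x y => Has x y) has 3 0) (or ?_ ?_)))
      · exact ex (and (term (tv C 0) t1) (and (mulPk 3 1 0) (mulPk 2 1 0)))
      · refine ex (and (r1 (R := fun _ x => IsGen x) isGen 0) (and (r2 (R := fun _ x y => Has x y) has 4 0)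
          (ex (ex (and ?_ (and ?_ (and ?_ ?_)))))))
        · exact mulPk 5 2 1
        · exact ex (and (term (tv C 0) (tM (tv C 2) (tO C))) (mulPk 6 4 0))
        · exact mulPk 4 2 0
        · exact ex (and (term (tv C 0) (tM (tv C 1) (tv C 9))) (mulPk 5 4 0))
    · exact ex (and (r1 (R := fun _ x => IsGen x) isGen 0) (and (r2 (R := fun _ x y => Has x y) has 3 0)
        (and (mulPk 2 0 4) (mulPk 1 0 6))))

end DP

/-- the copy of the naturals: `n` is the `n`-th power of the parameter -/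
def nu (A : Type) [LinearOrder A] : ∀ _ : A, ℕ → PL A := fun o n => gen o ^ n

theorem interp [Infinite A] : @Interp (LC C) A (fam A) (strf g) Unit (par A) (nu A) := by
  refine @Interp.mk (LC C) A (fam A) (strf g) Unit (par A) (nu A) ?_ ?_ ?_
  · refine DP.iff (g := g) (R := fun i v => PowOf (gen i) (v 0)) (fun i v => ?_) DP.powO
    rw [powOf_gen]
    rfl
  · refine ⟨fun _ v => v 0 * v 1 = v 2, DP.term (g := g) (tM (tv C 0) (tv C 1)) (tv C 2), fun i w => ?_⟩
    show gen i ^ (w 0) * gen i ^ (w 1) = gen i ^ (w 2) ↔ _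
    rw [← pow_add]
    exact ⟨fun h => gen_pow_inj i h, fun h => by rw [h]⟩
  · exact ⟨fun i v => MUL (gen i) (v 0) (v 1) (v 2), DP.mul (g := g), fun i w => MUL_iff i _ _ _⟩

end

end Pool.Agent.H358R3.Plac
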