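import Pool.Agent.H358R3.Plac2
set_option autoImplicit false

/-! The first-order theory of the plactic monoid on an infinite totally ordered set is undecidable. -/

namespace Pool.Agent.H358R3.Plac

open FirstOrder FirstOrder.Language
open Pool.Agent.Helper967.ArithDef Pool.Agent.Helper967.ModelDef

section

variable {A : Type} [LinearOrder A] {C : Type} (g : C → A)

/-- `IsGen` is definable without parameters. -/
theorem isGen0 : @DM (LC C) Unit (fun _ => PL A) (fun _ => str g) Empty (fun _ e => e.elim)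
    (fun _ v => IsGen (v 0)) := by
  letI := str g
  refine DM.iff (R := fun _ v => (¬ v 0 = (1 : PL A)) ∧ ∀ U V : PL A, v 0 = U * V → (U = 1 ∨ V = 1))
    (fun i v => (gen_iff (v 0)).symm) ?_
  exact DM.and (DM.not (DM.term (Term.var (Sum.inr 0)) t1))
    (DM.all (DM.all (DM.imp (DM.term (Term.var (Sum.inr 2)) (tM (Term.var (Sum.inr 1)) (Term.var (Sum.inr 0))))
      (DM.or (DM.term (Term.var (Sum.inr 1)) t1) (DM.term (Term.var (Sum.inr 0)) t1)))))

/-- the power `x_0 ^ n` -/
def num (C : Type) : ℕ → (LC C).Term (Empty ⊕ Fin 2)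
  | 0 => t1
  | n + 1 => tM (num C n) (Term.var (Sum.inr 0))

theorem realize_num (n : ℕ) (v : Empty ⊕ Fin 2 → PL A) :
    @Term.realize (LC C) (PL A) (str g) _ v (num C n) = (v (Sum.inr 0)) ^ n := by
  induction n with
  | zero => exact (pow_zero _).symm
  | succ n ih =>
    have : @Term.realize (LC C) (PL A) (str g) _ v (num C (n + 1)) =
        @Term.realize (LC C) (PL A) (str g) _ v (num C n) * v (Sum.inr 0) := rfl
    rw [this, ih, pow_succ]

theorem primrec_num [Encodable C] : Primrec (fun n => termCode (num C n)) := by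
  have : (fun n => termCode (num C n)) = (fun n => Nat.rec (Nat.pair 1 0)
      (fun _ c => Nat.pair 3 (Nat.pair c (Nat.pair 0 0))) n) := by
    funext n
    induction n with
    | zero => rfl
    | succ n ih =>
      show Nat.pair 3 (Nat.pair (termCode (num C n)) (Nat.pair 0 0)) = _
      rw [ih]
  rw [this]
  refine Primrec.nat_rec₁ _ ?_
  exact Primrec₂.natPair.comp (Primrec.const 3)
    (Primrec₂.natPair.comp Primrec.snd (Primrec.const _))

/-- The sentence `∀ x₀ x₁, x₁ = x₀ ^ n → Ψ(x₀, x₁)`. -/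
def sig (Ψ : (LC C).BoundedFormula Empty 2) (n : ℕ) : (LC C).Sentence :=
  ((BoundedFormula.equal (Term.var (Sum.inr 1)) (num C n)).imp Ψ).all.all

theorem code_sig [Encodable C] (Ψ : (LC C).BoundedFormula Empty 2) (n : ℕ) : code (sig Ψ n) =
    Nat.pair 3 (Nat.pair 3 (Nat.pair 2 (Nat.pair (Nat.pair 1 (Nat.pair (Nat.pair 0 1) (termCode (num C n))))
      (code Ψ)))) := rfl

theorem primrec_sig [Encodable C] (Ψ : (LC C).BoundedFormula Empty 2) : Primrec (fun n => code (sig Ψ n)) := by
  simp only [code_sig]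
  refine Primrec₂.natPair.comp (Primrec.const _) (Primrec₂.natPair.comp (Primrec.const _)
    (Primrec₂.natPair.comp (Primrec.const _)
    (Primrec₂.natPair.comp (Primrec₂.natPair.comp (Primrec.const _)
      (Primrec₂.natPair.comp (Primrec.const _) primrec_num)) (Primrec.const _))))

theorem exists_formula [Infinite A] :
    ∃ Ψ : (LC C).BoundedFormula Empty 2, ∀ n : ℕ, TrueIn g (sig Ψ n) ↔ Halt n := by
  letI := str g
  obtain ⟨ψ, hψ⟩ := (@DN.closed (LC C) A (fam A) (strf g) Unit (par A) (nu A) interp).halt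
  obtain ⟨χ, hχ⟩ := isGen0 (A := A) g
  let r1 : Unit ⊕ ℕ → Empty ⊕ Fin 2 := fun s => match s with
    | .inl _ => .inr 0
    | .inr _ => .inr 1
  let r2 : Empty ⊕ ℕ → Empty ⊕ Fin 2 := fun s => match s with
    | .inl e => e.elim
    | .inr _ => .inr 0
  refine ⟨(BoundedFormula.relabel (n := 2) r2 χ).imp (BoundedFormula.relabel (n := 2) r1 ψ), fun n => ?_⟩
  have key1 : ∀ (v0 : Empty → PL A) (x0 : Fin 0 → PL A) (a b : PL A),
      (BoundedFormula.relabel (n := 2) r1 ψ : (LC C).BoundedFormula Empty 2).Realize v0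
        (Fin.snoc (Fin.snoc x0 a : Fin 1 → PL A) b : Fin 2 → PL A) ↔
        ψ.Realize (Sum.elim (fun _ => a) (fun _ => b)) := by
    intro v0 x0 a b
    rw [BoundedFormula.realize_relabel]
    have h1 : (Sum.elim v0 ((Fin.snoc (Fin.snoc x0 a : Fin 1 → PL A) b : Fin 2 → PL A) ∘ Fin.castAdd 0) ∘ r1) =
        Sum.elim (fun _ => a) (fun _ => b) := by
      funext s
      rcases s with e | k
      · rfl
      · rfl
    rw [h1]
    unfold Formula.Realize
    exact iff_of_eq (congrArg (BoundedFormula.Realize ψ _) (Subsingleton.elim _ _))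
  have key2 : ∀ (v0 : Empty → PL A) (x0 : Fin 0 → PL A) (a b : PL A),
      (BoundedFormula.relabel (n := 2) r2 χ : (LC C).BoundedFormula Empty 2).Realize v0
        (Fin.snoc (Fin.snoc x0 a : Fin 1 → PL A) b : Fin 2 → PL A) ↔ IsGen a := by
    intro v0 x0 a b
    rw [BoundedFormula.realize_relabel]
    have h1 : (Sum.elim v0 ((Fin.snoc (Fin.snoc x0 a : Fin 1 → PL A) b : Fin 2 → PL A) ∘ Fin.castAdd 0) ∘ r2) =
        Sum.elim (fun e : Empty => e.elim) (fun _ => a) := by
      funext s
      rcases s with e | k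
      · exact e.elim
      · rfl
    rw [h1]
    refine Iff.trans ?_ (hχ () (fun _ => a))
    unfold Formula.Realize
    exact iff_of_eq (congrArg (BoundedFormula.Realize χ _) (Subsingleton.elim _ _))
  unfold TrueIn sig Sentence.Realize Formula.Realize
  rw [BoundedFormula.realize_all]
  simp only [BoundedFormula.realize_all, BoundedFormula.realize_imp]
  constructor
  · intro hh
    obtain ⟨i⟩ : Nonempty A := inferInstance
    refine (hψ i (fun _ => n)).1 ?_
    refine (key1 _ _ (gen i) (gen i ^ n)).1 (hh (gen i) (gen i ^ n) ?_ ((key2 _ _ _ _).2 ⟨i, rfl⟩))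
    show _ = _
    rw [realize_num]
    rfl
  · intro hh a b hab hgen
    obtain ⟨i, rfl⟩ := (key2 _ _ _ _).1 hgen
    refine (key1 _ _ _ _).2 ?_
    have h1 : b = gen i ^ n := Eq.trans (b := _) hab (realize_num g n _)
    rw [h1]
    exact (hψ i (fun _ => n)).2 hh

/-- The first-order theory of the plactic monoid on an infinite totally ordered set is undecidable. -/
theorem undecidable [Infinite A] [Encodable C] : ¬ DecidableTheory g := by
  intro hc
  obtain ⟨Ψ, hΨ⟩ := exists_formula (A := A) g
  apply halt_not_computable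
  unfold DecidableTheory at hc
  obtain ⟨f, hf, hfe⟩ := ComputablePred.computable_iff.1 hc
  refine ComputablePred.computable_iff.2 ⟨fun n => f (code (sig Ψ n)),
    hf.comp (primrec_sig Ψ).to_comp, ?_⟩
  funext n
  have h1 := congrFun hfe (code (sig Ψ n))
  refine Eq.trans ?_ h1
  apply propext
  rw [← hΨ n]
  constructor
  · intro hh
    exact ⟨sig Ψ n, rfl, hh⟩
  · rintro ⟨ψ, hψ, hh⟩
    rw [← code_injective _ _ hψ]
    exact hh

end

end Pool.Agent.H358R3.Plac
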