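import Mathlib
set_option autoImplicit false

/-! Definitions: the plactic monoid on a totally ordered set, the language of monoids with constants
for generators, a Gödel numbering of its formulas, and decidability of the first-order theory of a
plactic monoid. -/

namespace Pool.Agent.H358R3.Plac

open FirstOrder FirstOrder.Language

/-- The Knuth relations over a totally ordered set: `x z y = z x y` for `x ≤ y < z`, and
`y x z = y z x` for `x < y ≤ z`. -/
inductive Knuth (A : Type) [LinearOrder A] : FreeMonoid A → FreeMonoid A → Prop
  | xzy (x y z : A) (h1 : x ≤ y) (h2 : y < z) :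
      Knuth A (FreeMonoid.of x * FreeMonoid.of z * FreeMonoid.of y)
        (FreeMonoid.of z * FreeMonoid.of x * FreeMonoid.of y)
  | yxz (x y z : A) (h1 : x < y) (h2 : y ≤ z) :
      Knuth A (FreeMonoid.of y * FreeMonoid.of x * FreeMonoid.of z)
        (FreeMonoid.of y * FreeMonoid.of z * FreeMonoid.of x)

/-- The plactic monoid `P(A)`: the monoid presented by the generators `a ∈ A` and the Knuth
relations. -/
abbrev PL (A : Type) [LinearOrder A] : Type := PresentedMonoid (Knuth A)

/-- The generator `a` of the plactic monoid. -/
def gen {A : Type} [LinearOrder A] (a : A) : PL A := PresentedMonoid.of (Knuth A) a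

/-- The function symbols of the language of monoids with constant symbols `c ∈ C`: the identity,
the constants, and the product. -/
inductive PFun (C : Type) : ℕ → Type
  | one : PFun C 0
  | cst (c : C) : PFun C 0
  | mul : PFun C 2

/-- The language of monoids with constant symbols `c ∈ C` (and no relation symbol but equality). -/
def LC (C : Type) : Language := ⟨PFun C, fun _ => Empty⟩

/-- The plactic monoid `P(A)` as a structure: the constant symbol `c` names the generator `g c`. -/
@[reducible] def str {A C : Type} [LinearOrder A] (g : C → A) : (LC C).Structure (PL A) where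
  funMap {n} f := match n, f with
    | _, PFun.one => fun _ => (1 : PL A)
    | _, PFun.cst c => fun _ => gen (g c)
    | _, PFun.mul => fun v => (v 0 * v 1 : PL A)
  RelMap r := Empty.elim r

/-- Gödel number of a term (with variables `x_0, ..., x_{k-1}`). -/
def termCode {C : Type} [Encodable C] {k : ℕ} : (LC C).Term (Empty ⊕ Fin k) → ℕ
  | .var (.inr i) => Nat.pair 0 i
  | .func PFun.one _ => Nat.pair 1 0
  | .func (PFun.cst c) _ => Nat.pair 2 (Encodable.encode c)
  | .func PFun.mul ts => Nat.pair 3 (Nat.pair (termCode (ts 0)) (termCode (ts 1)))

/-- Gödel number of a formula (of a sentence when `k = 0`). -/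
def code {C : Type} [Encodable C] : {k : ℕ} → (LC C).BoundedFormula Empty k → ℕ
  | _, .falsum => Nat.pair 0 0
  | _, .equal t₁ t₂ => Nat.pair 1 (Nat.pair (termCode t₁) (termCode t₂))
  | _, .imp φ ψ => Nat.pair 2 (Nat.pair (code φ) (code ψ))
  | _, .all φ => Nat.pair 3 (code φ)

/-- The sentence `φ` is true in the plactic monoid `P(A)`, the constant symbol `c` naming the
generator `g c`. -/
def TrueIn {A C : Type} [LinearOrder A] (g : C → A) (φ : (LC C).Sentence) : Prop :=
  letI := str g
  (PL A) ⊨ φ

/-- The first-order theory of the plactic monoid `P(A)`, with constants `c ∈ C` naming the generators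
`g c`, is decidable: some algorithm decides, given (the Gödel number of) a sentence, whether it is
true in `P(A)`. -/
def DecidableTheory {A C : Type} [LinearOrder A] [Encodable C] (g : C → A) : Prop :=
  ComputablePred (fun n : ℕ => ∃ φ : (LC C).Sentence, code φ = n ∧ TrueIn g φ)

/-! ### The Gödel numbering is injective -/

theorem termCode_injective {C : Type} [Encodable C] {k : ℕ} (s t : (LC C).Term (Empty ⊕ Fin k))
    (h : termCode s = termCode t) : s = t := by
  induction s generalizing t with
  | var x =>
    rcases x with x | i
    · exact x.elim
    · cases t with
      | var y =>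
        rcases y with y | j
        · exact y.elim
        · simp only [termCode, Nat.pair_eq_pair] at h
          rw [Fin.ext h.2]
      | func g us =>
        cases g <;> simp [termCode, Nat.pair_eq_pair] at h
  | func f ts ih =>
    cases t with
    | var y =>
      rcases y with y | j
      · exact y.elim
      · cases f <;> simp [termCode, Nat.pair_eq_pair] at h
    | func g us =>
      cases f <;> cases g <;> simp only [termCode, Nat.pair_eq_pair, false_and, true_and, OfNat.one_ne_ofNat,
        OfNat.ofNat_ne_one, Nat.reduceEqDiff] at h
      · congr 1; exact Subsingleton.elim _ _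
      · rename_i c d
        have := Encodable.encode_injective h
        subst this
        congr 1; exact Subsingleton.elim _ _
      · congr 1
        funext i
        fin_cases i
        · exact ih 0 _ h.1
        · exact ih 1 _ h.2

theorem code_injective {C : Type} [Encodable C] {k : ℕ} (φ ψ : (LC C).BoundedFormula Empty k)
    (h : code φ = code ψ) : φ = ψ := by
  induction φ with
  | falsum =>
    cases ψ with
    | falsum => rfl
    | equal a b => simp [code, Nat.pair_eq_pair] at h
    | rel r a => exact Empty.elim r
    | imp a b => simp [code, Nat.pair_eq_pair] at h
    | all a => simp [code, Nat.pair_eq_pair] at h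
  | equal a b =>
    cases ψ with
    | falsum => simp [code, Nat.pair_eq_pair] at h
    | equal c d =>
      simp only [code, Nat.pair_eq_pair, true_and] at h
      rw [termCode_injective _ _ h.1, termCode_injective _ _ h.2]
    | rel r a => exact Empty.elim r
    | imp a b => simp [code, Nat.pair_eq_pair] at h
    | all a => simp [code, Nat.pair_eq_pair] at h
  | rel r a => exact Empty.elim r
  | imp a b iha ihb =>
    cases ψ with
    | falsum => simp [code, Nat.pair_eq_pair] at h
    | equal c d => simp [code, Nat.pair_eq_pair] at h
    | rel r a => exact Empty.elim r
    | imp c d =>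
      simp only [code, Nat.pair_eq_pair, true_and] at h
      rw [iha _ h.1, ihb _ h.2]
    | all a => simp [code, Nat.pair_eq_pair] at h
  | all a iha =>
    cases ψ with
    | falsum => simp [code, Nat.pair_eq_pair] at h
    | equal c d => simp [code, Nat.pair_eq_pair] at h
    | rel r a => exact Empty.elim r
    | imp c d => simp [code, Nat.pair_eq_pair] at h
    | all c =>
      simp only [code, Nat.pair_eq_pair, true_and] at h
      rw [iha _ h]

end Pool.Agent.H358R3.Plac
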