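import Mathlib
import Pool.Agent.H358R3.EqDefs
import Pool.Agent.Helper707.Rel

/-!
A finitely presented associative algebra simulating a generalised Collatz map, with model in the
variety `x[y,z][t,u]v = 0`, `x[y,z,t]u = 0`: the relations and the derivation.
-/

namespace Pool.Agent.H358R3.Wk

open Pool.Agent.H358R3.EqP Pool.Agent.Helper707.Rel

theorem derive {B : Type*} [Ring B] (Y : Sys) (x y dx dy u s : B) (sb ka kb : ℕ → B)
    (hm : 0 < Y.m) (hxy : x * y = y * x) (h1 : dx * y = y * dx) (h2 : dy * x = x * dy)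
    (h3 : dx * u = 0) (h4 : dy * u = 0)
    (r1 : s * x ^ Y.m = s * y) (r2 : ∀ b < Y.m, sb b * x ^ (Y.a b) = sb b * y)
    (r3 : ∀ b < Y.m, kb b * dy = s - sb b)
    (r4 : ∀ b < Y.m, Y.H b = true → ka b * dx = s * x ^ b)
    (r5 : ∀ b < Y.m, Y.H b = false → ka b * dx = sb b * x ^ (Y.e b) - s * x ^ b) (N : ℕ)
    (hN : Y.Halts N) : s * x ^ N * u = 0 := by
  have cxy : ∀ i j, x ^ i * y ^ j = y ^ j * x ^ i := fun i j =>
    ((show Commute x y from hxy).pow_pow i j)
  have cdx : ∀ j, dx * y ^ j = y ^ j * dx := fun j => ((show Commute dx y from h1).pow_right j)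
  have cdy : ∀ j, dy * x ^ j = x ^ j * dy := fun j => ((show Commute dy x from h2).pow_right j)
  have g1 : ∀ j, s * x ^ (Y.m * j) = s * y ^ j := by
    intro j
    induction j with
    | zero => simp
    | succ j ih =>
      have := cxy (Y.m * j) 1
      rw [pow_one] at this
      rw [Nat.mul_succ, add_comm, pow_add, ← mul_assoc, r1, mul_assoc, ← this, ← mul_assoc, ih,
        mul_assoc, ← pow_succ]
  have g2 : ∀ b < Y.m, ∀ j, sb b * x ^ (Y.a b * j) = sb b * y ^ j := by
    intro b hb j
    induction j with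
    | zero => simp
    | succ j ih =>
      have := cxy (Y.a b * j) 1
      rw [pow_one] at this
      rw [Nat.mul_succ, add_comm, pow_add, ← mul_assoc, r2 b hb, mul_assoc, ← this, ← mul_assoc,
        ih, mul_assoc, ← pow_succ]
  have key : ∀ N, s * x ^ N * u = s * x ^ (N % Y.m) * y ^ (N / Y.m) * u := by
    intro N
    conv_lhs => rw [← Nat.div_add_mod N Y.m, pow_add]
    rw [← mul_assoc s, g1, mul_assoc s (y ^ _), ← cxy, ← mul_assoc]
  have kdx : ∀ b j, ka b * dx * y ^ j * u = 0 := by
    intro b j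
    rw [mul_assoc (ka b), cdx, mul_assoc, mul_assoc, h3, mul_zero, mul_zero]
  have kdy : ∀ b j, kb b * dy * x ^ j * u = 0 := by
    intro b j
    rw [mul_assoc (kb b), cdy, mul_assoc, mul_assoc, h4, mul_zero, mul_zero]
  induction hN with
  | halt N h =>
    rw [key, ← r4 _ (Nat.mod_lt _ hm) h, kdx]
  | step N h _ ih =>
    have hb := Nat.mod_lt N hm
    have e1 := kdx (N % Y.m) (N / Y.m)
    rw [r5 _ hb h, sub_mul, sub_mul, sub_eq_zero] at e1
    rw [key, ← e1, mul_assoc (sb _), cxy, ← mul_assoc, ← g2 _ hb, mul_assoc (sb _), ← pow_add]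
    have e2 := kdy (N % Y.m) (Y.a (N % Y.m) * (N / Y.m) + Y.e (N % Y.m))
    rw [r3 _ hb, sub_mul, sub_mul, sub_eq_zero] at e2
    rw [← e2]
    exact ih

/-- `l - l' + l''` -/
def tri (l l' l'' : List ℕ) : NPoly (Bool × ℕ × ℕ) :=
  [((true, 1, 0), w l), ((false, 1, 0), w l'), ((true, 1, 0), w l'')]

/-! letters: `0 = x`, `1 = y`, `2 = dx`, `3 = dy`, `4 = u`, `5 = s`, `6 + 3 b = s_b`,
`7 + 3 b = k_b`, `8 + 3 b = k'_b` -/

/-- the relations for the residue `b` -/
def relb (Y : Sys) (b : ℕ) : List (NPoly (Bool × ℕ × ℕ)) :=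
  [bin ((6 + 3 * b) :: List.replicate (Y.a b) 0) [6 + 3 * b, 1],
   tri [8 + 3 * b, 3] [5] [6 + 3 * b],
   if Y.H b then bin [7 + 3 * b, 2] (5 :: List.replicate b 0)
    else tri [7 + 3 * b, 2] ((6 + 3 * b) :: List.replicate (Y.e b) 0) (5 :: List.replicate b 0)]

/-- the relations -/
def rels (Y : Sys) : List (NPoly (Bool × ℕ × ℕ)) :=
  [bin [0, 1] [1, 0], bin [2, 1] [1, 2], bin [3, 0] [0, 3], mon [2, 4], mon [3, 4],
    bin (5 :: List.replicate Y.m 0) [5, 1]] ++ (List.range Y.m).flatMap (relb Y)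

/-- the target word `s x^N u` -/
def target (N : ℕ) : NPoly (Bool × ℕ × ℕ) := mon (5 :: (List.replicate N 0 ++ [4]))

/-- only the variables `x_0, …, x_{k-1}` occur -/
def VarsLt {K : Type*} (k : ℕ) (p : NPoly K) : Prop :=
  ∀ t ∈ p, t.2.1 < k ∧ ∀ i ∈ t.2.2, i < k

theorem varsLt_mon {k : ℕ} {l : List ℕ} (hl : l ≠ []) (h : ∀ i ∈ l, i < k) : VarsLt k (mon l) := by
  intro t ht
  simp only [mon, List.mem_singleton] at ht
  subst ht
  cases l with
  | nil => exact absurd rfl hl
  | cons a l => exact ⟨h a (by simp), fun i hi => h i (by simp only [w, List.tail_cons] at hi; simp [hi])⟩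

theorem varsLt_bin {k : ℕ} {l l' : List ℕ} (hl : l ≠ []) (h : ∀ i ∈ l, i < k) (hl' : l' ≠ [])
    (h' : ∀ i ∈ l', i < k) : VarsLt k (bin l l') := by
  intro t ht
  simp only [bin, List.mem_cons, List.not_mem_nil, or_false] at ht
  rcases ht with rfl | rfl
  · cases l with
    | nil => exact absurd rfl hl
    | cons a l => exact ⟨h a (by simp), fun i hi => h i (by simp only [w, List.tail_cons] at hi; simp [hi])⟩
  · cases l' with
    | nil => exact absurd rfl hl'
    | cons a l' => exact ⟨h' a (by simp), fun i hi => h' i (by simp only [w, List.tail_cons] at hi; simp [hi])⟩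

theorem varsLt_tri {k : ℕ} {l l' l'' : List ℕ} (hl : l ≠ []) (h : ∀ i ∈ l, i < k) (hl' : l' ≠ [])
    (h' : ∀ i ∈ l', i < k) (hl'' : l'' ≠ []) (h'' : ∀ i ∈ l'', i < k) :
    VarsLt k (tri l l' l'') := by
  intro t ht
  simp only [tri, List.mem_cons, List.not_mem_nil, or_false] at ht
  rcases ht with rfl | rfl | rfl
  · cases l with
    | nil => exact absurd rfl hl
    | cons a l => exact ⟨h a (by simp), fun i hi => h i (by simp only [w, List.tail_cons] at hi; simp [hi])⟩
  · cases l' with
    | nil => exact absurd rfl hl'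
    | cons a l' => exact ⟨h' a (by simp), fun i hi => h' i (by simp only [w, List.tail_cons] at hi; simp [hi])⟩
  · cases l'' with
    | nil => exact absurd rfl hl''
    | cons a l'' => exact ⟨h'' a (by simp), fun i hi => h'' i (by simp only [w, List.tail_cons] at hi; simp [hi])⟩

theorem target_vars (Y : Sys) (N : ℕ) : VarsLt (6 + 3 * Y.m) (target N) := by
  unfold target
  refine varsLt_mon (by simp) fun i hi => ?_
  simp only [List.mem_cons, List.mem_append, List.mem_replicate, List.not_mem_nil, or_false] at hi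
  omega

theorem rels_vars (Y : Sys) : ∀ p ∈ rels Y, VarsLt (6 + 3 * Y.m) p := by
  intro p hp
  unfold rels at hp
  rw [List.mem_append] at hp
  rcases hp with hp | hp
  · simp only [List.mem_cons, List.not_mem_nil, or_false] at hp
    rcases hp with rfl | rfl | rfl | rfl | rfl | rfl
    all_goals first
      | refine varsLt_bin (by simp) (fun i hi => ?_) (by simp) (fun i hi => ?_) <;>
        (simp only [List.mem_cons, List.mem_replicate, List.not_mem_nil, or_false] at hi; omega)
      | refine varsLt_mon (by simp) (fun i hi => ?_) <;>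
        (simp only [List.mem_cons, List.mem_replicate, List.not_mem_nil, or_false] at hi; omega)
  · rw [List.mem_flatMap] at hp
    obtain ⟨b, hb, hp⟩ := hp
    rw [List.mem_range] at hb
    unfold relb at hp
    simp only [List.mem_cons, List.not_mem_nil, or_false] at hp
    rcases hp with rfl | rfl | rfl
    · refine varsLt_bin (by simp) (fun i hi => ?_) (by simp) (fun i hi => ?_) <;>
        (simp only [List.mem_cons, List.mem_replicate, List.not_mem_nil, or_false] at hi; omega)
    · refine varsLt_tri (by simp) (fun i hi => ?_) (by simp) (fun i hi => ?_) (by simp)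
        (fun i hi => ?_) <;>
        (simp only [List.mem_cons, List.mem_replicate, List.not_mem_nil, or_false] at hi; omega)
    · split_ifs
      · refine varsLt_bin (by simp) (fun i hi => ?_) (by simp) (fun i hi => ?_) <;>
          (simp only [List.mem_cons, List.mem_replicate, List.not_mem_nil, or_false] at hi; omega)
      · refine varsLt_tri (by simp) (fun i hi => ?_) (by simp) (fun i hi => ?_) (by simp)
          (fun i hi => ?_) <;>
          (simp only [List.mem_cons, List.mem_replicate, List.not_mem_nil, or_false] at hi; omega)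

section
variable {F : Type*} [Field F]

theorem pval_tri {B : Type*} [Ring B] [Algebra F B] (v : ℕ → B) {l l' l'' : List ℕ} (h : l ≠ [])
    (h' : l' ≠ []) (h'' : l'' ≠ []) :
    pval v (toF F (tri l l' l'')) = (l.map v).prod - ((l'.map v).prod - (l''.map v).prod) := by
  simp only [pval, toF, tri, cval, List.map_cons, List.map_nil, List.sum_cons, List.sum_nil,
    wval_w v h, wval_w v h', wval_w v h'']
  simp [sub_eq_add_neg]
  exact add_comm _ _

/-- the relations in a unital algebra -/
theorem rels_iff {B : Type*} [Ring B] [Algebra F B] (Y : Sys) (v : ℕ → B) :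
    (∀ p ∈ rels Y, pval v (toF F p) = 0) ↔
      (v 0 * v 1 = v 1 * v 0 ∧ v 2 * v 1 = v 1 * v 2 ∧ v 3 * v 0 = v 0 * v 3 ∧ v 2 * v 4 = 0 ∧
        v 3 * v 4 = 0 ∧ v 5 * v 0 ^ Y.m = v 5 * v 1 ∧
        ∀ b < Y.m, v (6 + 3 * b) * v 0 ^ (Y.a b) = v (6 + 3 * b) * v 1 ∧
        v (8 + 3 * b) * v 3 = v 5 - v (6 + 3 * b) ∧
        (Y.H b = true → v (7 + 3 * b) * v 2 = v 5 * v 0 ^ b) ∧
        (Y.H b = false → v (7 + 3 * b) * v 2 = v (6 + 3 * b) * v 0 ^ (Y.e b) - v 5 * v 0 ^ b)) := by
  have key : ∀ b, (∀ p ∈ relb Y b, pval v (toF F p) = 0) ↔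
      (v (6 + 3 * b) * v 0 ^ (Y.a b) = v (6 + 3 * b) * v 1 ∧
        v (8 + 3 * b) * v 3 = v 5 - v (6 + 3 * b) ∧
        (Y.H b = true → v (7 + 3 * b) * v 2 = v 5 * v 0 ^ b) ∧
        (Y.H b = false → v (7 + 3 * b) * v 2 = v (6 + 3 * b) * v 0 ^ (Y.e b) - v 5 * v 0 ^ b)) := by
    intro b
    unfold relb
    rw [List.forall_mem_cons, List.forall_mem_cons, List.forall_mem_cons]
    rw [pval_bin v (by simp) (by simp), pval_tri v (by simp) (by simp) (by simp), sub_eq_zero,
      sub_eq_zero]
    cases hH : Y.H b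
    · simp only [Bool.false_eq_true, if_false]
      rw [pval_tri v (by simp) (by simp) (by simp), sub_eq_zero]
      simp
    · simp only [if_true]
      rw [pval_bin v (by simp) (by simp), sub_eq_zero]
      simp
  unfold rels
  rw [List.forall_mem_append]
  have h6 : (∀ p ∈ ([bin [0, 1] [1, 0], bin [2, 1] [1, 2], bin [3, 0] [0, 3], mon [2, 4],
      mon [3, 4], bin (5 :: List.replicate Y.m 0) [5, 1]] : List (NPoly (Bool × ℕ × ℕ))),
      pval v (toF F p) = 0) ↔ (v 0 * v 1 = v 1 * v 0 ∧ v 2 * v 1 = v 1 * v 2 ∧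
        v 3 * v 0 = v 0 * v 3 ∧ v 2 * v 4 = 0 ∧ v 3 * v 4 = 0 ∧ v 5 * v 0 ^ Y.m = v 5 * v 1) := by
    rw [List.forall_mem_cons, List.forall_mem_cons, List.forall_mem_cons, List.forall_mem_cons,
      List.forall_mem_cons, List.forall_mem_cons]
    rw [pval_bin v (by simp) (by simp), pval_bin v (by simp) (by simp),
      pval_bin v (by simp) (by simp), pval_bin v (by simp) (by simp), pval_mon v (by simp),
      pval_mon v (by simp), sub_eq_zero, sub_eq_zero, sub_eq_zero, sub_eq_zero]
    simp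
  rw [h6]
  constructor
  · rintro ⟨⟨a1, a2, a3, a4, a5, a6⟩, h2⟩
    refine ⟨a1, a2, a3, a4, a5, a6, fun b hb => (key b).1 fun p hp => h2 p ?_⟩
    rw [List.mem_flatMap]
    exact ⟨b, List.mem_range.2 hb, hp⟩
  · rintro ⟨a1, a2, a3, a4, a5, a6, h2⟩
    refine ⟨⟨a1, a2, a3, a4, a5, a6⟩, fun p hp => ?_⟩
    rw [List.mem_flatMap] at hp
    obtain ⟨b, hb, hp⟩ := hp
    exact (key b).2 (h2 b (List.mem_range.1 hb)) p hp

theorem target_val {B : Type*} [Ring B] [Algebra F B] (N : ℕ) (v : ℕ → B) :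
    pval v (toF F (target N)) = v 5 * v 0 ^ N * v 4 := by
  unfold target
  rw [pval_mon v (by simp)]
  simp [mul_assoc]

/-- the quasi-identity of a halting number holds in every algebra -/
theorem holds_of_halts {Y : Sys} (hm : 0 < Y.m) {N : ℕ} (hN : Y.Halts N) (A : Type*)
    [NonUnitalRing A] [Module F A] [IsScalarTower F A A] [SMulCommClass F A A] :
    Holds F A (rels Y, target N) := by
  intro v hv
  have hinj := Unitization.inr_injective (R := F) (A := A)
  have hmap : ∀ p : NPoly F, Unitization.inrNonUnitalAlgHom F A (pval v p)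
      = pval (fun i => Unitization.inrNonUnitalAlgHom F A (v i)) p := fun p => map_pval _ v p
  have h1 : ∀ p ∈ rels Y,
      pval (fun i => Unitization.inrNonUnitalAlgHom F A (v i)) (toF F p) = 0 := by
    intro p hp
    rw [← hmap, hv p hp, map_zero]
  rw [rels_iff] at h1
  obtain ⟨a1, a2, a3, a4, a5, a6, h2⟩ := h1
  apply hinj
  have h3 := hmap (toF F (target N))
  change Unitization.inrNonUnitalAlgHom F A (pval v (toF F (target N)))
    = Unitization.inrNonUnitalAlgHom F A 0
  rw [h3, target_val, map_zero]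
  exact derive Y _ _ _ _ _ _ (fun b => Unitization.inrNonUnitalAlgHom F A (v (6 + 3 * b)))
    (fun b => Unitization.inrNonUnitalAlgHom F A (v (7 + 3 * b)))
    (fun b => Unitization.inrNonUnitalAlgHom F A (v (8 + 3 * b))) hm a1 a2 a3 a4 a5 a6
    (fun b hb => (h2 b hb).1) (fun b hb => (h2 b hb).2.1) (fun b hb => (h2 b hb).2.2.1)
    (fun b hb => (h2 b hb).2.2.2) N hN

end

end Pool.Agent.H358R3.Wk
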