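import Mathlib
import Pool.Agent.H358R3.WkDerive

/-!
The model in the variety `x[y,z][t,u]v = 0`, `x[y,z,t]u = 0`, for a number which does not halt.
-/

universe u

namespace Pool.Agent.H358R3.Wk

open Pool.Agent.H358R3.EqP Pool.Agent.Helper707.Rel MvPolynomial

/-- The algebra satisfies `x[y,z][t,u]v = 0` and `x[y,z,t]u = 0`. -/
def InW (A : Type*) [NonUnitalRing A] : Prop :=
  (∀ x y z t u v : A, x * (y * z - z * y) * (t * u - u * t) * v = 0) ∧
  (∀ x y z t u : A, x * ((y * z - z * y) * t - t * (y * z - z * y)) * u = 0)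

section

variable (F : Type u) [Field F]

abbrev P0 := MvPolynomial (Fin 2) F

abbrev E0 := Module.End F (P0 F)

variable {F}

/-- multiplication -/
noncomputable def M (q : P0 F) : E0 F := LinearMap.mulLeft F q

/-- Euler operators -/
noncomputable def Th (i : Fin 2) : E0 F :=
  LinearMap.mulLeft F (X i) ∘ₗ (pderiv i : Derivation F (P0 F) (P0 F)).toLinearMap

/-- functional given by its values at the monomials -/
noncomputable def fn (f : ℕ → ℕ → F) : P0 F →ₗ[F] F :=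
  (basisMonomials (Fin 2) F).constr F fun s => f (s 0) (s 1)

/-- the functional as an operator -/
noncomputable def cst (φ : P0 F →ₗ[F] F) : E0 F := Algebra.linearMap F (P0 F) ∘ₗ φ

theorem M_apply (q p : P0 F) : M q p = q * p := rfl

theorem Th_apply (i : Fin 2) (p : P0 F) : Th i p = X i * pderiv i p := rfl

theorem cst_apply (φ : P0 F →ₗ[F] F) (p : P0 F) : cst φ p = C (φ p) := rfl

theorem fn_monomial (f : ℕ → ℕ → F) (s : Fin 2 →₀ ℕ) : fn f (monomial s 1) = f (s 0) (s 1) := by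
  unfold fn
  have := (basisMonomials (Fin 2) F).constr_basis F (fun s => f (s 0) (s 1)) s
  simpa [coe_basisMonomials] using this

theorem M_mul (p q : P0 F) : M p * M q = M (p * q) := by
  refine LinearMap.ext fun r => ?_
  change p * (q * r) = p * q * r
  rw [mul_assoc]

theorem M_comm (p q : P0 F) : M p * M q = M q * M p := by
  rw [M_mul, M_mul, mul_comm]

theorem M_add (p q : P0 F) : M (p + q) = M p + M q := by
  refine LinearMap.ext fun r => ?_
  change (p + q) * r = p * r + q * r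
  rw [add_mul]

theorem M_zero : M (0 : P0 F) = 0 := by
  refine LinearMap.ext fun r => ?_
  change 0 * r = 0
  rw [zero_mul]

theorem M_smul (c : F) (p : P0 F) : M (c • p) = c • M p := by
  refine LinearMap.ext fun r => ?_
  change (c • p) * r = c • (p * r)
  rw [smul_mul_assoc]

theorem M_pow (p : P0 F) (k : ℕ) : M p ^ (k + 1) = M (p ^ (k + 1)) := by
  induction k with
  | zero => simp
  | succ k ih => rw [pow_succ, ih, M_mul, ← pow_succ]

theorem Th_M (i : Fin 2) (q : P0 F) : Th i * M q - M q * Th i = M (X i * pderiv i q) := by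
  refine LinearMap.ext fun r => ?_
  change X i * pderiv i (q * r) - q * (X i * pderiv i r) = X i * pderiv i q * r
  rw [Derivation.leibniz]
  simp only [smul_eq_mul]
  ring

theorem Th_X (i j : Fin 2) (h : i ≠ j) : Th (F := F) i * M (X j) = M (X j) * Th i := by
  have := Th_M (F := F) i (X j)
  rw [pderiv_X_of_ne h.symm, mul_zero, M_zero, sub_eq_zero] at this
  exact this

theorem Th_cst (i : Fin 2) (φ : P0 F →ₗ[F] F) : Th i * cst φ = 0 := by
  refine LinearMap.ext fun r => ?_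
  change X i * pderiv i (C (φ r)) = 0
  rw [pderiv_C, mul_zero]

theorem fn_M0 (f : ℕ → ℕ → F) (k : ℕ) (s : Fin 2 →₀ ℕ) :
    fn f (X 0 ^ k * monomial s 1) = f (s 0 + k) (s 1) := by
  rw [X_pow_eq_monomial, monomial_mul, one_mul, fn_monomial]
  simp [add_comm]

theorem fn_M1 (f : ℕ → ℕ → F) (k : ℕ) (s : Fin 2 →₀ ℕ) :
    fn f (X 1 ^ k * monomial s 1) = f (s 0) (s 1 + k) := by
  rw [X_pow_eq_monomial, monomial_mul, one_mul, fn_monomial]
  simp [add_comm]

theorem cst_mul (φ : P0 F →ₗ[F] F) (S : E0 F) : cst φ * S = cst (φ ∘ₗ S) := rfl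

theorem fn_ext {φ ψ : P0 F →ₗ[F] F}
    (h : ∀ s : Fin 2 →₀ ℕ, φ (monomial s 1) = ψ (monomial s 1)) : φ = ψ :=
  (basisMonomials (Fin 2) F).ext fun s => by simpa [coe_basisMonomials] using h s

theorem cst_M0 (f : ℕ → ℕ → F) (k : ℕ) :
    cst (fn f) * M (X 0 ^ k) = cst (fn fun i j => f (i + k) j) := by
  rw [cst_mul]
  congr 1
  refine fn_ext fun s => ?_
  rw [LinearMap.comp_apply, M_apply, fn_M0, fn_monomial]

theorem cst_M1 (f : ℕ → ℕ → F) :
    cst (fn f) * M (X 1) = cst (fn fun i j => f i (j + 1)) := by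
  rw [cst_mul]
  congr 1
  refine fn_ext fun s => ?_
  have := fn_M1 f 1 s
  rw [pow_one] at this
  rw [LinearMap.comp_apply, M_apply, this, fn_monomial]

theorem cst_Th0 (f : ℕ → ℕ → F) :
    cst (fn f) * Th 0 = cst (fn fun i j => (i : F) * f i j) := by
  rw [cst_mul]
  congr 1
  refine fn_ext fun s => ?_
  rw [LinearMap.comp_apply, Th_apply, X_mul_pderiv_monomial, map_nsmul, fn_monomial, fn_monomial,
    nsmul_eq_mul]

theorem cst_Th1 (f : ℕ → ℕ → F) :
    cst (fn f) * Th 1 = cst (fn fun i j => (j : F) * f i j) := by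
  rw [cst_mul]
  congr 1
  refine fn_ext fun s => ?_
  rw [LinearMap.comp_apply, Th_apply, X_mul_pderiv_monomial, map_nsmul, fn_monomial, fn_monomial,
    nsmul_eq_mul]

theorem cst_sub (φ ψ : P0 F →ₗ[F] F) : cst φ - cst ψ = cst (φ - ψ) := by
  refine LinearMap.ext fun r => ?_
  rw [LinearMap.sub_apply, cst_apply, cst_apply, cst_apply, LinearMap.sub_apply, map_sub]

theorem fn_sub (f g : ℕ → ℕ → F) : fn f - fn g = fn fun i j => f i j - g i j := by
  refine fn_ext fun s => ?_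
  rw [LinearMap.sub_apply, fn_monomial, fn_monomial, fn_monomial]

/-- the pattern of the matrices -/
structure Pat (N : Matrix (Fin 4) (Fin 4) (E0 F)) : Prop where
  c0 : ∀ i, N i 0 = 0
  r3 : ∀ j, N 3 j = 0
  l21 : N 2 1 = 0
  d : ∃ p, N 1 1 = M p ∧ N 2 2 = M p
  s12 : ∀ q, ∃ c, N 1 2 * M q - M q * N 1 2 = M c

theorem Pat.add {N N' : Matrix (Fin 4) (Fin 4) (E0 F)} (h : Pat N) (h' : Pat N') :
    Pat (N + N') := by
  obtain ⟨p, h1, h2⟩ := h.d
  obtain ⟨p', h1', h2'⟩ := h'.d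
  refine ⟨fun i => ?_, fun j => ?_, ?_, ⟨p + p', ?_, ?_⟩, fun q => ?_⟩
  · rw [Matrix.add_apply, h.c0, h'.c0, add_zero]
  · rw [Matrix.add_apply, h.r3, h'.r3, add_zero]
  · rw [Matrix.add_apply, h.l21, h'.l21, add_zero]
  · rw [Matrix.add_apply, h1, h1', M_add]
  · rw [Matrix.add_apply, h2, h2', M_add]
  · obtain ⟨c, hc⟩ := h.s12 q
    obtain ⟨c', hc'⟩ := h'.s12 q
    refine ⟨c + c', ?_⟩
    rw [Matrix.add_apply, M_add, ← hc, ← hc']
    noncomm_ring

theorem Pat.smul (c : F) {N : Matrix (Fin 4) (Fin 4) (E0 F)} (h : Pat N) : Pat (c • N) := by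
  obtain ⟨p, h1, h2⟩ := h.d
  refine ⟨fun i => ?_, fun j => ?_, ?_, ⟨c • p, ?_, ?_⟩, fun q => ?_⟩
  · rw [Matrix.smul_apply, h.c0, smul_zero]
  · rw [Matrix.smul_apply, h.r3, smul_zero]
  · rw [Matrix.smul_apply, h.l21, smul_zero]
  · rw [Matrix.smul_apply, h1, M_smul]
  · rw [Matrix.smul_apply, h2, M_smul]
  · obtain ⟨d, hd⟩ := h.s12 q
    refine ⟨c • d, ?_⟩
    rw [Matrix.smul_apply, M_smul, ← hd, smul_sub, smul_mul_assoc, mul_smul_comm]

theorem Pat.zero : Pat (0 : Matrix (Fin 4) (Fin 4) (E0 F)) :=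
  ⟨fun _ => rfl, fun _ => rfl, rfl, ⟨0, by rw [M_zero]; rfl, by rw [M_zero]; rfl⟩,
    fun q => ⟨0, by rw [M_zero]; simp⟩⟩

theorem mul4 (N N' : Matrix (Fin 4) (Fin 4) (E0 F)) (i j : Fin 4) :
    (N * N') i j = N i 0 * N' 0 j + N i 1 * N' 1 j + N i 2 * N' 2 j + N i 3 * N' 3 j := by
  rw [Matrix.mul_apply, Fin.sum_univ_four]

theorem Pat.mul {N N' : Matrix (Fin 4) (Fin 4) (E0 F)} (h : Pat N) (h' : Pat N') :
    Pat (N * N') := by
  obtain ⟨p, h1, h2⟩ := h.d
  obtain ⟨p', h1', h2'⟩ := h'.d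
  refine ⟨fun i => ?_, fun j => ?_, ?_, ⟨p * p', ?_, ?_⟩, fun q => ?_⟩
  · simp [mul4, h'.c0]
  · simp [mul4, h.r3]
  · simp [mul4, h.c0, h.l21, h'.l21, h'.r3]
  · simp [mul4, h.c0, h'.l21, h'.r3, h1, h1', M_mul]
  · simp [mul4, h.c0, h.l21, h'.r3, h2, h2', M_mul]
  · obtain ⟨c, hc⟩ := h.s12 q
    obtain ⟨c', hc'⟩ := h'.s12 q
    refine ⟨p * c' + c * p', ?_⟩
    rw [mul4, h.c0, h'.r3, zero_mul, mul_zero, add_zero, zero_add, h1, h2', M_add, ← M_mul,
      ← M_mul, ← hc, ← hc']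
    have e1 := M_comm p q
    have e2 := M_comm p' q
    calc (M p * N' 1 2 + N 1 2 * M p') * M q - M q * (M p * N' 1 2 + N 1 2 * M p')
        = M p * (N' 1 2 * M q) + N 1 2 * (M p' * M q) - (M q * M p) * N' 1 2
          - M q * N 1 2 * M p' := by
            simp only [mul_add, add_mul, ← mul_assoc]; abel
      _ = M p * (N' 1 2 * M q) + N 1 2 * (M q * M p') - (M p * M q) * N' 1 2
          - M q * N 1 2 * M p' := by rw [e1, e2]
      _ = _ := by simp only [mul_sub, sub_mul, ← mul_assoc]; abel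

/-- the algebra of the matrices with the pattern -/
noncomputable def PatAlg (F : Type u) [Field F] :
    NonUnitalSubalgebra F (Matrix (Fin 4) (Fin 4) (E0 F)) where
  carrier := {N | Pat N}
  add_mem' := fun h h' => Pat.add h h'
  zero_mem' := Pat.zero
  mul_mem' := fun h h' => Pat.mul h h'
  smul_mem' := fun c _ h => Pat.smul c h

/-- the pattern of the commutators -/
structure Cm (N : Matrix (Fin 4) (Fin 4) (E0 F)) : Prop where
  c0 : ∀ i, N i 0 = 0
  r3 : ∀ j, N 3 j = 0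
  l21 : N 2 1 = 0
  l11 : N 1 1 = 0
  l22 : N 2 2 = 0
  l12 : ∃ c, N 1 2 = M c

theorem cm_comm {N N' : Matrix (Fin 4) (Fin 4) (E0 F)} (h : Pat N) (h' : Pat N') :
    Cm (N * N' - N' * N) := by
  obtain ⟨p, h1, h2⟩ := h.d
  obtain ⟨p', h1', h2'⟩ := h'.d
  refine ⟨fun i => ?_, fun j => ?_, ?_, ?_, ?_, ?_⟩
  · simp [mul4, h.c0, h'.c0]
  · simp [mul4, h.r3, h'.r3]
  · simp [mul4, h.c0, h.l21, h'.l21, h'.r3, h'.c0, h.r3]
  · simp [mul4, h.c0, h'.l21, h'.r3, h1, h1', M_mul, h'.c0, h.l21, h.r3, mul_comm p p']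
  · simp [mul4, h.c0, h'.l21, h'.r3, h2, h2', M_mul, h'.c0, h.l21, h.r3, mul_comm p p']
  · obtain ⟨c, hc⟩ := h.s12 p'
    obtain ⟨c', hc'⟩ := h'.s12 p
    refine ⟨c - c', ?_⟩
    have e : M (c - c') = M c - M c' := by
      rw [eq_sub_iff_add_eq, ← M_add, sub_add_cancel]
    rw [Matrix.sub_apply, mul4, mul4, h.c0, h'.r3, h.r3, h'.c0, zero_mul, mul_zero, zero_mul,
      mul_zero, h1, h2', h1', h2, e, ← hc, ← hc']
    abel

theorem inW_pat : InW (PatAlg F) := by
  constructor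
  · rintro ⟨x, hx⟩ ⟨y, hy⟩ ⟨z, hz⟩ ⟨t, ht⟩ ⟨u, hu⟩ ⟨v, hv⟩
    apply Subtype.ext
    change x * (y * z - z * y) * (t * u - u * t) * v = 0
    have hx : Pat x := hx
    have hv : Pat v := hv
    have k1 : Cm (y * z - z * y) := cm_comm hy hz
    have k2 : Cm (t * u - u * t) := cm_comm ht hu
    generalize y * z - z * y = K at k1 ⊢
    generalize t * u - u * t = L at k2 ⊢
    ext i j : 2
    simp only [mul4, hx.c0, k1.c0, k2.c0, hv.r3, k2.r3, k1.r3, k1.l21, k1.l11, k1.l22, k2.l21,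
      k2.l11, k2.l22, Matrix.zero_apply, mul_zero, zero_mul, add_zero, zero_add]
  · rintro ⟨x, hx⟩ ⟨y, hy⟩ ⟨z, hz⟩ ⟨t, ht⟩ ⟨u, hu⟩
    apply Subtype.ext
    change x * ((y * z - z * y) * t - t * (y * z - z * y)) * u = 0
    have hx : Pat x := hx
    have hu : Pat u := hu
    have ht : Pat t := ht
    obtain ⟨p, h1, h2⟩ := ht.d
    have k1 : Cm (y * z - z * y) := cm_comm hy hz
    generalize y * z - z * y = K at k1 ⊢
    obtain ⟨c, hc⟩ := k1.l12
    ext i j : 2
    simp only [mul4, Matrix.sub_apply, hx.c0, k1.c0, hu.r3, ht.c0, ht.r3, k1.r3, k1.l21, k1.l11,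
      k1.l22, ht.l21, h1, h2, hc, Matrix.zero_apply, mul_zero, zero_mul, add_zero, zero_add,
      M_comm c p, sub_self]

end

end Pool.Agent.H358R3.Wk
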