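import Mathlib
import Pool.Agent.H358R3.WkModel

/-!
The letters in the model, and failure of the quasi-identity for a number which does not halt.
-/

universe u

namespace Pool.Agent.H358R3.Wk

open Pool.Agent.H358R3.EqP Pool.Agent.Helper707.Rel MvPolynomial

section

variable (F : Type u) [Field F] (Y : Sys)

open Classical in
/-- indicator of the numbers which do not halt -/
noncomputable def chi (n : ℕ) : F := if Y.Halts n then 0 else 1

noncomputable def lam (i j : ℕ) : F := chi F Y (i + Y.m * j)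

noncomputable def lamb (b i j : ℕ) : F := chi F Y (i + Y.a b * j)

noncomputable def kap (b i j : ℕ) : F :=
  if Y.H b then lam F Y (i + b) j / i else (lamb F Y b (i + Y.e b) j - lam F Y (i + b) j) / i

noncomputable def kapp (b i j : ℕ) : F := (lam F Y i j - lamb F Y b i j) / j

/-- constant coefficient -/
noncomputable def eps : P0 F →ₗ[F] F := fn fun i j => if i = 0 ∧ j = 0 then 1 else 0

/-- the letters -/
noncomputable def Lt : ℕ → Matrix (Fin 4) (Fin 4) (E0 F)
  | 0 => Matrix.single 1 1 (M (X 0)) + Matrix.single 2 2 (M (X 0))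
  | 1 => Matrix.single 1 1 (M (X 1)) + Matrix.single 2 2 (M (X 1))
  | 2 => Matrix.single 1 2 (Th 0)
  | 3 => Matrix.single 1 2 (Th 1)
  | 4 => Matrix.single 2 3 (cst (eps F))
  | 5 => Matrix.single 0 2 (cst (fn (lam F Y)))
  | k + 6 => if k % 3 = 0 then Matrix.single 0 2 (cst (fn (lamb F Y (k / 3)))) else
      if k % 3 = 1 then Matrix.single 0 1 (cst (fn (kap F Y (k / 3)))) else
        Matrix.single 0 1 (cst (fn (kapp F Y (k / 3))))

theorem Lt6 (b : ℕ) : Lt F Y (6 + 3 * b) = Matrix.single 0 2 (cst (fn (lamb F Y b))) := by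
  rw [add_comm]
  change (if 3 * b % 3 = 0 then _ else _) = _
  have h1 : 3 * b % 3 = 0 := by omega
  have h2 : 3 * b / 3 = b := by omega
  rw [if_pos h1, h2]

theorem Lt7 (b : ℕ) : Lt F Y (7 + 3 * b) = Matrix.single 0 1 (cst (fn (kap F Y b))) := by
  rw [show 7 + 3 * b = (3 * b + 1) + 6 by ring]
  change (if (3 * b + 1) % 3 = 0 then _ else _) = _
  have h0 : ¬ (3 * b + 1) % 3 = 0 := by omega
  have h1 : (3 * b + 1) % 3 = 1 := by omega
  have h2 : (3 * b + 1) / 3 = b := by omega
  rw [if_neg h0, if_pos h1, h2]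

theorem Lt8 (b : ℕ) : Lt F Y (8 + 3 * b) = Matrix.single 0 1 (cst (fn (kapp F Y b))) := by
  rw [show 8 + 3 * b = (3 * b + 2) + 6 by ring]
  change (if (3 * b + 2) % 3 = 0 then _ else _) = _
  have h0 : ¬ (3 * b + 2) % 3 = 0 := by omega
  have h1 : ¬ (3 * b + 2) % 3 = 1 := by omega
  have h2 : (3 * b + 2) / 3 = b := by omega
  rw [if_neg h0, if_neg h1, h2]

variable {F Y}

theorem pat_single {i j : Fin 4} (S : E0 F) (h : i = 0 ∧ j = 2 ∨ i = 0 ∧ j = 1 ∨ i = 2 ∧ j = 3) :
    Pat (Matrix.single i j S) := by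
  rcases h with ⟨rfl, rfl⟩ | ⟨rfl, rfl⟩ | ⟨rfl, rfl⟩ <;>
  refine ⟨fun i => ?_, fun j => ?_, ?_, ⟨0, ?_, ?_⟩, fun q => ⟨0, ?_⟩⟩ <;>
    simp [Matrix.single_apply, M_zero]

theorem pat_diag (p : P0 F) : Pat (Matrix.single 1 1 (M p) + Matrix.single 2 2 (M p)) := by
  refine ⟨fun i => ?_, fun j => ?_, ?_, ⟨p, ?_, ?_⟩, fun q => ⟨0, ?_⟩⟩ <;>
    simp [Matrix.single_apply, M_zero]

theorem pat_th (i : Fin 2) : Pat (Matrix.single 1 2 (Th (F := F) i)) := by
  refine ⟨fun i => ?_, fun j => ?_, ?_, ⟨0, ?_, ?_⟩, fun q => ⟨X i * pderiv i q, ?_⟩⟩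
  · simp [Matrix.single_apply]
  · simp [Matrix.single_apply]
  · simp [Matrix.single_apply]
  · simp [Matrix.single_apply, M_zero]
  · simp [Matrix.single_apply, M_zero]
  · rw [Matrix.single_apply_same, Th_M]

theorem pat_Lt (k : ℕ) : Pat (Lt F Y k) := by
  match k with
  | 0 => exact pat_diag _
  | 1 => exact pat_diag _
  | 2 => exact pat_th _
  | 3 => exact pat_th _
  | 4 => exact pat_single _ (by simp)
  | 5 => exact pat_single _ (by simp)
  | k + 6 =>
    change Pat (if k % 3 = 0 then _ else _)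
    split_ifs
    · exact pat_single _ (by simp)
    · exact pat_single _ (by simp)
    · exact pat_single _ (by simp)

theorem single_pow (S : E0 F) (k : ℕ) :
    Matrix.single 0 2 S * Lt F Y 0 ^ k = Matrix.single 0 2 (S * M (X 0 ^ k)) := by
  induction k with
  | zero =>
    rw [pow_zero, pow_zero, mul_one]
    congr 1
    refine LinearMap.ext fun r => ?_
    change S r = S (1 * r)
    rw [one_mul]
  | succ k ih =>
    rw [pow_succ, ← mul_assoc, ih]
    change Matrix.single 0 2 (S * M (X 0 ^ k)) *
      (Matrix.single 1 1 (M (X 0)) + Matrix.single 2 2 (M (X 0))) = _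
    rw [mul_add, Matrix.single_mul_single_of_ne _ _ _ _ (by decide),
      Matrix.single_mul_single_same, zero_add, mul_assoc, M_mul, ← pow_succ]

theorem single_one (S : E0 F) :
    Matrix.single 0 2 S * Lt F Y 1 = Matrix.single 0 2 (S * M (X 1)) := by
  change Matrix.single 0 2 S *
      (Matrix.single 1 1 (M (X 1)) + Matrix.single 2 2 (M (X 1))) = _
  rw [mul_add, Matrix.single_mul_single_of_ne _ _ _ _ (by decide),
      Matrix.single_mul_single_same, zero_add]

theorem chi_step {b : ℕ} (hb : b < Y.m) (hH : Y.H b = false) (j : ℕ) :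
    chi F Y (Y.e b + Y.a b * j) = chi F Y (b + Y.m * j) := by
  have hm : 0 < Y.m := by omega
  have h1 : (b + Y.m * j) % Y.m = b := by
    rw [Nat.add_mul_mod_self_left, Nat.mod_eq_of_lt hb]
  have h2 : (b + Y.m * j) / Y.m = j := by
    rw [Nat.add_mul_div_left _ _ hm, Nat.div_eq_of_lt hb, zero_add]
  have h3 : Y.next (b + Y.m * j) = Y.e b + Y.a b * j := by
    unfold Sys.next
    rw [h1, h2, add_comm]
  unfold chi
  have : Y.Halts (Y.e b + Y.a b * j) ↔ Y.Halts (b + Y.m * j) := by
    constructor
    · intro h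
      refine Sys.Halts.step _ (by rw [h1]; exact hH) ?_
      rw [h3]; exact h
    · intro h
      cases h with
      | halt _ h => rw [h1, hH] at h; exact absurd h (by decide)
      | step _ _ h => rw [h3] at h; exact h
  by_cases h : Y.Halts (b + Y.m * j)
  · rw [if_pos h, if_pos (this.2 h)]
  · rw [if_neg h, if_neg fun h' => h (this.1 h')]

theorem chi_halt {b : ℕ} (hb : b < Y.m) (hH : Y.H b = true) (j : ℕ) :
    chi F Y (b + Y.m * j) = 0 := by
  have h1 : (b + Y.m * j) % Y.m = b := by
    rw [Nat.add_mul_mod_self_left, Nat.mod_eq_of_lt hb]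
  unfold chi
  rw [if_pos (Sys.Halts.halt _ (by rw [h1]; exact hH))]

theorem single_sub' (i j : Fin 4) (a b : E0 F) :
    Matrix.single i j a - Matrix.single i j b = Matrix.single i j (a - b) := by
  ext i' j' : 2
  rw [Matrix.sub_apply, Matrix.single_apply, Matrix.single_apply, Matrix.single_apply]
  split_ifs
  · rfl
  · rw [sub_zero]

theorem rels_model [CharZero F] : ∀ p ∈ rels Y, pval (Lt F Y) (toF F p) = 0 := by
  rw [rels_iff]
  refine ⟨?_, ?_, ?_, ?_, ?_, ?_, fun b hb => ⟨?_, ?_, ?_, ?_⟩⟩
  · change (Matrix.single 1 1 (M (X 0)) + Matrix.single 2 2 (M (X 0))) *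
      (Matrix.single 1 1 (M (X 1)) + Matrix.single 2 2 (M (X 1))) =
      (Matrix.single 1 1 (M (X 1)) + Matrix.single 2 2 (M (X 1))) *
      (Matrix.single 1 1 (M (X 0)) + Matrix.single 2 2 (M (X 0)))
    rw [add_mul, mul_add, mul_add, add_mul, mul_add, mul_add]
    simp only [Matrix.single_mul_single_same]
    rw [Matrix.single_mul_single_of_ne _ _ _ _ (by decide),
      Matrix.single_mul_single_of_ne _ _ _ _ (by decide),
      Matrix.single_mul_single_of_ne _ _ _ _ (by decide),
      Matrix.single_mul_single_of_ne _ _ _ _ (by decide), M_comm]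
  · change Matrix.single 1 2 (Th 0) *
      (Matrix.single 1 1 (M (X 1)) + Matrix.single 2 2 (M (X 1))) =
      (Matrix.single 1 1 (M (X 1)) + Matrix.single 2 2 (M (X 1))) * Matrix.single 1 2 (Th 0)
    rw [mul_add, add_mul, Matrix.single_mul_single_of_ne _ _ _ _ (by decide),
      Matrix.single_mul_single_same, Matrix.single_mul_single_same,
      Matrix.single_mul_single_of_ne _ _ _ _ (by decide), zero_add, add_zero,
      Th_X 0 1 (by decide)]
  · change Matrix.single 1 2 (Th 1) *
      (Matrix.single 1 1 (M (X 0)) + Matrix.single 2 2 (M (X 0))) =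
      (Matrix.single 1 1 (M (X 0)) + Matrix.single 2 2 (M (X 0))) * Matrix.single 1 2 (Th 1)
    rw [mul_add, add_mul, Matrix.single_mul_single_of_ne _ _ _ _ (by decide),
      Matrix.single_mul_single_same, Matrix.single_mul_single_same,
      Matrix.single_mul_single_of_ne _ _ _ _ (by decide), zero_add, add_zero,
      Th_X 1 0 (by decide)]
  · change Matrix.single 1 2 (Th 0) * Matrix.single 2 3 (cst (eps F)) = 0
    rw [Matrix.single_mul_single_same, Th_cst, Matrix.single_zero]
  · change Matrix.single 1 2 (Th 1) * Matrix.single 2 3 (cst (eps F)) = 0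
    rw [Matrix.single_mul_single_same, Th_cst, Matrix.single_zero]
  · change Matrix.single 0 2 (cst (fn (lam F Y))) * _ = Matrix.single 0 2 (cst (fn (lam F Y))) * _
    rw [single_pow, single_one, cst_M0, cst_M1]
    congr 3
    funext i j
    unfold lam
    congr 1
    ring
  · rw [Lt6, single_pow, single_one, cst_M0, cst_M1]
    congr 3
    funext i j
    unfold lamb
    congr 1
    ring
  · rw [Lt8, Lt6]
    change Matrix.single 0 1 _ * Matrix.single 1 2 (Th 1) = Matrix.single 0 2 (cst (fn (lam F Y))) - _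
    rw [Matrix.single_mul_single_same, cst_Th1, single_sub', cst_sub, fn_sub]
    congr 3
    funext i j
    unfold kapp
    rcases Nat.eq_zero_or_pos j with rfl | hj
    · unfold lam lamb
      simp
    · have : (j : F) ≠ 0 := by exact_mod_cast hj.ne'
      field_simp
  · intro hH
    rw [Lt7]
    change Matrix.single 0 1 _ * Matrix.single 1 2 (Th 0) = Matrix.single 0 2 (cst (fn (lam F Y))) * _
    rw [Matrix.single_mul_single_same, cst_Th0, single_pow, cst_M0]
    congr 3
    funext i j
    unfold kap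
    rw [if_pos hH]
    rcases Nat.eq_zero_or_pos i with rfl | hi
    · unfold lam
      rw [zero_add, chi_halt hb hH]
      simp
    · have : (i : F) ≠ 0 := by exact_mod_cast hi.ne'
      field_simp
  · intro hH
    rw [Lt7, Lt6]
    change Matrix.single 0 1 _ * Matrix.single 1 2 (Th 0)
      = _ - Matrix.single 0 2 (cst (fn (lam F Y))) * _
    rw [Matrix.single_mul_single_same, cst_Th0, single_pow, single_pow, cst_M0, cst_M0,
      single_sub', cst_sub, fn_sub]
    congr 3
    funext i j
    unfold kap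
    rw [hH, if_neg (by decide)]
    rcases Nat.eq_zero_or_pos i with rfl | hi
    · unfold lam lamb
      rw [zero_add, zero_add, chi_step hb hH]
      simp
    · have : (i : F) ≠ 0 := by exact_mod_cast hi.ne'
      field_simp

theorem target_model {N : ℕ} (hN : ¬ Y.Halts N) : pval (Lt F Y) (toF F (target N)) ≠ 0 := by
  rw [target_val]
  intro h
  have h1 : Matrix.single (0 : Fin 4) (2 : Fin 4) (cst (fn (lam F Y))) * Lt F Y 0 ^ N *
    Matrix.single 2 3 (cst (eps F)) = 0 := h
  rw [single_pow, Matrix.single_mul_single_same, cst_M0] at h1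
  have h2 := congrFun (congrFun h1 0) 3
  rw [Matrix.single_apply_same, Matrix.zero_apply] at h2
  have h3 : (cst (fn fun i j => lam F Y (i + N) j) * cst (eps F) : E0 F) (monomial 0 1) = 0 := by
    rw [h2]; rfl
  rw [Module.End.mul_apply, cst_apply, cst_apply] at h3
  unfold eps at h3
  rw [fn_monomial] at h3
  have h4 : (C (1 : F) : P0 F) = monomial 0 1 := rfl
  simp only [Finsupp.coe_zero, Pi.zero_apply, and_self, if_true] at h3
  rw [h4, fn_monomial] at h3
  unfold lam chi at h3
  simp [hN] at h3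

/-- the quasi-identity of a number which does not halt fails in the model -/
theorem not_holds [CharZero F] {N : ℕ} (hN : ¬ Y.Halts N) :
    ¬ Holds F (PatAlg F) (rels Y, target N) := by
  intro h
  let v : ℕ → PatAlg F := fun k => ⟨Lt F Y k, pat_Lt k⟩
  have hmap : ∀ p : NPoly F, ((pval v p : PatAlg F) : Matrix (Fin 4) (Fin 4) (E0 F))
      = pval (Lt F Y) p := fun p => map_pval (NonUnitalSubalgebraClass.subtype (PatAlg F)) v p
  have h1 := h v fun p hp => Subtype.ext ((hmap _).trans (rels_model p hp))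
  have h2 : pval (Lt F Y) (toF F (target N)) = 0 := by
    rw [← hmap]
    exact congrArg Subtype.val h1
  exact target_model hN h2

end

end Pool.Agent.H358R3.Wk
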