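import Mathlib
import Pool.Agent.Helper707.Num
import Pool.Agent.H358R3.WkModel2

/-!
The word problem in the varieties containing the variety of the identities `x[y,z][t,u]v = 0`,
`x[y,z,t]u = 0`.
-/

universe u

namespace Pool.Agent.H358R3.Wk

open Pool.Agent.H358R3.EqP Pool.Agent.Helper707.Rel

/-- The algebra `A` satisfies the identities `p = 0`, `p ∈ I`. -/
def InV {K : Type*} [Field K] (I : Set (NPoly K)) (A : Type*) [NonUnitalRing A] [Module K A] :
    Prop :=
  ∀ p ∈ I, ∀ v : ℕ → A, pval v p = 0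

/-- `g = 0` in the algebra presented by the generators `x_0, x_1, …` and the relations `p = 0`,
`p ∈ R`, in the variety of the identities `I`: the polynomial `g` vanishes at each assignment in an
algebra of the variety at which all the `p ∈ R` vanish. -/
def ZeroIn {K : Type u} [Field K] (I : Set (NPoly K)) (R : List (NPoly K)) (g : NPoly K) : Prop :=
  ∀ (A : Type u) [NonUnitalRing A] [Module K A] [IsScalarTower K A A] [SMulCommClass K A A],
    InV I A → ∀ v : ℕ → A, (∀ p ∈ R, pval v p = 0) → pval v g = 0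

/-- The polynomial with the coefficients coded by natural numbers. -/
def dec {K : Type*} (ν : ℕ → K) (g : NPoly ℕ) : NPoly K := g.map fun t => (ν t.1, t.2)

/-- the target with a coded coefficient -/
def tg (c N : ℕ) : NPoly ℕ := [(c, (5, List.replicate N 0 ++ [4]))]

theorem primrec_tg (c S p : ℕ) : Primrec fun x : ℕ => tg c (S * p ^ x) := by
  have hpow : Primrec₂ ((· ^ ·) : ℕ → ℕ → ℕ) := Primrec₂.unpaired'.1 Nat.Primrec.pow
  have h1 : Primrec fun x : ℕ => S * p ^ x :=
    Primrec.nat_mul.comp (Primrec.const S) (hpow.comp (Primrec.const p) Primrec.id)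
  have h2 : Primrec fun x : ℕ => (List.range (S * p ^ x)).map fun _ => (0 : ℕ) :=
    Primrec.list_map (Primrec.list_range.comp h1) (Primrec.const 0).to₂
  have h3 : Primrec fun x : ℕ => ((List.range (S * p ^ x)).map fun _ => (0 : ℕ)) ++ [4] :=
    Primrec.list_append.comp h2 (Primrec.const [4])
  have h4 : Primrec fun x : ℕ => ([(c,
      ((5, ((List.range (S * p ^ x)).map fun _ => (0 : ℕ)) ++ [4]) : Word))] : NPoly ℕ) :=
    Primrec.list_cons.comp (Primrec.pair (Primrec.const _) (Primrec.pair (Primrec.const 5) h3))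
      (Primrec.const [])
  refine h4.of_eq fun x => ?_
  unfold tg
  simp [List.map_const']

theorem dec_tg {K : Type*} [Field K] (ν : ℕ → K) {c : ℕ} (hc : ν c = 1) (N : ℕ) :
    dec ν (tg c N) = toF K (target N) := by
  unfold dec tg toF target mon w cval
  simp [hc]

theorem tg_vars (Y : Sys) (c N : ℕ) : VarsLt (6 + 3 * Y.m) (tg c N) := by
  intro t ht
  simp only [tg, List.mem_singleton] at ht
  subst ht
  refine ⟨by simp only; omega, fun i hi => ?_⟩
  simp only [List.mem_append, List.mem_replicate, List.mem_cons, List.not_mem_nil, or_false] at hi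
  omega

theorem zeroIn_iff {K : Type u} [Field K] [CharZero K] (I : Set (NPoly K))
    (hI : ∀ (A : Type u) [NonUnitalRing A] [Module K A] [IsScalarTower K A A]
      [SMulCommClass K A A], InW A → InV I A) {Y : Sys} (hm : 0 < Y.m) (N : ℕ) :
    ZeroIn I ((rels Y).map (toF K)) (toF K (target N)) ↔ Y.Halts N := by
  constructor
  · intro h
    by_contra hN
    refine not_holds (F := K) hN fun v hv => ?_
    refine h (PatAlg K) (hI _ inW_pat) v fun p hp => ?_
    rw [List.mem_map] at hp
    obtain ⟨q, hq, rfl⟩ := hp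
    exact hv q hq
  · intro hN A _ _ _ _ _ v hv
    refine holds_of_halts hm hN A v fun p hp => hv _ ?_
    exact List.mem_map_of_mem hp

theorem main : ∃ (k : ℕ) (R : List (NPoly (Bool × ℕ × ℕ))), (∀ p ∈ R, VarsLt k p) ∧
    ∀ (K : Type u) [Field K] [CharZero K] (I : Set (NPoly K)),
      (∀ (A : Type u) [NonUnitalRing A] [Module K A] [IsScalarTower K A A]
        [SMulCommClass K A A], InW A → InV I A) →
      ∀ ν : ℕ → K, 1 ∈ Set.range ν →
        ¬ ComputablePred fun g : NPoly ℕ =>
          VarsLt k g ∧ ZeroIn I (R.map (toF K)) (dec ν g) := by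
  obtain ⟨Y, S, p, hm, hund⟩ := Pool.Agent.Helper707.Num.exists_undecidable_sys
  refine ⟨6 + 3 * Y.m, rels Y, rels_vars Y, fun K _ _ I hI ν hν hc => ?_⟩
  obtain ⟨c, hcν⟩ := hν
  obtain ⟨f, hf, hfe⟩ := ComputablePred.computable_iff.1 hc
  apply hund
  rw [ComputablePred.computable_iff]
  refine ⟨fun x => f (tg c (S * p ^ x)), hf.comp (primrec_tg c S p).to_comp, ?_⟩
  funext x
  have h2 := congrFun hfe (tg c (S * p ^ x))
  rw [← h2]
  refine propext ?_
  rw [dec_tg ν hcν, zeroIn_iff I hI hm]
  exact ⟨fun h => ⟨tg_vars Y c _, h⟩, fun h => h.2⟩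

end Pool.Agent.H358R3.Wk
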