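import Mathlib
set_option autoImplicit false

/-! The field `ℚ^ab` of abelian algebraic numbers, generated by the roots of unity, and its ring of
integers. -/

namespace Pool.Agent.H358R3

open Polynomial NumberField

/-- The field `ℚ^ab ⊆ ℂ`, generated over `ℚ` by all roots of unity. -/
noncomputable def Qab : IntermediateField ℚ ℂ := IntermediateField.adjoin ℚ {z : ℂ | ∃ n : ℕ, n ≠ 0 ∧ z ^ n = 1}

/-- `exp (2 π i / n)` -/
noncomputable def zt (n : ℕ) : ℂ := Complex.exp (2 * Real.pi * Complex.I / n)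

lemma zt_prim (n : ℕ) (hn : n ≠ 0) : IsPrimitiveRoot (zt n) n := Complex.isPrimitiveRoot_exp n hn

lemma root_mem {z : ℂ} {n : ℕ} (hn : n ≠ 0) (hz : z ^ n = 1) : z ∈ Qab :=
  IntermediateField.subset_adjoin ℚ _ ⟨n, hn, hz⟩

lemma zt_mem (n : ℕ) (hn : n ≠ 0) : zt n ∈ Qab := root_mem hn (zt_prim n hn).pow_eq_one

lemma zt_isIntegral (n : ℕ) (hn : n ≠ 0) : IsIntegral ℚ (zt n) :=
  ((zt_prim n hn).isIntegral (Nat.pos_of_ne_zero hn)).tower_top

lemma zt_adj_le {n m : ℕ} (hm : m ≠ 0) (h : n ∣ m) :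
    IntermediateField.adjoin ℚ {zt n} ≤ IntermediateField.adjoin ℚ {zt m} := by
  rw [IntermediateField.adjoin_simple_le_iff]
  have hn : n ≠ 0 := fun h0 => hm (by subst h0; exact Nat.eq_zero_of_zero_dvd h)
  have h1 : zt n ^ m = 1 := by
    obtain ⟨k, rfl⟩ := h
    rw [pow_mul, (zt_prim n hn).pow_eq_one, one_pow]
  have : NeZero m := ⟨hm⟩
  obtain ⟨i, -, hi⟩ := (zt_prim m hm).eq_pow_of_pow_eq_one h1
  rw [← hi]
  exact pow_mem (IntermediateField.mem_adjoin_simple_self ℚ (zt m)) i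

lemma exists_mem {x : ℂ} (hx : x ∈ Qab) : ∃ n : ℕ, n ≠ 0 ∧ x ∈ IntermediateField.adjoin ℚ {zt n} := by
  unfold Qab at hx
  induction hx using IntermediateField.adjoin_induction with
  | mem x hx =>
    obtain ⟨n, hn, hx⟩ := hx
    refine ⟨n, hn, ?_⟩
    have : NeZero n := ⟨hn⟩
    obtain ⟨i, -, hi⟩ := (zt_prim n hn).eq_pow_of_pow_eq_one hx
    rw [← hi]
    exact pow_mem (IntermediateField.mem_adjoin_simple_self ℚ (zt n)) i
  | algebraMap q => exact ⟨1, one_ne_zero, algebraMap_mem _ q⟩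
  | add x y _ _ h1 h2 =>
    obtain ⟨n, hn, h1⟩ := h1
    obtain ⟨m, hm, h2⟩ := h2
    have hnm := mul_ne_zero hn hm
    exact ⟨n * m, hnm, add_mem (zt_adj_le hnm (Dvd.intro _ rfl) h1) (zt_adj_le hnm (Dvd.intro_left _ rfl) h2)⟩
  | inv x _ h1 =>
    obtain ⟨n, hn, h1⟩ := h1
    exact ⟨n, hn, inv_mem h1⟩
  | mul x y _ _ h1 h2 =>
    obtain ⟨n, hn, h1⟩ := h1
    obtain ⟨m, hm, h2⟩ := h2
    have hnm := mul_ne_zero hn hm
    exact ⟨n * m, hnm, mul_mem (zt_adj_le hnm (Dvd.intro _ rfl) h1) (zt_adj_le hnm (Dvd.intro_left _ rfl) h2)⟩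

lemma exists_intpoly (f : ℚ[X]) : ∃ (D : ℕ) (g : ℤ[X]), D ≠ 0 ∧ ∀ z : ℂ, (D : ℂ) * aeval z f = aeval z g := by
  induction f using Polynomial.induction_on' with
  | add p q hp hq =>
    obtain ⟨D, g, hD, hg⟩ := hp
    obtain ⟨E, h, hE, hh⟩ := hq
    refine ⟨D * E, (E : ℤ[X]) * g + (D : ℤ[X]) * h, mul_ne_zero hD hE, fun z => ?_⟩
    have h1 := hg z
    have h2 := hh z
    simp only [map_add, map_mul, map_natCast, ← h1, ← h2]
    push_cast
    ring
  | monomial n a =>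
    refine ⟨a.den, (a.num : ℤ[X]) * X ^ n, a.den_nz, fun z => ?_⟩
    simp only [aeval_monomial, map_mul, map_intCast, map_pow, aeval_X, eq_ratCast]
    rw [← mul_assoc]
    congr 1
    have := Rat.den_mul_eq_num a
    exact_mod_cast this

/-- Every element of `ℚ^ab` is `g (ζ_n) / D` with an integral polynomial `g`. -/
lemma exists_rep {x : ℂ} (hx : x ∈ Qab) : ∃ (n : ℕ) (D : ℕ) (g : ℤ[X]), n ≠ 0 ∧ D ≠ 0 ∧
    (D : ℂ) * x = aeval (zt n) g := by
  obtain ⟨n, hn, h⟩ := exists_mem hx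
  have h2 : x ∈ (IntermediateField.adjoin ℚ {zt n}).toSubalgebra := h
  rw [IntermediateField.adjoin_simple_toSubalgebra_of_isAlgebraic (zt_isIntegral n hn).isAlgebraic,
    Algebra.adjoin_singleton_eq_range_aeval] at h2
  obtain ⟨f, hf⟩ := h2
  obtain ⟨D, g, hD, hg⟩ := exists_intpoly f
  exact ⟨n, D, g, hn, hD, by rw [← hg, ← hf]; rfl⟩

end Pool.Agent.H358R3
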