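import Pool.Agent.H358R3.Zab2
set_option autoImplicit false

/-! Roots of unity in the ring of abelian algebraic integers. -/

namespace Pool.Agent.H358R3

open Polynomial NumberField

/-- If two units have sum `4` then they are real. -/
lemma unit_eq {u v : Zab} (hu : IsUnit u) (hv : IsUnit v) (h : u + v = 4) : cR v = v := by
  obtain ⟨u', hu'⟩ := hu.exists_right_inv
  obtain ⟨v', hv'⟩ := hv.exists_right_inv
  have huc : cR u * cR u' = 1 := by rw [← map_mul, hu', map_one]
  have hvc : cR v * cR v' = 1 := by rw [← map_mul, hv', map_one]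
  have hc : cR u + cR v = 4 := by
    rw [← map_add, h, map_ofNat]
  have hw : (1 - v * cR v') * cR u' = 0 := by
    apply small
    intro φ
    have h4 : (4 : Zab) * ((1 - v * cR v') * cR u') = u * cR u' - v * cR v' := by
      linear_combination (-cR u') * h + (v * cR v' * cR u') * hc - (v * cR v') * huc - (v * cR u') * hvc
    have h5 : (4 : ℂ) * φ ((1 - v * cR v') * cR u') = φ (u * cR u') - φ (v * cR v') := by
      rw [← map_sub, ← h4, map_mul φ (4 : Zab), map_ofNat]
    have h6 : ∀ a b : Zab, a * b = 1 → ‖φ (a * cR b)‖ = 1 := by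
      intro a b hab
      rw [map_mul, hom_cR, norm_mul, RCLike.norm_conj, ← norm_mul, ← map_mul, hab, map_one, norm_one]
    have h7 : ‖(4 : ℂ) * φ ((1 - v * cR v') * cR u')‖ ≤ 2 := by
      rw [h5]
      refine (norm_sub_le _ _).trans ?_
      rw [h6 u u' hu', h6 v v' hv']
      norm_num
    rw [norm_mul] at h7
    have h8 : ‖(4 : ℂ)‖ = 4 := by simp
    rw [h8] at h7
    linarith
  have h1 : 1 - v * cR v' = 0 := by
    linear_combination cR u * hw - (1 - v * cR v') * huc
  linear_combination (cR v) * h1 + v * hvc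

/-- Roots of unity. -/
def IsRU (x : Zab) : Prop := ∃ n : ℕ, n ≠ 0 ∧ x ^ n = 1

lemma IsRU.mul {x y : Zab} (hx : IsRU x) (hy : IsRU y) : IsRU (x * y) := by
  obtain ⟨n, hn, hx⟩ := hx
  obtain ⟨m, hm, hy⟩ := hy
  refine ⟨n * m, mul_ne_zero hn hm, ?_⟩
  rw [mul_pow, pow_mul, hx, one_pow, mul_comm n m, pow_mul, hy, one_pow, one_mul]

lemma IsRU.pow {x : Zab} (hx : IsRU x) (k : ℕ) : IsRU (x ^ k) := by
  obtain ⟨n, hn, hx⟩ := hx
  refine ⟨n, hn, ?_⟩
  rw [← pow_mul, mul_comm, pow_mul, hx, one_pow]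

/-- The imaginary unit -/
noncomputable def iR : Zab := zR 4 (by norm_num)

lemma iR_sq : iR * iR = -1 := by
  have h := (zR_prim 4 (by norm_num))
  have h2 := h.pow_eq_one
  have h3 : zR 4 (by norm_num) ^ 2 ≠ 1 := h.pow_ne_one_of_pos_of_lt (by norm_num) (by norm_num)
  have h4 : (iR ^ 2 - 1) * (iR ^ 2 + 1) = 0 := by
    have : iR ^ 4 = 1 := h2
    linear_combination this
  rcases mul_eq_zero.1 h4 with h5 | h5
  · exact absurd (sub_eq_zero.1 h5) h3
  · linear_combination h5

lemma cR_iR : cR iR = - iR := by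
  have h := cR_root iR 4 (by norm_num) (zR_prim 4 (by norm_num)).pow_eq_one
  linear_combination (-iR) * h + (cR iR) * iR_sq

/-- A unit `u` such that `1 - u ^ 4` is a unit as well is a root of unity. -/
lemma ru_of_unit {u : Zab} (hu : IsUnit u) (h : IsUnit (1 - u ^ 4)) : IsRU u := by
  obtain ⟨w, hw⟩ := hu.exists_right_inv
  have e1 : 1 - u ^ 4 = (1 - u) * ((1 + u) * (1 + u ^ 2)) := by ring
  have e2 : 1 - u ^ 4 = (1 + u) * ((1 - u) * (1 + u ^ 2)) := by ring
  have e3 : 1 - u ^ 4 = (1 - iR * u) * ((1 + iR * u) * (1 - u ^ 2)) := by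
    linear_combination (u ^ 2 * (1 - u ^ 2)) * iR_sq
  have e4 : 1 - u ^ 4 = (1 + iR * u) * ((1 - iR * u) * (1 - u ^ 2)) := by
    linear_combination (u ^ 2 * (1 - u ^ 2)) * iR_sq
  have h1 : IsUnit (1 - u) := isUnit_of_mul_isUnit_left (e1 ▸ h)
  have h2 : IsUnit (1 + u) := isUnit_of_mul_isUnit_left (e2 ▸ h)
  have h3 : IsUnit (1 - iR * u) := isUnit_of_mul_isUnit_left (e3 ▸ h)
  have h4 : IsUnit (1 + iR * u) := isUnit_of_mul_isUnit_left (e4 ▸ h)
  have hwu : IsUnit w := IsUnit.of_mul_eq_one u (by rw [mul_comm]; exact hw)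
  have hi : IsUnit iR := IsUnit.of_mul_eq_one (-iR) (by linear_combination -iR_sq)
  -- the first real unit
  have hA : cR (u + w) = u + w := by
    have := unit_eq (u := -((1 - u) * (1 - u) * w)) (v := (1 + u) * (1 + u) * w)
      ((h1.mul h1).mul hwu).neg ((h2.mul h2).mul hwu) (by linear_combination 4 * hw)
    have e : (1 + u) * (1 + u) * w = 2 + (u + w) := by linear_combination (2 + u) * hw
    rw [e, map_add, map_ofNat] at this
    linear_combination this
  have hB : cR (iR * (u - w)) = iR * (u - w) := by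
    have := unit_eq (u := (1 - iR * u) * (1 - iR * u) * (iR * w)) (v := -((1 + iR * u) * (1 + iR * u) * (iR * w)))
      ((h3.mul h3).mul (hi.mul hwu)) ((h4.mul h4).mul (hi.mul hwu)).neg
      (by linear_combination (-4 * iR * iR) * hw - 4 * iR_sq)
    have e : -((1 + iR * u) * (1 + iR * u) * (iR * w)) = 2 + iR * (u - w) := by
      linear_combination (-2 * iR * iR - iR * iR * iR * u) * hw - (2 + iR * u) * iR_sq
    rw [e, map_add, map_ofNat] at this
    linear_combination this
  rw [map_add] at hA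
  rw [map_mul, map_sub, cR_iR] at hB
  have hC : cR u - cR w = w - u := by
    linear_combination iR * hB + (cR u - cR w + u - w) * iR_sq
  have hD : (2 : Zab) * (cR u - w) = 0 := by linear_combination hA + hC
  have hE : cR u = w := by
    rcases mul_eq_zero.1 hD with h0 | h0
    · exact absurd h0 two_ne_zero
    · exact sub_eq_zero.1 h0
  apply kronecker
  intro φ
  have h5 : φ u * (starRingEnd ℂ) (φ u) = 1 := by
    rw [← hom_cR, hE, ← map_mul, hw, map_one]
  rw [Complex.mul_conj, Complex.normSq_eq_norm_sq] at h5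
  have h6 : ‖φ u‖ ^ 2 = 1 := by exact_mod_cast h5
  exact (pow_eq_one_iff_of_nonneg (norm_nonneg _) two_ne_zero).1 h6

/-- `1 - ξ` is a unit if the order of the root of unity `ξ` is not a prime power. -/
lemma unit_one_sub {ξ : Zab} {p q : ℕ} (hp : p.Prime) (hq : q.Prime) (hpq : p ≠ q)
    (h : IsPrimitiveRoot ξ (p * q)) : IsUnit (1 - ξ) := by
  have h0 : p * q ≠ 0 := mul_ne_zero hp.ne_zero hq.ne_zero
  have h1 : eval 1 (cyclotomic (p * q) Zab) = 1 := by
    apply eval_one_cyclotomic_not_prime_pow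
    intro r hr k hk
    have h2 : p ∣ r ^ k := hk ▸ Dvd.intro _ rfl
    have h3 : q ∣ r ^ k := hk ▸ Dvd.intro_left _ rfl
    have h4 := (Nat.prime_dvd_prime_iff_eq hp hr).1 (hp.dvd_of_dvd_pow h2)
    have h5 := (Nat.prime_dvd_prime_iff_eq hq hr).1 (hq.dvd_of_dvd_pow h3)
    exact hpq (h4.trans h5.symm)
  rw [cyclotomic_eq_prod_X_sub_primitiveRoots h, eval_prod] at h1
  have h2 : (1 - ξ) ∣ 1 := by
    have h3 : ξ ∈ primitiveRoots (p * q) Zab := (mem_primitiveRoots (Nat.pos_of_ne_zero h0)).2 h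
    have h4 := Finset.dvd_prod_of_mem (fun μ => eval 1 (X - C μ)) h3
    rw [h1] at h4
    simpa using h4
  exact isUnit_of_dvd_one h2

/-- The roots of unity are definable. -/
def Mu (x : Zab) : Prop := ∃ u v : Zab, IsUnit u ∧ IsUnit (1 - u ^ 4) ∧ IsUnit v ∧ IsUnit (1 - v ^ 4) ∧ x = u * v

lemma mu_iff (x : Zab) : Mu x ↔ IsRU x := by
  constructor
  · rintro ⟨u, v, hu, hu4, hv, hv4, rfl⟩
    exact (ru_of_unit hu hu4).mul (ru_of_unit hv hv4)
  · rintro ⟨n, hn, hx⟩
    obtain ⟨p, hpn, hp⟩ := Nat.exists_infinite_primes (4 * n + 1)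
    obtain ⟨q, hqp, hq⟩ := Nat.exists_infinite_primes (p + 1)
    have hpq : p ≠ q := by omega
    have h0 : p * q ≠ 0 := mul_ne_zero hp.ne_zero hq.ne_zero
    set η := zR (p * q) h0 with hη
    have hprim := zR_prim (p * q) h0
    have hηu : IsUnit η := hprim.isUnit h0
    have hxu : IsUnit x := IsUnit.of_pow_eq_one hx hn
    obtain ⟨w, hw⟩ := hηu.exists_right_inv
    have hwu : IsUnit w := IsUnit.of_mul_eq_one η (by rw [mul_comm]; exact hw)
    have hc4n : (4 * n).Coprime (p * q) := by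
      have h1 : (4 * n).Coprime p := by
        rw [Nat.coprime_comm, hp.coprime_iff_not_dvd]
        intro hd
        have := Nat.le_of_dvd (by omega) hd
        omega
      have h2 : (4 * n).Coprime q := by
        rw [Nat.coprime_comm, hq.coprime_iff_not_dvd]
        intro hd
        have := Nat.le_of_dvd (by omega) hd
        omega
      exact h1.mul_right h2
    have hU : IsUnit (1 - η ^ (4 * n)) := unit_one_sub hp hq hpq (hprim.pow_of_coprime _ hc4n)
    refine ⟨x * η, w, hxu.mul hηu, ?_, hwu, ?_, by rw [mul_assoc, hw, mul_one]⟩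
    · have hd : (1 - (x * η) ^ 4) ∣ (1 - η ^ (4 * n)) := by
        have h1 : (1 - (x * η) ^ 4) ∣ (1 ^ n - ((x * η) ^ 4) ^ n) := sub_dvd_pow_sub_pow _ _ n
        have h2 : ((x * η) ^ 4) ^ n = η ^ (4 * n) := by
          rw [← pow_mul, mul_pow, mul_comm 4 n, pow_mul, hx, one_pow, one_mul]
        rwa [h2, one_pow] at h1
      exact isUnit_of_dvd_unit hd hU
    · have h1 : IsUnit (1 - η ^ 4) := by
        have hd : (1 - η ^ 4) ∣ (1 - η ^ (4 * n)) := by
          have h1 : (1 - η ^ 4) ∣ (1 ^ n - (η ^ 4) ^ n) := sub_dvd_pow_sub_pow _ _ n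
          rwa [← pow_mul, one_pow] at h1
        exact isUnit_of_dvd_unit hd hU
      have h2 : 1 - w ^ 4 = -(w ^ 4 * (1 - η ^ 4)) := by
        have : (η * w) ^ 4 = 1 := by rw [hw, one_pow]
        linear_combination -this
      rw [h2]
      exact ((hwu.pow 4).mul h1).neg

end Pool.Agent.H358R3
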