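import Pool.Agent.H358R3.Zab4
set_option autoImplicit false

/-! The real elements are definable in the ring of abelian algebraic integers. -/

namespace Pool.Agent.H358R3

open Polynomial NumberField

lemma exists_sym (g : ℤ[X]) : ∃ h : ℤ[X], ∀ ζ w : Zab, ζ * w = 1 → aeval ζ g + aeval w g = aeval (ζ + w) h := by
  induction g using Polynomial.induction_on' with
  | add f g hf hg =>
    obtain ⟨h1, hf⟩ := hf
    obtain ⟨h2, hg⟩ := hg
    refine ⟨h1 + h2, fun ζ w hz => ?_⟩
    rw [map_add, map_add, map_add, ← hf ζ w hz, ← hg ζ w hz]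
    ring
  | monomial n a =>
    refine ⟨C a * dickson 1 (1 : ℤ) n, fun ζ w hz => ?_⟩
    rw [aeval_monomial, aeval_monomial, map_mul, aeval_C, ← mul_add, ← dickson_one_one_eval_add_inv ζ w hz n]
    congr 1
    rw [← eval_map_algebraMap, map_dickson, map_one]

/-- In a field of characteristic `p`, the solutions of `y ^ p = y` are the images of the integers. -/
lemma mem_prime_field {K : Type*} [Field K] (p : ℕ) (hp : p.Prime) [CharP K p] (y : K) (hy : y ^ p = y) :
    ∃ a : ℕ, y = a := by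
  classical
  by_contra hcon
  push Not at hcon
  have : Fact p.Prime := ⟨hp⟩
  set S : Finset K := (Finset.range p).image (fun a : ℕ => (a : K)) with hS
  have hinj : Set.InjOn (fun a : ℕ => (a : K)) (Finset.range p) := by
    intro a ha b hb hab
    have h1 := (CharP.cast_eq_iff_mod_eq K p (a := a) (b := b)).1 hab
    have ha' := Finset.mem_range.1 (Finset.mem_coe.1 ha)
    have hb' := Finset.mem_range.1 (Finset.mem_coe.1 hb)
    rwa [Nat.mod_eq_of_lt ha', Nat.mod_eq_of_lt hb'] at h1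
  have hcard : S.card = p := by
    rw [hS, Finset.card_image_of_injOn hinj, Finset.card_range]
  have hyS : y ∉ S := by
    rw [hS, Finset.mem_image]
    rintro ⟨a, -, ha⟩
    exact hcon a ha.symm
  have hne : (X ^ p - X : K[X]) ≠ 0 := FiniteField.X_pow_card_sub_X_ne_zero K hp.one_lt
  have hsub : insert y S ⊆ (X ^ p - X : K[X]).roots.toFinset := by
    intro z hz
    rw [Multiset.mem_toFinset, mem_roots hne, IsRoot, eval_sub, eval_pow, eval_X, sub_eq_zero]
    rcases Finset.mem_insert.1 hz with rfl | hz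
    · exact hy
    · rw [hS, Finset.mem_image] at hz
      obtain ⟨a, -, rfl⟩ := hz
      have : ((a : ZMod p)) ^ p = a := ZMod.pow_card _
      have h2 := congrArg (ZMod.castHom (dvd_refl p) K) this
      rw [map_pow, map_natCast] at h2
      exact h2
  have h1 := Finset.card_le_card hsub
  rw [Finset.card_insert_of_notMem hyS, hcard] at h1
  have h2 := (Multiset.toFinset_card_le (X ^ p - X : K[X]).roots).trans (card_roots' _)
  rw [FiniteField.X_pow_card_sub_X_natDegree_eq K hp.one_lt] at h2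
  omega

/-- The formula defining the real elements. -/
def RD (x : Zab) : Prop := ∃ ζ w : Zab, Mu ζ ∧ ζ * w = 1 ∧ ∃ D : Zab, DZ D ∧ D ≠ 0 ∧ ∀ p : Zab, DZ p →
  (∃ u v : Zab, u * p + v * D = 1) → (∃ a : Zab, DZ a ∧ ¬ ∃ u v : Zab, u * p + v * (ζ + w - a) = 1) →
  (∃ a : Zab, DZ a ∧ ¬ ∃ u v : Zab, u * p + v * (x - a) = 1)

/-- a proper two-generated ideal is contained in a maximal ideal -/
lemma exists_max {a b : Zab} (h : ¬ ∃ u v : Zab, u * a + v * b = 1) :
    ∃ P : Ideal Zab, P.IsMaximal ∧ a ∈ P ∧ b ∈ P := by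
  have h1 : Ideal.span {a, b} ≠ (⊤ : Ideal Zab) := by
    intro h2
    apply h
    rw [Ideal.eq_top_iff_one, Ideal.mem_span_pair] at h2
    exact h2
  obtain ⟨P, hP, hle⟩ := Ideal.exists_le_maximal _ h1
  exact ⟨P, hP, hle (Ideal.subset_span (by simp)), hle (Ideal.subset_span (by simp))⟩

lemma not_of_max {a b : Zab} (P : Ideal Zab) (hP : P.IsMaximal) (ha : a ∈ P) (hb : b ∈ P) :
    ¬ ∃ u v : Zab, u * a + v * b = 1 := by
  rintro ⟨u, v, h⟩
  apply hP.ne_top
  rw [Ideal.eq_top_iff_one, ← h]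
  exact P.add_mem (P.mul_mem_left _ ha) (P.mul_mem_left _ hb)

lemma int_bezout {p D : ℤ} (hD : D ≠ 0) (h : ∃ u v : Zab, u * p + v * D = 1) : ∃ s t : ℤ, s * p + t * D = 1 := by
  obtain ⟨u, v, huv⟩ := h
  have hg : Int.gcd p D = 1 := by
    have h1 : ((Int.gcd p D : ℤ) : Zab) ∣ ((1 : ℤ) : Zab) := by
      rw [Int.cast_one, ← huv]
      exact dvd_add ((Int.cast_dvd_cast _ _ (Int.gcd_dvd_left p D)).mul_left _)
        ((Int.cast_dvd_cast _ _ (Int.gcd_dvd_right p D)).mul_left _)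
    have h2 := int_dvd (by
      have := Int.gcd_pos_of_ne_zero_right p hD
      omega) h1
    have h3 := Int.eq_one_of_dvd_one (Int.natCast_nonneg _) h2
    exact_mod_cast h3
  refine ⟨Int.gcdA p D, Int.gcdB p D, ?_⟩
  have := Int.gcd_eq_gcd_ab p D
  rw [hg] at this
  push_cast at this
  linear_combination -this

lemma rd_of_real {x : Zab} (hx : cR x = x) : RD x := by
  obtain ⟨n, hn, D, g, hD, h⟩ := rep x
  have hz : (zR n hn) ^ n = 1 := (zR_prim n hn).pow_eq_one
  have hzw : zR n hn * cR (zR n hn) = 1 := cR_root _ n hn hz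
  obtain ⟨f, hf⟩ := exists_sym g
  have h1 : ((2 * D : ℕ) : Zab) * x = aeval (zR n hn + cR (zR n hn)) f := by
    rw [← hf _ _ hzw, ← h]
    have h3 : cR (aeval (zR n hn) g) = aeval (cR (zR n hn)) g := by
      have h2 : cR (aeval (zR n hn) g) = cR.toIntAlgHom (aeval (zR n hn) g) := rfl
      rw [h2, ← aeval_algHom_apply]
      rfl
    rw [← h3, ← h, map_mul, hx, map_natCast]
    push_cast
    ring
  set y := zR n hn + cR (zR n hn) with hy
  set E : ℤ := ((2 * D : ℕ) : ℤ) with hE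
  have hE0 : E ≠ 0 := by rw [hE]; positivity
  have hEc : ((2 * D : ℕ) : Zab) = (E : Zab) := by rw [hE]; push_cast; rfl
  rw [hEc] at h1
  refine ⟨zR n hn, cR (zR n hn), (mu_iff _).2 ⟨n, hn, hz⟩, hzw, (E : Zab), dz_int E, Int.cast_ne_zero.2 hE0, ?_⟩
  rintro p hp hc ⟨a, ha, hna⟩
  obtain ⟨p, rfl⟩ := (dz_iff p).1 hp
  obtain ⟨a, rfl⟩ := (dz_iff a).1 ha
  obtain ⟨s, t, hst⟩ := int_bezout hE0 hc
  obtain ⟨P, hP, hpP, haP⟩ := exists_max hna
  have h2 : y - (a : Zab) ∣ aeval y f - ((f.eval a : ℤ) : Zab) := by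
    have h3 := sub_dvd_eval_sub y (a : Zab) (f.map (algebraMap ℤ Zab))
    rw [eval_map_algebraMap, ← eq_intCast (algebraMap ℤ Zab) a, eval_map_apply, eq_intCast] at h3
    exact_mod_cast h3
  have h4 : (E : Zab) * x - ((f.eval a : ℤ) : Zab) ∈ P := by
    rw [h1]
    exact P.mem_of_dvd h2 haP
  refine ⟨((t * f.eval a : ℤ) : Zab), dz_int _, not_of_max P hP hpP ?_⟩
  have h5 : x - ((t * f.eval a : ℤ) : Zab) = (s * x) * p + t * ((E : Zab) * x - ((f.eval a : ℤ) : Zab)) := by
    have h6 : (s : Zab) * p + t * E = 1 := by exact_mod_cast congrArg (Int.cast : ℤ → Zab) hst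
    push_cast
    linear_combination (-x) * h6
  rw [h5]
  exact P.add_mem (P.mul_mem_left _ hpP) (P.mul_mem_left _ h4)

lemma frobP (p : ℕ) (hp : p.Prime) (P : Ideal Zab) (hpP : (p : Zab) ∈ P) (z : Zab) (g : ℤ[X]) :
    (aeval z g) ^ p - aeval (z ^ p) g ∈ P := P.mem_of_dvd (frob p hp z g) hpP

lemma exists_int_mem {y : Zab} (p : ℕ) (hp : p.Prime) (hy : (p : Zab) ∣ y ^ p - y) :
    ∃ a : ℤ, ¬ ∃ u v : Zab, u * p + v * (y - a) = 1 := by
  have h0 : ¬ ∃ u v : Zab, u * p + v * 0 = 1 := by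
    rintro ⟨u, v, h⟩
    have h1 : ((p : ℤ) : Zab) ∣ ((1 : ℤ) : Zab) := ⟨u, by push_cast; linear_combination -h⟩
    have h2 := int_dvd (by exact_mod_cast hp.ne_zero) h1
    have h3 := Int.eq_one_of_dvd_one (Int.natCast_nonneg _) h2
    exact hp.one_lt.ne' (by exact_mod_cast h3)
  obtain ⟨P, hP, hpP, -⟩ := exists_max h0
  let _ := Ideal.Quotient.field P
  have hchar : CharP (Zab ⧸ P) p := by
    have h1 : ((p : ℕ) : Zab ⧸ P) = 0 := by
      rw [← map_natCast (Ideal.Quotient.mk P)]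
      exact Ideal.Quotient.eq_zero_iff_mem.2 hpP
    exact (CharP.charP_iff_prime_eq_zero hp).2 h1
  obtain ⟨a, ha⟩ := mem_prime_field p hp (Ideal.Quotient.mk P y) (by
    rw [← map_pow, ← sub_eq_zero, ← map_sub]
    exact Ideal.Quotient.eq_zero_iff_mem.2 (P.mem_of_dvd hy hpP))
  refine ⟨(a : ℤ), not_of_max P hP hpP ?_⟩
  rw [← map_natCast (Ideal.Quotient.mk P), ← sub_eq_zero, ← map_sub] at ha
  have := Ideal.Quotient.eq_zero_iff_mem.1 ha
  exact_mod_cast this

lemma real_of_rd {x : Zab} (hx : RD x) : cR x = x := by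
  obtain ⟨ζ, w, hζ, hζw, D, hD, hD0, H⟩ := hx
  obtain ⟨D, rfl⟩ := (dz_iff D).1 hD
  have hD0' : D ≠ 0 := by rintro rfl; exact hD0 Int.cast_zero
  obtain ⟨k, hk, hζk⟩ := (mu_iff ζ).1 hζ
  obtain ⟨n, hn, D', g, hD', h⟩ := rep x
  have hzn : (zR n hn) ^ n = 1 := (zR_prim n hn).pow_eq_one
  have hcg : cR (D' * x) = aeval (cR (zR n hn)) g := by
    rw [h]
    have h2 : cR (aeval (zR n hn) g) = cR.toIntAlgHom (aeval (zR n hn) g) := rfl
    rw [h2, ← aeval_algHom_apply]
    rfl
  have hz : (D' : Zab) * x - cR (D' * x) = 0 := by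
    by_contra hne
    obtain ⟨m, hm, hd⟩ := exists_int_mul _ hne
    have hN : n * k ≠ 0 := mul_ne_zero hn hk
    have : NeZero (n * k) := ⟨hN⟩
    have hu : IsUnit (-1 : ZMod (n * k)) := isUnit_one.neg
    obtain ⟨p, hpm, hp, hpb⟩ := Nat.forall_exists_prime_gt_and_eq_mod hu (m.natAbs + D.natAbs + 2)
    have hpmod : n * k ∣ p + 1 := by
      rw [← ZMod.natCast_eq_zero_iff]
      push_cast
      rw [hpb]
      ring
    -- powers
    have hpow : ∀ z w' : Zab, z ^ (n * k) = 1 → z * w' = 1 → z ^ p = w' := by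
      intro z w' hz1 hzw'
      obtain ⟨c, hc⟩ := hpmod
      have h1 : z ^ (p + 1) = 1 := by rw [hc, pow_mul, hz1, one_pow]
      rw [pow_succ] at h1
      calc z ^ p = z ^ p * (z * w') := by rw [hzw', mul_one]
        _ = (z ^ p * z) * w' := by ring
        _ = w' := by rw [h1, one_mul]
    have hζp : ζ ^ p = w := hpow ζ w (by rw [mul_comm, pow_mul, hζk, one_pow]) hζw
    have hwp : w ^ p = ζ := hpow w ζ (by
      have h1 : (ζ * w) ^ (n * k) = 1 := by rw [hζw, one_pow]
      have h2 : ζ ^ (n * k) = 1 := by rw [mul_comm, pow_mul, hζk, one_pow]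
      rwa [mul_pow, h2, one_mul] at h1) (by rw [mul_comm]; exact hζw)
    have hznp : (zR n hn) ^ p = cR (zR n hn) := hpow _ _ (by rw [pow_mul, hzn, one_pow]) (cR_root _ n hn hzn)
    have hy : (p : Zab) ∣ (ζ + w) ^ p - (ζ + w) := by
      obtain ⟨r, hr⟩ := exists_add_pow_prime_eq hp ζ w
      rw [hr, hζp, hwp]
      exact ⟨ζ * w * r, by ring⟩
    obtain ⟨a, ha⟩ := exists_int_mem p hp hy
    obtain ⟨b, hb, hnb⟩ := H ((p : ℤ) : Zab) (dz_int p) (by
      have h1 : IsCoprime (p : ℤ) D := by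
        exact (Int.isCoprime_iff_gcd_eq_one.2 (by
              have : Nat.Coprime p D.natAbs := (Nat.Prime.coprime_iff_not_dvd hp).2 (by
                intro hd2
                have := Nat.le_of_dvd (Int.natAbs_pos.2 hD0') hd2
                omega)
              simpa [Int.gcd] using this))
      obtain ⟨s, t, hst⟩ := h1
      exact ⟨(s : Zab), (t : Zab), by exact_mod_cast congrArg (Int.cast : ℤ → Zab) hst⟩)
      ⟨(a : Zab), dz_int a, by exact_mod_cast ha⟩
    obtain ⟨b, rfl⟩ := (dz_iff b).1 hb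
    obtain ⟨P, hP, hpP, hbP⟩ := exists_max hnb
    have hpP' : (p : Zab) ∈ P := by exact_mod_cast hpP
    -- the contradiction
    have e1 : (D' * x) ^ p - cR (D' * x) ∈ P := by
      have := frobP p hp P hpP' (zR n hn) g
      rwa [hznp, ← h, ← hcg] at this
    have e2 : (D' * x) ^ p - (D' * b : Zab) ^ p ∈ P := by
      refine P.mem_of_dvd ?_ hbP
      refine Dvd.dvd.trans ?_ (sub_dvd_pow_sub_pow _ _ _)
      exact ⟨(D' : Zab), by ring⟩
    have e3 : (D' * b : Zab) ^ p - D' * b ∈ P := by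
      have h5 := frobP p hp P hpP' 0 ((D' * b : ℤ) : ℤ[X])
      simp only [map_intCast] at h5
      push_cast at h5
      exact h5
    have e4 : (D' : Zab) * x - D' * b ∈ P := by
      have : (D' : Zab) * x - D' * b = D' * (x - b) := by ring
      rw [this]
      exact P.mul_mem_left _ hbP
    have e5 : (D' : Zab) * x - cR (D' * x) ∈ P := by
      have : (D' : Zab) * x - cR (D' * x) = ((D' : Zab) * x - D' * b) - ((D' * b : Zab) ^ p - D' * b)
        - ((D' * x) ^ p - (D' * b : Zab) ^ p) + ((D' * x) ^ p - cR (D' * x)) := by ring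
      rw [this]
      exact P.add_mem (P.sub_mem (P.sub_mem e4 e3) e2) e1
    have e6 : (m : Zab) ∈ P := P.mem_of_dvd hd e5
    have hcop : IsCoprime (p : ℤ) m := by
      exact (Int.isCoprime_iff_gcd_eq_one.2 (by
              have : Nat.Coprime p m.natAbs := (Nat.Prime.coprime_iff_not_dvd hp).2 (by
                intro hd2
                have := Nat.le_of_dvd (Int.natAbs_pos.2 hm) hd2
                omega)
              simpa [Int.gcd] using this))
    obtain ⟨s, t, hst⟩ := hcop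
    exact not_of_max P hP hpP' e6 ⟨(s : Zab), (t : Zab), by exact_mod_cast congrArg (Int.cast : ℤ → Zab) hst⟩
  have hD'' : (D' : Zab) ≠ 0 := Nat.cast_ne_zero.2 hD'
  rw [map_mul, map_natCast, ← mul_sub] at hz
  rcases mul_eq_zero.1 hz with h0 | h0
  · exact absurd h0 hD''
  · exact (sub_eq_zero.1 h0).symm

theorem rd_iff (x : Zab) : RD x ↔ (inc x).im = 0 := by
  constructor
  · intro h
    have h1 := congrArg inc (real_of_rd h)
    rw [inc_cR] at h1
    exact Complex.conj_eq_iff_im.1 h1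
  · intro h
    apply rd_of_real
    apply inc_inj
    rw [inc_cR]
    exact Complex.conj_eq_iff_im.2 h

end Pool.Agent.H358R3
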